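import Pool.Agent.N742.DR.Stm

/-!
Project DR (helper742), part BD1: calculus of weighted bounds.  Written by helper432.
-/

set_option autoImplicit false

open Set Filter Topology MeasureTheory

namespace Pool.Agent.N742.DR

open Pool.Agent.N229.SC

section

variable {w ω : ℤ → ℝ}

private theorem bd1_nonneg {a : Al w} {M : ℝ} (h : Bd ω a M) : 0 ≤ M := by
  have := h ∅
  rwa [Finset.sum_empty] at this

private theorem bd1_mono {a : Al w} {M N : ℝ} (h : Bd ω a M) (hMN : M ≤ N) : Bd ω a N :=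
  fun F => (h F).trans hMN

variable [Wt w]

private theorem bd1_add (hA1 : S_A1) (hω : Wg ω) {a b : Al w} {M N : ℝ} (ha : Bd ω a M)
    (hb : Bd ω b N) : Bd ω (a + b) (M + N) := by
  intro F
  refine le_trans ?_ (add_le_add (ha F) (hb F))
  rw [← Finset.sum_add_distrib]
  refine Finset.sum_le_sum fun j _ => ?_
  rw [(hA1 w).1, ← add_mul]
  exact mul_le_mul_of_nonneg_right (abs_add_le _ _) (zero_le_one.trans (hω.one_le j))

private theorem bd1_smul (hA1 : S_A1) {a : Al w} {M : ℝ} (r : ℝ) (ha : Bd ω a M) :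
    Bd ω (r • a) (|r| * M) := by
  intro F
  have h : ∑ j ∈ F, |cf (r • a) j| * ω j = |r| * ∑ j ∈ F, |cf a j| * ω j := by
    rw [Finset.mul_sum]
    refine Finset.sum_congr rfl fun j _ => ?_
    rw [(hA1 w).2.2.2.2.1, abs_mul, mul_assoc]
  rw [h]
  exact mul_le_mul_of_nonneg_left (ha F) (abs_nonneg r)

private theorem bd1_neg (hA1 : S_A1) {a : Al w} {M : ℝ} (ha : Bd ω a M) : Bd ω (-a) M := by
  intro F
  refine le_trans (le_of_eq ?_) (ha F)
  refine Finset.sum_congr rfl fun j _ => ?_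
  rw [(hA1 w).2.2.1, abs_neg]

private theorem bd1_sub (hA1 : S_A1) (hω : Wg ω) {a b : Al w} {M N : ℝ} (ha : Bd ω a M)
    (hb : Bd ω b N) : Bd ω (a - b) (M + N) := by
  rw [sub_eq_add_neg]
  exact bd1_add hA1 hω ha (bd1_neg hA1 hb)

private theorem bd1_mul (hA1 : S_A1) (hω : Wg ω) {a b : Al w} {M N : ℝ} (ha : Bd ω a M)
    (hb : Bd ω b N) : Bd ω (a * b) (M * N) := by
  intro F
  have hω0 : ∀ j, 0 ≤ ω j := fun j => zero_le_one.trans (hω.one_le j)
  have hN : 0 ≤ N := bd1_nonneg hb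
  obtain ⟨-, -, -, -, -, -, -, -, -, -, hprod, -⟩ := hA1 w
  have hsa : Summable (fun j => |cf a j| * ω j) :=
    summable_of_sum_le (fun j => mul_nonneg (abs_nonneg _) (hω0 j)) ha
  have hta : ∑' j, |cf a j| * ω j ≤ M := hsa.tsum_le_of_sum_le ha
  obtain ⟨σ, hσ⟩ : ∃ σ : ℤ → ℝ, ∀ k, |σ k| = 1 ∧ σ k * cf (a * b) k = |cf (a * b) k| := by
    refine ⟨fun k => if 0 ≤ cf (a * b) k then 1 else -1, fun k => ?_⟩
    simp only
    split_ifs with h
    · exact ⟨abs_one, by rw [one_mul, abs_of_nonneg h]⟩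
    · exact ⟨by rw [abs_neg, abs_one], by rw [neg_one_mul, abs_of_neg (not_le.1 h)]⟩
  have hS : HasSum (fun j => ∑ k ∈ F, σ k * ω k * (cf a j * cf b (k - j)))
      (∑ k ∈ F, σ k * ω k * cf (a * b) k) :=
    hasSum_sum fun k _ => (hprod a b k).mul_left _
  have hT : HasSum (fun j => |cf a j| * ω j * N) ((∑' j, |cf a j| * ω j) * N) :=
    hsa.hasSum.mul_right N
  have hterm : ∀ j, ∑ k ∈ F, σ k * ω k * (cf a j * cf b (k - j)) ≤ |cf a j| * ω j * N := by
    intro j
    have h1 : ∑ k ∈ F, |cf b (k - j)| * ω (k - j) ≤ N := by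
      have h2 := hb (F.map (Equiv.subRight j).toEmbedding)
      rw [Finset.sum_map] at h2
      exact h2
    calc ∑ k ∈ F, σ k * ω k * (cf a j * cf b (k - j))
        ≤ ∑ k ∈ F, (|cf a j| * ω j) * (|cf b (k - j)| * ω (k - j)) := by
          refine Finset.sum_le_sum fun k _ => ?_
          have h3 : ω k ≤ ω j * ω (k - j) := by
            have := hω.mul j (k - j)
            rwa [add_sub_cancel] at this
          calc σ k * ω k * (cf a j * cf b (k - j)) ≤ |σ k * ω k * (cf a j * cf b (k - j))| :=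
                le_abs_self _
            _ = |cf a j| * |cf b (k - j)| * ω k := by
                rw [abs_mul, abs_mul, abs_mul, (hσ k).1, one_mul, abs_of_nonneg (hω0 k)]
                ring
            _ ≤ |cf a j| * |cf b (k - j)| * (ω j * ω (k - j)) :=
                mul_le_mul_of_nonneg_left h3 (mul_nonneg (abs_nonneg _) (abs_nonneg _))
            _ = _ := by ring
      _ = |cf a j| * ω j * ∑ k ∈ F, |cf b (k - j)| * ω (k - j) := by rw [Finset.mul_sum]
      _ ≤ |cf a j| * ω j * N :=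
          mul_le_mul_of_nonneg_left h1 (mul_nonneg (abs_nonneg _) (hω0 j))
  have hle := hasSum_le hterm hS hT
  have heq : ∑ k ∈ F, |cf (a * b) k| * ω k = ∑ k ∈ F, σ k * ω k * cf (a * b) k := by
    refine Finset.sum_congr rfl fun k _ => ?_
    rw [← (hσ k).2]
    ring
  rw [heq]
  exact hle.trans (mul_le_mul_of_nonneg_right hta hN)

private theorem bd1_mon (hA1 : S_A1) (hω : Wg ω) (i : ℤ) : Bd ω (mon w i) (ω i) := by
  intro F
  have h : ∀ j, |cf (mon w i) j| * ω j = if i = j then ω j else 0 := by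
    intro j
    rw [(hA1 w).2.2.2.2.2.1]
    split_ifs
    · rw [abs_one, one_mul]
    · rw [abs_zero, zero_mul]
  simp only [h]
  rw [Finset.sum_ite_eq]
  split_ifs
  · exact le_rfl
  · exact zero_le_one.trans (hω.one_le i)

private theorem bd1_one (hA1 : S_A1) (hω : Wg ω) : Bd ω (1 : Al w) 1 := by
  have h := bd1_mon (w := w) hA1 hω 0
  rw [hω.zero] at h
  rw [one_def]
  exact h

private theorem bd1_zero (hA1 : S_A1) : Bd ω (0 : Al w) 0 := by
  intro F
  refine le_of_eq (Finset.sum_eq_zero fun j _ => ?_)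
  rw [(hA1 w).2.2.2.1, abs_zero, zero_mul]

private theorem bd1_lim (hA1 : S_A1) {ι : Type} {l : Filter ι} [l.NeBot] {x : ι → Al w} {a : Al w}
    {B : ℝ} (hx : Tendsto x l (𝓝 a)) (hB : ∀ k, Bd ω (x k) B) : Bd ω a B := by
  intro F
  have hcf : ∀ j, Tendsto (fun k => cf (x k) j) l (𝓝 (cf a j)) := by
    intro j
    obtain ⟨L, hL⟩ := (hA1 w).2.2.2.2.2.2.2.2.2.2.2.2 j
    have := (L.continuous.tendsto a).comp hx
    simp only [Function.comp_def, hL] at this
    exact this
  have h : Tendsto (fun k => ∑ j ∈ F, |cf (x k) j| * ω j) l (𝓝 (∑ j ∈ F, |cf a j| * ω j)) :=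
    tendsto_finsetSum _ fun j _ => (hcf j).abs.mul_const _
  exact le_of_tendsto' h fun k => hB k F

private theorem bd1_sum (hA1 : S_A1) (hω : Wg ω) {x : ℕ → Al w} {M : ℕ → ℝ}
    (hx : ∀ k, Bd ω (x k) (M k)) (n : ℕ) :
    Bd ω (∑ k ∈ Finset.range n, x k) (∑ k ∈ Finset.range n, M k) := by
  induction n with
  | zero =>
    rw [Finset.sum_range_zero, Finset.sum_range_zero]
    exact bd1_zero hA1
  | succ n ih =>
    rw [Finset.sum_range_succ, Finset.sum_range_succ]
    exact bd1_add hA1 hω ih (hx n)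

end

theorem proof_BD1 (hA1 : S_A1) : S_BD1 := by
  intro w ω _ hω
  refine ⟨fun a b M N ha hb => ⟨bd1_add hA1 hω ha hb, bd1_sub hA1 hω ha hb, bd1_mul hA1 hω ha hb⟩,
    fun a M r ha => ⟨bd1_nonneg ha, bd1_neg hA1 ha, bd1_smul hA1 r ha⟩,
    fun a M N ha hMN => bd1_mono ha hMN, fun i => bd1_mon hA1 hω i, bd1_one hA1 hω, bd1_zero hA1,
    ?_, ?_, fun x a M hx hM => bd1_lim hA1 hx hM, ?_⟩
  · intro a M k ha
    induction k with
    | zero =>
      rw [pow_zero, pow_zero]
      exact bd1_one hA1 hω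
    | succ k ih =>
      rw [pow_succ, pow_succ]
      exact bd1_mul hA1 hω ih ha
  · intro x a M B hxa hxM hMB
    refine bd1_lim hA1 hxa.tendsto_sum_nat fun n => ?_
    refine bd1_mono (bd1_sum hA1 hω hxM n) ?_
    exact sum_le_hasSum _ (fun k _ => bd1_nonneg (hxM k)) hMB
  · intro a M ha hw
    obtain ⟨-, -, -, -, -, -, -, hnorm, -⟩ := hA1 w
    refine hasSum_le_of_sum_le (hnorm a) fun F => ?_
    refine le_trans (Finset.sum_le_sum fun j _ => ?_) (ha F)
    exact mul_le_mul_of_nonneg_left (hw j) (abs_nonneg _)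

end Pool.Agent.N742.DR
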