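import Pool.Agent.N742.DR.Stm

/-!
Project DR (helper742), problem MP_d92c84_an, part BD2 (helper195): bounds of the operators in the
weights `(1 + |j| / 8) 5 ^ |j|` and `5 ^ |j|`.
-/

set_option autoImplicit false

open Set Filter Topology MeasureTheory

namespace Pool.Agent.N742.DR

open Pool.Agent.N229.SC

private theorem bd2_l1 {α β : ℤ → ℝ} {c M : ℝ} (hc : 0 ≤ c) (h : ∀ j, β j ≤ c * α j)
    (hM : ∀ F : Finset ℤ, ∑ j ∈ F, α j ≤ M) (F : Finset ℤ) : ∑ j ∈ F, β j ≤ c * M := by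
  calc ∑ j ∈ F, β j ≤ ∑ j ∈ F, c * α j := Finset.sum_le_sum fun j _ => h j
    _ = c * ∑ j ∈ F, α j := by rw [Finset.mul_sum]
    _ ≤ c * M := mul_le_mul_of_nonneg_left (hM F) hc

private theorem bd2_l1' {α β : ℤ → ℝ} {M : ℝ} (h : ∀ j, β j ≤ α j)
    (hM : ∀ F : Finset ℤ, ∑ j ∈ F, α j ≤ M) (F : Finset ℤ) : ∑ j ∈ F, β j ≤ M :=
  (Finset.sum_le_sum fun j _ => h j).trans (hM F)

private theorem bd2_l3 {α β : ℤ → ℝ} {M : ℝ} (h : ∀ j, β j ≤ α (-j))
    (hM : ∀ F : Finset ℤ, ∑ j ∈ F, α j ≤ M) (F : Finset ℤ) : ∑ j ∈ F, β j ≤ M := by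
  refine (Finset.sum_le_sum fun j _ => h j).trans ?_
  have h1 := hM (F.map (Equiv.neg ℤ).toEmbedding)
  rw [Finset.sum_map] at h1
  exact h1

private theorem bd2_l2 {α β : ℤ → ℝ} {M : ℝ} (h0 : ∀ j, 0 ≤ α j)
    (h : ∀ j, 0 < j → β j ≤ α j + α (-j)) (hz : β 0 ≤ α 0) (hn : ∀ j < 0, β j ≤ 0)
    (hM : ∀ F : Finset ℤ, ∑ j ∈ F, α j ≤ M) (F : Finset ℤ) : ∑ j ∈ F, β j ≤ M := by
  set P : Finset ℤ := F.filter (fun j => 0 < j) with hP
  have h1 : ∑ j ∈ F, β j ≤ ∑ j ∈ P, (α j + α (-j)) + α 0 := by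
    rw [← Finset.sum_filter_add_sum_filter_not F (fun j => 0 < j)]
    refine add_le_add (Finset.sum_le_sum fun j hj => h j (Finset.mem_filter.1 hj).2) ?_
    have h2 : ∀ j ∈ F.filter (fun j => ¬ 0 < j), β j ≤ if j = 0 then α 0 else 0 := by
      intro j hj
      have h3 := (Finset.mem_filter.1 hj).2
      split
      · rename_i h4
        rw [h4]
        exact hz
      · rename_i h4
        exact hn j (by omega)
    refine (Finset.sum_le_sum h2).trans ?_
    rw [Finset.sum_ite_eq']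
    split
    · exact le_rfl
    · exact h0 0
  refine h1.trans ?_
  have hd : Disjoint P (P.map (Equiv.neg ℤ).toEmbedding) := by
    rw [Finset.disjoint_left]
    intro x hx hx'
    rw [Finset.mem_map] at hx'
    obtain ⟨y, hy, rfl⟩ := hx'
    have h3 := (Finset.mem_filter.1 hx).2
    have h4 := (Finset.mem_filter.1 hy).2
    have h5 : (Equiv.neg ℤ).toEmbedding y = -y := rfl
    rw [h5] at h3
    omega
  have hd2 : (0 : ℤ) ∉ P ∪ P.map (Equiv.neg ℤ).toEmbedding := by
    rw [Finset.mem_union]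
    rintro (hx | hx)
    · have h3 := (Finset.mem_filter.1 hx).2
      omega
    · rw [Finset.mem_map] at hx
      obtain ⟨y, hy, h6⟩ := hx
      have h4 := (Finset.mem_filter.1 hy).2
      have h5 : (Equiv.neg ℤ).toEmbedding y = -y := rfl
      rw [h5] at h6
      omega
  have h3 := hM (insert 0 (P ∪ P.map (Equiv.neg ℤ).toEmbedding))
  rw [Finset.sum_insert hd2, Finset.sum_union hd, Finset.sum_map] at h3
  have h4 : ∑ x ∈ P, α ((Equiv.neg ℤ).toEmbedding x) = ∑ x ∈ P, α (-x) := rfl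
  rw [h4] at h3
  rw [Finset.sum_add_distrib]
  linarith

private theorem bd2_w5_neg (j : ℤ) : w5 (-j) = w5 j := by
  unfold w5
  rw [Int.natAbs_neg]

private theorem bd2_w5_nonneg (j : ℤ) : 0 ≤ w5 j := by
  unfold w5
  positivity

private theorem bd2_u5_pos (j : ℤ) : 0 < u5 j := by
  unfold u5
  positivity

private theorem bd2_u5_le (j : ℤ) : u5 j ≤ w5 j := by
  unfold u5 w5
  have h1 : (0 : ℝ) < 5 ^ j.natAbs := by positivity
  have h2 : (0 : ℝ) ≤ (j.natAbs : ℝ) := Nat.cast_nonneg _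
  nlinarith [mul_nonneg h1.le h2]

private theorem bd2_w5_eq {j : ℤ} (hj : 2 ≤ j) : w5 j = (1 + (j : ℝ) / 8) * u5 j := by
  unfold w5 u5
  have h6 : ((j.natAbs : ℕ) : ℝ) = j := by
    rw [Nat.cast_natAbs, abs_of_nonneg (by omega)]
  rw [h6]

theorem proof_BD2 (hA1 : S_A1) (hA2 : S_A2) : S_BD2 := by
  obtain ⟨⟨hinc, -, -, -, -⟩, ⟨hconj, -, -, -, -⟩, ⟨hhol, -⟩, ⟨hder, -, -⟩, ⟨hPi, -⟩, ⟨hres, -, -, -⟩⟩ :=
    hA2
  have hsub := (hA1 wW).2.1
  have hsmul := (hA1 wA).2.2.2.2.1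
  refine ⟨fun a M ha => ?_, fun n i a M ha => ?_⟩
  · have hα0 : ∀ j, 0 ≤ |cf a j| * w5 j := fun j => mul_nonneg (abs_nonneg _) (bd2_w5_nonneg j)
    refine ⟨?_, ?_, ?_, ?_, ?_, ?_, ?_⟩
    · refine bd2_l1' (α := fun j => |cf a j| * w5 j) (fun j => ?_) ha
      rw [hinc]
      exact mul_le_mul_of_nonneg_left (bd2_u5_le j) (abs_nonneg _)
    · refine bd2_l3 (α := fun j => |cf a j| * w5 j) (fun j => ?_) ha
      rw [hconj]
      show |cf a (-j)| * w5 j ≤ |cf a (-j)| * w5 (-j)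
      rw [bd2_w5_neg]
    · refine bd2_l2 (α := fun j => |cf a j| * w5 j) hα0 (fun j hj => ?_) ?_ (fun j hj => ?_) ha
      · rw [hhol, if_pos hj]
        show |cf a j + cf a (-j)| * w5 j ≤ |cf a j| * w5 j + |cf a (-j)| * w5 (-j)
        rw [bd2_w5_neg, ← add_mul]
        exact mul_le_mul_of_nonneg_right (abs_add_le _ _) (bd2_w5_nonneg j)
      · rw [hhol, if_neg (lt_irrefl _), if_pos rfl]
      · rw [hhol, if_neg (by omega), if_neg (by omega), abs_zero, zero_mul]
    · refine bd2_l1' (α := fun j => |cf a j| * w5 j) (fun j => ?_) ha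
      rw [hPi]
      split
      · exact le_rfl
      · rw [abs_zero, zero_mul]
        exact hα0 j
    · refine bd2_l2 (α := fun j => |cf a j| * w5 j) hα0 (fun j hj => ?_) ?_ (fun j hj => ?_) ha
      · rw [hPi]
        show |if 2 ≤ j then cf (a - conj a) j else 0| * w5 j ≤
          |cf a j| * w5 j + |cf a (-j)| * w5 (-j)
        rw [bd2_w5_neg, ← add_mul]
        refine mul_le_mul_of_nonneg_right ?_ (bd2_w5_nonneg j)
        split
        · rw [hsub, hconj]
          exact abs_sub _ _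
        · rw [abs_zero]
          positivity
      · rw [hPi, if_neg (by omega), abs_zero, zero_mul]
        exact hα0 0
      · rw [hPi, if_neg (by omega), abs_zero, zero_mul]
    · refine bd2_l1 (α := fun j => |cf a j| * w5 j) (by norm_num) (fun j => ?_) ha
      rw [hder, abs_mul]
      have h1 : |(j : ℝ)| = j.natAbs := by rw [Nat.cast_natAbs, Int.cast_abs]
      rw [h1]
      show (j.natAbs : ℝ) * |cf a j| * u5 j ≤ 8 * (|cf a j| * w5 j)
      have h2 : (j.natAbs : ℝ) * u5 j ≤ 8 * w5 j := by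
        unfold u5 w5
        have h3 : (0 : ℝ) < 5 ^ j.natAbs := by positivity
        nlinarith
      nlinarith [mul_le_mul_of_nonneg_left h2 (abs_nonneg (cf a j))]
    · intro h2
      refine bd2_l1 (α := fun j => |cf a j| * w5 j) (by norm_num) (fun j => ?_) ha
      rw [hinc]
      show |cf a j| * u5 j ≤ 4 / 5 * (|cf a j| * w5 j)
      by_cases hj : j < 2
      · rw [h2 j hj, abs_zero, zero_mul, zero_mul, mul_zero]
      · push Not at hj
        rw [bd2_w5_eq hj]
        have h3 := bd2_u5_pos j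
        have h4 : (2 : ℝ) ≤ j := by exact_mod_cast hj
        have h5 := mul_nonneg (abs_nonneg (cf a j)) h3.le
        nlinarith
  · have hα0 : ∀ j, 0 ≤ |cf a j| * u5 j := fun j => mul_nonneg (abs_nonneg _) (bd2_u5_pos j).le
    have hin : (0 : ℝ) ≤ (i : ℝ) / n := by positivity
    refine ⟨?_, ?_, ?_⟩
    · refine bd2_l1 (α := fun j => |cf a j| * u5 j) (by norm_num) (fun j => ?_) ha
      rw [hres]
      show _ ≤ 5 / 8 * (|cf a j| * u5 j)
      split
      · rename_i hj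
        have h4 : (2 : ℝ) ≤ j := by exact_mod_cast hj
        have h5 : (0 : ℝ) < (j : ℝ) + (i : ℝ) / n := by linarith
        rw [abs_div, abs_of_pos h5, bd2_w5_eq hj, div_mul_eq_mul_div, div_le_iff₀ h5]
        have h6 := hα0 j
        have h7 : (1 + (j : ℝ) / 8) ≤ 5 / 8 * ((j : ℝ) + (i : ℝ) / n) := by linarith
        calc |cf a j| * ((1 + (j : ℝ) / 8) * u5 j) = (|cf a j| * u5 j) * (1 + (j : ℝ) / 8) := by ring
          _ ≤ (|cf a j| * u5 j) * (5 / 8 * ((j : ℝ) + (i : ℝ) / n)) :=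
              mul_le_mul_of_nonneg_left h7 h6
          _ = _ := by ring
      · rw [abs_zero, zero_mul]
        have := hα0 j
        positivity
    · refine bd2_l1 (α := fun j => |cf a j| * u5 j) (by norm_num) (fun j => ?_) ha
      rw [hinc, hres]
      show _ ≤ 1 / 2 * (|cf a j| * u5 j)
      split
      · rename_i hj
        have h4 : (2 : ℝ) ≤ j := by exact_mod_cast hj
        have h5 : (0 : ℝ) < (j : ℝ) + (i : ℝ) / n := by linarith
        rw [abs_div, abs_of_pos h5, div_mul_eq_mul_div, div_le_iff₀ h5]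
        have h6 := hα0 j
        have h7 : (1 : ℝ) ≤ 1 / 2 * ((j : ℝ) + (i : ℝ) / n) := by linarith
        calc |cf a j| * u5 j = (|cf a j| * u5 j) * 1 := by ring
          _ ≤ (|cf a j| * u5 j) * (1 / 2 * ((j : ℝ) + (i : ℝ) / n)) :=
              mul_le_mul_of_nonneg_left h7 h6
          _ = _ := by ring
      · rw [abs_zero, zero_mul]
        have := hα0 j
        positivity
    · refine bd2_l1' (α := fun j => |cf a j| * u5 j) (fun j => ?_) ha
      rw [hsmul, hinc, hres]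
      split
      · rename_i hj
        have h4 : (2 : ℝ) ≤ j := by exact_mod_cast hj
        have h5 : (0 : ℝ) < (j : ℝ) + (i : ℝ) / n := by linarith
        rw [abs_mul, abs_of_nonneg hin, abs_div, abs_of_pos h5, ← mul_div_assoc,
          div_mul_eq_mul_div, div_le_iff₀ h5]
        have h6 := hα0 j
        have h7 : (i : ℝ) / n ≤ ((j : ℝ) + (i : ℝ) / n) := by linarith
        calc (i : ℝ) / n * |cf a j| * u5 j = (|cf a j| * u5 j) * ((i : ℝ) / n) := by ring
          _ ≤ (|cf a j| * u5 j) * ((j : ℝ) + (i : ℝ) / n) :=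
              mul_le_mul_of_nonneg_left h7 h6
      · rw [mul_zero, abs_zero, zero_mul]
        exact hα0 j

end Pool.Agent.N742.DR
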