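import Pool.Agent.N742.DR.Stm

/-!
DR/BD3 (helper723): bounds of the exponential and of the series `TT` in the weight `5 ^ |j|`.
-/

set_option autoImplicit false

open Set Filter Topology MeasureTheory

namespace Pool.Agent.N742.DR

open Pool.Agent.N229.SC

private theorem rexp (r : ℝ) : HasSum (fun k : ℕ => (k.factorial : ℝ)⁻¹ * r ^ k) (Real.exp r) := by
  have h := NormedSpace.expSeries_div_hasSum_exp (𝔸 := ℝ) r
  rw [← Real.exp_eq_exp_ℝ] at h
  refine h.congr_fun fun k => ?_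
  rw [div_eq_inv_mul]

private theorem rexp1 (r : ℝ) :
    HasSum (fun k : ℕ => ((k + 1).factorial : ℝ)⁻¹ * r ^ (k + 1)) (Real.exp r - 1) := by
  have h := (hasSum_nat_add_iff' 1).mpr (rexp r)
  simpa using h

private theorem rexp2 (r : ℝ) :
    HasSum (fun k : ℕ => ((k + 2).factorial : ℝ)⁻¹ * r ^ (k + 2)) (Real.exp r - 1 - r) := by
  have h := (hasSum_nat_add_iff' 2).mpr (rexp r)
  have e : ∑ i ∈ Finset.range 2, ((i.factorial : ℝ)⁻¹ * r ^ i) = 1 + r := by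
    simp [Finset.sum_range_succ]
  rw [e] at h
  rwa [← sub_sub] at h

private theorem coef (i : ℕ) : |(-1 : ℝ) ^ i * (i.factorial : ℝ)⁻¹| = (i.factorial : ℝ)⁻¹ := by
  rw [abs_mul, abs_pow, abs_neg, abs_one, one_pow, one_mul, abs_of_nonneg (by positivity)]

theorem proof_BD3 (hA1 : S_A1) (hA3 : S_A3) (hWG : S_WG) (hBD1 : S_BD1) : S_BD3 := by
  obtain ⟨b1, b2, b3, b4, b5, b6, b7, b8, b9, b10⟩ := hBD1 wW w5 hWG.1
  have hw : ∀ j, wW j ≤ w5 j := hWG.2.2.1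
  refine ⟨fun x M hx => ?_, fun ξ c M δ hc hξ hδ m => ?_⟩
  · have hs := hA3.1.1 x
    have ht : ∀ k : ℕ, Bd w5 (((k.factorial : ℝ)⁻¹) • x ^ k) ((k.factorial : ℝ)⁻¹ * M ^ k) := by
      intro k
      have h := (b2 _ _ ((k.factorial : ℝ)⁻¹) (b7 x M k hx)).2.2
      rwa [abs_of_nonneg (by positivity)] at h
    refine ⟨b8 _ _ _ _ hs ht (rexp M), ?_, ?_⟩
    · have h := (hasSum_nat_add_iff' 1).mpr hs
      have e : ∑ i ∈ Finset.range 1, ((i.factorial : ℝ)⁻¹) • x ^ i = 1 := by simp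
      rw [e] at h
      exact b8 _ _ _ _ h (fun k => ht (k + 1)) (rexp1 M)
    · have h := (hasSum_nat_add_iff' 2).mpr hs
      have e : ∑ i ∈ Finset.range 2, ((i.factorial : ℝ)⁻¹) • x ^ i = 1 + x := by
        simp [Finset.sum_range_succ]
      rw [e, ← sub_sub] at h
      exact b8 _ _ _ _ h (fun k => ht (k + 2)) (rexp2 M)
  · have hδ0 : 0 ≤ δ := (b2 ξ δ 0 hξ).1
    have hM : 0 ≤ M := by
      have h := (b2 (c 0) _ 0 (hc 0)).1
      simpa using h
    have hnc : ∀ i, ‖c i‖ ≤ M * (3 ^ i * i.factorial) := fun i => b10 _ _ (hc i) hw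
    have hnξ : ‖ξ‖ ≤ δ := b10 _ _ hξ hw
    have hs : HasSum (fun i : ℕ => ((-1) ^ i * (i.factorial : ℝ)⁻¹) • (ξ ^ i * c i)) (TT ξ c) :=
      (hA3.2.1 ξ c M hnc (hnξ.trans hδ)).1.hasSum
    have h := (hasSum_nat_add_iff' m).mpr hs
    have ht : ∀ i : ℕ, Bd w5 (((-1) ^ i * (i.factorial : ℝ)⁻¹) • (ξ ^ i * c i))
        (M * (3 * δ) ^ i) := by
      intro i
      have h1 := (b1 _ _ _ _ (b7 ξ δ i hξ) (hc i)).2.2
      have h2 := (b2 _ _ ((-1) ^ i * (i.factorial : ℝ)⁻¹) h1).2.2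
      rw [coef] at h2
      refine b3 _ _ _ h2 (le_of_eq ?_)
      have h3 : (i.factorial : ℝ) ≠ 0 := by positivity
      rw [mul_pow]
      field_simp
    have hg := (hasSum_geometric_of_lt_one (r := 3 * δ) (by positivity) (by linarith)).mul_left
      (M * (3 * δ) ^ m)
    have h4 : Bd w5 (TT ξ c - ∑ i ∈ Finset.range m,
        ((-1) ^ i * (i.factorial : ℝ)⁻¹) • (ξ ^ i * c i)) (M * (3 * δ) ^ m * (1 - 3 * δ)⁻¹) := by
      refine b8 _ _ _ _ h (fun k => ?_) hg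
      refine b3 _ _ _ (ht (k + m)) (le_of_eq ?_)
      rw [pow_add]
      ring
    refine b3 _ _ _ h4 ?_
    have h2 : (1 - 3 * δ)⁻¹ ≤ 10 / 9 := by
      rw [inv_le_comm₀ (by linarith) (by norm_num)]
      norm_num
      linarith
    calc M * (3 * δ) ^ m * (1 - 3 * δ)⁻¹ ≤ M * (3 * δ) ^ m * (10 / 9) :=
          mul_le_mul_of_nonneg_left h2 (by positivity)
      _ = _ := by ring

end Pool.Agent.N742.DR
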