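import Pool.Agent.N742.DR.Stm

/-!
Project DR (helper742), part BES: the radial functions satisfy Bessel equations (helper93).
-/

set_option autoImplicit false

open Set Filter Topology

namespace Pool.Agent.N742.DR

open Pool.Agent.N229.SC

/-- the series `∑ e ^ i / i! c_i` -/
private noncomputable def bes_G (c : ℕ → ℝ) (e : ℝ) : ℝ :=
  ∑' i : ℕ, e ^ i / (i.factorial : ℝ) * c i

private theorem bes_sum {c : ℕ → ℝ} {C : ℝ} (hc : ∀ i, |c i| ≤ C) (e : ℝ) :
    Summable fun i : ℕ => e ^ i / (i.factorial : ℝ) * c i := by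
  refine Summable.of_norm_bounded ((Real.summable_pow_div_factorial |e|).mul_right C) fun i => ?_
  rw [norm_mul, norm_div, norm_pow, Real.norm_eq_abs, Real.norm_natCast, Real.norm_eq_abs]
  gcongr
  exact hc i

private theorem bes_fac (n : ℕ) (x : ℝ) :
    ((n + 1 : ℕ) : ℝ) * x / ((n + 1).factorial : ℝ) = x / (n.factorial : ℝ) := by
  rw [Nat.factorial_succ]
  push_cast
  have h1 : (n : ℝ) + 1 ≠ 0 := by positivity
  have h2 : (n.factorial : ℝ) ≠ 0 := by positivity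
  field_simp

private theorem bes_sum2 (E : ℝ) :
    Summable fun n : ℕ => E ^ (n - 1) / ((n - 1).factorial : ℝ) := by
  rw [← summable_nat_add_iff 1]
  exact Real.summable_pow_div_factorial E

private theorem bes_bd (n : ℕ) (E : ℝ) :
    (n : ℝ) * E ^ (n - 1) / (n.factorial : ℝ) ≤ E ^ (n - 1) / ((n - 1).factorial : ℝ) := by
  rcases n with _ | n
  · simp
  · rw [bes_fac]
    simp

private theorem bes_der {c : ℕ → ℝ} {C : ℝ} (hc : ∀ i, |c i| ≤ C) (e : ℝ) :
    HasDerivAt (bes_G c) (bes_G (fun i => c (i + 1)) e) e := by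
  have hC : 0 ≤ C := (abs_nonneg _).trans (hc 0)
  obtain ⟨E, hE⟩ : ∃ E, E = |e| + 1 := ⟨_, rfl⟩
  have hE0 : 0 < E := by
    rw [hE]
    positivity
  have he : e ∈ Metric.ball (0 : ℝ) E := by
    rw [mem_ball_zero_iff, Real.norm_eq_abs, hE]
    linarith
  have hb : ∀ (n : ℕ) (y : ℝ), y ∈ Metric.ball (0 : ℝ) E →
      ‖(n : ℝ) * y ^ (n - 1) / (n.factorial : ℝ) * c n‖ ≤
        E ^ (n - 1) / ((n - 1).factorial : ℝ) * C := by
    intro n y hy
    rw [mem_ball_zero_iff, Real.norm_eq_abs] at hy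
    rw [norm_mul, norm_div, norm_mul, norm_pow, Real.norm_natCast, Real.norm_natCast,
      Real.norm_eq_abs, Real.norm_eq_abs]
    refine mul_le_mul ?_ (hc n) (abs_nonneg _) (by positivity)
    refine le_trans ?_ (bes_bd n E)
    gcongr
  have h1 := hasDerivAt_tsum_of_isPreconnected (t := Metric.ball (0 : ℝ) E)
    (g := fun (n : ℕ) (y : ℝ) => y ^ n / (n.factorial : ℝ) * c n)
    (g' := fun (n : ℕ) (y : ℝ) => (n : ℝ) * y ^ (n - 1) / (n.factorial : ℝ) * c n)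
    ((bes_sum2 E).mul_right C) Metric.isOpen_ball (convex_ball 0 E).isPreconnected
    (fun n y _ => ((hasDerivAt_pow n y).div_const _).mul_const _) hb he (bes_sum hc e) he
  have h2 : ∑' n : ℕ, (n : ℝ) * e ^ (n - 1) / (n.factorial : ℝ) * c n =
      bes_G (fun i => c (i + 1)) e := by
    have h3 : Summable fun n : ℕ => (n : ℝ) * e ^ (n - 1) / (n.factorial : ℝ) * c n :=
      Summable.of_norm_bounded ((bes_sum2 E).mul_right C) fun n => hb n e he
    rw [h3.tsum_eq_zero_add]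
    simp only [Nat.cast_zero, zero_mul, zero_div, zero_add]
    unfold bes_G
    refine tsum_congr fun n => ?_
    rw [bes_fac, Nat.add_sub_cancel]
  rw [← h2]
  exact h1

private theorem bes_i {c : ℕ → ℝ} {C : ℝ} (hc : ∀ i, |c i| ≤ C) (e : ℝ) :
    HasSum (fun i : ℕ => e ^ i / (i.factorial : ℝ) * (i * c (i + 1)))
      (e * bes_G (fun i => c (i + 2)) e) := by
  rw [← hasSum_nat_add_iff' 1]
  simp only [Finset.range_one, Finset.sum_singleton, Nat.cast_zero, zero_mul, mul_zero, sub_zero]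
  have h1 : Summable fun i : ℕ => e ^ i / (i.factorial : ℝ) * c (i + 2) :=
    bes_sum (c := fun i => c (i + 2)) (fun i => hc (i + 2)) e
  have h2 := h1.hasSum.mul_left e
  refine h2.congr_fun fun i => ?_
  have h3 := bes_fac i (e ^ (i + 1))
  rw [pow_succ] at h3 ⊢
  linear_combination (c (i + 2)) * h3

private theorem bes_rel {c : ℕ → ℝ} {C ρ β : ℝ} (hc : ∀ i, |c i| ≤ C)
    (hr : ∀ i : ℕ, c (i + 2) = 2 * (i + β) / ρ * c (i + 1) - c i) (e : ℝ) :
    bes_G (fun i => c (i + 2)) e = 2 / ρ * (e * bes_G (fun i => c (i + 2)) e +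
      β * bes_G (fun i => c (i + 1)) e) - bes_G c e := by
  have h0 : HasSum (fun i : ℕ => e ^ i / (i.factorial : ℝ) * c i) (bes_G c e) :=
    (bes_sum hc e).hasSum
  have h1 : HasSum (fun i : ℕ => e ^ i / (i.factorial : ℝ) * c (i + 1))
      (bes_G (fun i => c (i + 1)) e) :=
    (bes_sum (c := fun i => c (i + 1)) (fun i => hc (i + 1)) e).hasSum
  have h2 : HasSum (fun i : ℕ => e ^ i / (i.factorial : ℝ) * c (i + 2))
      (bes_G (fun i => c (i + 2)) e) :=
    (bes_sum (c := fun i => c (i + 2)) (fun i => hc (i + 2)) e).hasSum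
  have h3 := (((bes_i hc e).add (h1.mul_left β)).mul_left (2 / ρ)).sub h0
  refine h2.unique (h3.congr_fun fun i => ?_)
  rw [hr i]
  ring

private theorem bes_e (ρ r : ℝ) (hρ : ρ ≠ 0) :
    HasDerivAt (fun r : ℝ => (ρ ^ 2 - r ^ 2) / (2 * ρ)) (-(r / ρ)) r := by
  have h1 := ((hasDerivAt_pow 2 r).const_sub (ρ ^ 2)).div_const (2 * ρ)
  refine h1.congr_deriv ?_
  field_simp
  ring

private theorem bes_comp {c : ℕ → ℝ} {C : ℝ} (hc : ∀ i, |c i| ≤ C) (ρ r : ℝ) (hρ : ρ ≠ 0) :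
    HasDerivAt (fun r : ℝ => bes_G c ((ρ ^ 2 - r ^ 2) / (2 * ρ)))
      (bes_G (fun i => c (i + 1)) ((ρ ^ 2 - r ^ 2) / (2 * ρ)) * (-(r / ρ))) r :=
  HasDerivAt.comp r (bes_der hc _) (bes_e ρ r hρ)

private theorem bes_zero (c : ℕ → ℝ) : bes_G c 0 = c 0 := by
  unfold bes_G
  rw [tsum_eq_single 0]
  · simp
  · intro i hi
    rw [zero_pow hi]
    simp

private theorem bes_pow (n : ℕ) (ρ r : ℝ) (hρ : ρ ≠ 0) (hr : r ≠ 0) :
    HasDerivAt (fun r : ℝ => (r / ρ) ^ n) (n / r * (r / ρ) ^ n) r := by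
  have h1 := ((hasDerivAt_id r).div_const ρ).pow n
  refine h1.congr_deriv ?_
  rcases n with _ | n
  · simp
  · rw [Nat.add_sub_cancel, pow_succ]
    simp only [id]
    field_simp

/-- **DR-BES.** -/
theorem proof_BES : S_BES := by
  intro P hP hbd
  obtain ⟨C, hC⟩ := hbd
  have hρ0 : 0 < P.ρ := by linarith [hP.rho]
  have hρ : P.ρ ≠ 0 := hρ0.ne'
  have ha : ∀ i, |P.a i| ≤ C := fun i => (hC i).1
  obtain ⟨C', hC'⟩ : ∃ C', C' = |BB P 0| + C := ⟨_, rfl⟩
  have hC0 : 0 ≤ C := (abs_nonneg _).trans (ha 0)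
  have hB : ∀ i, |BB P i| ≤ C' := by
    intro i
    rcases i with _ | i
    · rw [hC']
      linarith
    · have h1 := (hC i).2
      have h2 := abs_nonneg (BB P 0)
      change |P.b i| ≤ C'
      rw [hC']
      linarith
  have rB : ∀ i : ℕ, BB P (i + 2) = 2 * (i + 1) / P.ρ * BB P (i + 1) - BB P i := by
    intro i
    rcases i with _ | i
    · change P.b 1 = 2 * ((0 : ℕ) + 1) / P.ρ * P.b 0 - (2 / P.ρ * P.b 0 - P.b 1)
      push_cast
      ring
    · change P.b (i + 2) = 2 * ((i + 1 : ℕ) + 1) / P.ρ * P.b (i + 1) - P.b i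
      rw [hP.rb i]
      push_cast
      ring
  have rA : ∀ i : ℕ, P.a (i + 2) = 2 * (i + ((P.n : ℝ) + 1)) / P.ρ * P.a (i + 1) - P.a i := by
    intro i
    rw [hP.ra i]
    ring
  obtain ⟨ε, hε⟩ : ∃ ε : ℝ → ℝ, ε = fun r => (P.ρ ^ 2 - r ^ 2) / (2 * P.ρ) := ⟨_, rfl⟩
  have hεr : ∀ r, 2 / P.ρ * ε r = 1 - r ^ 2 / P.ρ ^ 2 := by
    intro r
    rw [hε]
    field_simp
  have hε0 : ε P.ρ = 0 := by
    rw [hε]
    simp
  have hB1 : ∀ i, |BB P (i + 1)| ≤ C' := fun i => hB (i + 1)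
  have hA1 : ∀ i, |P.a (i + 1)| ≤ C := fun i => ha (i + 1)
  -- the first function
  have eg0 : g0 P = fun r => bes_G (BB P) (ε r) := by
    rw [hε]
    rfl
  have d0 : ∀ r, HasDerivAt (g0 P) (bes_G (fun i => BB P (i + 1)) (ε r) * (-(r / P.ρ))) r := by
    intro r
    rw [eg0, hε]
    exact bes_comp hB P.ρ r hρ
  have dd0 : deriv (g0 P) = fun r => bes_G (fun i => BB P (i + 1)) (ε r) * (-(r / P.ρ)) :=
    funext fun r => (d0 r).deriv
  have d1 : ∀ r, HasDerivAt (deriv (g0 P))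
      (bes_G (fun i => BB P (i + 2)) (ε r) * (-(r / P.ρ)) * (-(r / P.ρ)) +
        bes_G (fun i => BB P (i + 1)) (ε r) * (-(1 / P.ρ))) r := by
    intro r
    rw [dd0, hε]
    exact (bes_comp hB1 P.ρ r hρ).mul ((hasDerivAt_id r).div_const P.ρ).neg
  -- the second function
  have egn : gn P = fun r => (r / P.ρ) ^ P.n * bes_G P.a (ε r) := by
    rw [hε]
    rfl
  have e0 : ∀ r : ℝ, r ≠ 0 → HasDerivAt (gn P) (P.n / r * (r / P.ρ) ^ P.n * bes_G P.a (ε r) +
      (r / P.ρ) ^ P.n * (bes_G (fun i => P.a (i + 1)) (ε r) * (-(r / P.ρ)))) r := by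
    intro r hr
    rw [egn, hε]
    exact (bes_pow P.n P.ρ r hρ hr).mul (bes_comp ha P.ρ r hρ)
  have ee0 : ∀ r : ℝ, 0 < r → deriv (gn P) =ᶠ[𝓝 r] fun r =>
      P.n / r * (r / P.ρ) ^ P.n * bes_G P.a (ε r) +
      (r / P.ρ) ^ P.n * (bes_G (fun i => P.a (i + 1)) (ε r) * (-(r / P.ρ))) := by
    intro r hr
    filter_upwards [lt_mem_nhds hr] with s hs
    exact (e0 s hs.ne').deriv
  have e1 : ∀ r : ℝ, 0 < r → HasDerivAt (deriv (gn P))
      (((-(P.n / r ^ 2) * (r / P.ρ) ^ P.n + P.n / r * (P.n / r * (r / P.ρ) ^ P.n)) *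
          bes_G P.a (ε r) + P.n / r * (r / P.ρ) ^ P.n *
          (bes_G (fun i => P.a (i + 1)) (ε r) * (-(r / P.ρ)))) +
        (P.n / r * (r / P.ρ) ^ P.n * (bes_G (fun i => P.a (i + 1)) (ε r) * (-(r / P.ρ))) +
          (r / P.ρ) ^ P.n * (bes_G (fun i => P.a (i + 2)) (ε r) * (-(r / P.ρ)) * (-(r / P.ρ)) +
            bes_G (fun i => P.a (i + 1)) (ε r) * (-(1 / P.ρ))))) r := by
    intro r hr
    refine HasDerivAt.congr_of_eventuallyEq ?_ (ee0 r hr)
    have k1 : HasDerivAt (fun r : ℝ => (P.n : ℝ) / r) (-(P.n / r ^ 2)) r := by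
      have := (hasDerivAt_inv hr.ne').const_mul (P.n : ℝ)
      refine (this.congr_deriv ?_).congr_of_eventuallyEq ?_
      · ring
      · exact Filter.Eventually.of_forall fun s => by
          show (P.n : ℝ) / s = P.n * s⁻¹
          rw [div_eq_mul_inv]
    have k2 := bes_pow P.n P.ρ r hρ hr.ne'
    have k3 := bes_comp ha P.ρ r hρ
    have k4 := bes_comp hA1 P.ρ r hρ
    have k5 : HasDerivAt (fun r : ℝ => -(r / P.ρ)) (-(1 / P.ρ)) r :=
      ((hasDerivAt_id r).div_const P.ρ).neg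
    rw [hε]
    exact ((k1.mul k2).mul k3).add (k2.mul (k4.mul k5))
  refine ⟨fun r hr => ⟨(d0 r).differentiableAt, (d1 r).differentiableAt, ?_,
    (e0 r hr.ne').differentiableAt, (e1 r hr).differentiableAt, ?_⟩, ?_, ?_, ?_, ?_⟩
  · rw [(d1 r).deriv, (d0 r).deriv, eg0]
    have hrel := bes_rel (β := 1) hB rB (ε r)
    have h1 := hεr r
    have hr' := hr.ne'
    have h2 : bes_G (fun i => BB P (i + 2)) (ε r) * (r ^ 2 / P.ρ ^ 2) =
        2 / P.ρ * bes_G (fun i => BB P (i + 1)) (ε r) - bes_G (BB P) (ε r) := by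
      linear_combination hrel + bes_G (fun i => BB P (i + 2)) (ε r) * h1
    have h3 : bes_G (fun i => BB P (i + 2)) (ε r) * (-(r / P.ρ)) * (-(r / P.ρ)) =
        bes_G (fun i => BB P (i + 2)) (ε r) * (r ^ 2 / P.ρ ^ 2) := by
      ring
    rw [h3, h2]
    field_simp
    ring
  · rw [(e1 r hr).deriv, (e0 r hr.ne').deriv, egn]
    have hrel := bes_rel (β := (P.n : ℝ) + 1) ha rA (ε r)
    have h1 := hεr r
    have hr' := hr.ne'
    have h2 : bes_G (fun i => P.a (i + 2)) (ε r) * (r ^ 2 / P.ρ ^ 2) =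
        2 / P.ρ * (((P.n : ℝ) + 1) * bes_G (fun i => P.a (i + 1)) (ε r)) - bes_G P.a (ε r) := by
      linear_combination hrel + bes_G (fun i => P.a (i + 2)) (ε r) * h1
    have h3 : bes_G (fun i => P.a (i + 2)) (ε r) * (-(r / P.ρ)) * (-(r / P.ρ)) =
        bes_G (fun i => P.a (i + 2)) (ε r) * (r ^ 2 / P.ρ ^ 2) := by
      ring
    rw [h3, h2]
    beta_reduce
    generalize (r / P.ρ) ^ P.n = y
    generalize bes_G (fun i => P.a (i + 1)) (ε r) = A1
    generalize bes_G P.a (ε r) = A0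
    field_simp
    ring
  · rw [eg0]
    simp only [hε0, bes_zero]
  · rw [(d0 P.ρ).deriv, hε0, bes_zero, div_self hρ]
    change P.b 0 * -1 = -P.b 0
    ring
  · rw [egn]
    simp only [hε0, bes_zero, div_self hρ, one_pow, one_mul]
  · rw [(e0 P.ρ hρ).deriv, hε0, bes_zero, bes_zero, div_self hρ, one_pow, hP.a1, Par.nu]
    ring

end Pool.Agent.N742.DR
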