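import Pool.Agent.N742.DR.Stm

/-!
Project DR (helper742), problem MP_d92c84_an: assembly of the solution in the plane `ℂ`.
Authors: helper163, helper742.
-/

set_option autoImplicit false

open Set Filter Topology

namespace Pool.Agent.N742.DR

open Pool.Agent.N229.SC

private lemma cc_diff (P : Par) (X : ℝ) (p : ℕ → ℂ → ℂ) (K : Set ℂ) (hP : PH P X p K) (i : ℕ) :
    DifferentiableOn ℂ (PF P X p i) (Metric.ball 0 (RP P)) := by
  have h1 : DifferentiableOn ℂ (fun x : ℂ => ((BB P i : ℝ) : ℂ) +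
      ((X * P.a i : ℝ) : ℂ) * (x / P.ρ) ^ P.n) (Metric.ball 0 (RP P)) := by
    apply Differentiable.differentiableOn
    fun_prop
  exact h1.add (hP.p_diff i)

private lemma cc_bd (P : Par) (X : ℝ) (p : ℕ → ℂ → ℂ) (K : Set ℂ) (hP : PH P X p K) :
    ∃ C, ∀ i, ∀ x ∈ Metric.ball (0 : ℂ) (RP P), ‖PF P X p i x‖ ≤ C := by
  obtain ⟨C, hC⟩ := hP.bd
  have hC0 : 0 ≤ C := (abs_nonneg _).trans (hC 0).1
  have hρ : (0 : ℝ) < P.ρ := lt_of_lt_of_le (by norm_num) hP.good.rho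
  have hBB : ∀ i, |BB P i| ≤ |BB P 0| + C := by
    intro i
    cases i with
    | zero => linarith
    | succ i =>
      have h1 : |BB P (i + 1)| ≤ C := (hC i).2
      have h2 := abs_nonneg (BB P 0)
      linarith
  refine ⟨(|BB P 0| + C) + X * C * (RP P / P.ρ) ^ P.n + 23 * X ^ 2, fun i x hx => ?_⟩
  unfold PF
  refine (norm_add_le _ _).trans (add_le_add ((norm_add_le _ _).trans (add_le_add ?_ ?_))
    (hP.p_bd i x hx))
  · rw [Complex.norm_real, Real.norm_eq_abs]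
    exact hBB i
  · rw [norm_mul, Complex.norm_real, Real.norm_eq_abs, abs_mul, abs_of_pos hP.X_pos, norm_pow,
      norm_div, Complex.norm_real, Real.norm_of_nonneg hρ.le]
    have h1 : ‖x‖ / P.ρ ≤ RP P / P.ρ :=
      div_le_div_of_nonneg_right (mem_ball_zero_iff.1 hx).le hρ.le
    exact mul_le_mul (mul_le_mul_of_nonneg_left (hC i).1 hP.X_pos.le)
      (pow_le_pow_left₀ (by positivity) h1 _) (by positivity)
      (mul_nonneg hP.X_pos.le hC0)

private lemma cc_root {n : ℕ} (hn : 2 ≤ n) : ∃ ω : Circle, ω ≠ 1 ∧ (ω : ℂ) ^ n = 1 := by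
  have h := Complex.isPrimitiveRoot_exp n (by omega)
  have h1 : ‖Complex.exp (2 * Real.pi * Complex.I / n)‖ = 1 :=
    Complex.norm_eq_one_of_pow_eq_one h.pow_eq_one (by omega)
  refine ⟨⟨Complex.exp (2 * Real.pi * Complex.I / n), mem_sphere_zero_iff_norm.2 h1⟩, ?_,
    h.pow_eq_one⟩
  intro h2
  exact h.ne_one (by omega) (congrArg Subtype.val h2)

private lemma cc_sym (P : Par) (X : ℝ) (p : ℕ → ℂ → ℂ) (K : Set ℂ) (hP : PH P X p K) (ω : Circle)
    (hω : (ω : ℂ) ^ P.n = 1) (x : ℂ) (hx : x ∈ Metric.ball (0 : ℂ) (RP P)) :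
    UU P.ρ id (PF P X p) ((ω : ℂ) * x) = UU P.ρ id (PF P X p) x := by
  have hn : ‖(ω : ℂ) * x‖ = ‖x‖ := by
    rw [norm_mul, Circle.norm_coe, one_mul]
  have he : eF P.ρ id ((ω : ℂ) * x) = eF P.ρ id x := by
    unfold eF
    rw [id, id, hn]
  have hQ : ∀ i, PF P X p i ((ω : ℂ) * x) = PF P X p i x := by
    intro i
    unfold PF
    rw [hP.p_sym i x hx ω hω, mul_div_assoc, mul_pow, hω, one_mul]
  unfold UU
  rw [he]
  unfold PP
  simp only [hQ]

theorem proof_CC (hPHE : S_PHE) (hPDE2 : S_PDE2) (hMON : S_MON) (hCUR : S_CUR) (hNCI : S_NCI)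
    (hNC : S_NC) : S_CC := by
  obtain ⟨P, X, p, K, hP⟩ := hPHE
  have hρ4 : (10000 : ℝ) ≤ P.ρ := hP.good.rho
  have hρ : (0 : ℝ) < P.ρ := lt_of_lt_of_le (by norm_num) hρ4
  have hRP : (0 : ℝ) < RP P := by unfold RP; linarith
  have hn : 2 ≤ P.n := by
    have h1 := hP.good.nu1
    unfold Par.nu at h1
    rw [le_div_iff₀ hρ] at h1
    have h2 : (2 : ℝ) ≤ P.n := by linarith
    exact_mod_cast h2
  obtain ⟨hu, hS, hx⟩ := hPDE2 P.ρ (RP P) (PF P X p) hρ hRP (cc_diff P X p K hP)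
    (cc_bd P X p K hP) hP.rel
  have hsub : Metric.closedBall (0 : ℂ) (P.ρ + 13 / 8) ⊆ Metric.ball 0 (RP P) := by
    refine Metric.closedBall_subset_ball ?_
    unfold RP
    linarith
  have hr1 : (0 : ℝ) < P.ρ + 3 / 2 := by linarith
  obtain ⟨R, -, hR, hRu, D, hDo, hDc, hD1, hD2, hDf, hκc, hκi⟩ :=
    hCUR (UU P.ρ id (PF P X p)) (P.ρ + 3 / 2) (P.ρ + 13 / 8) hr1 (by linarith)
      (hu.continuousOn.mono hsub) (hMON P X p K hP)
  obtain ⟨ω, hω1, hωn⟩ := cc_root hn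
  obtain ⟨k, hkc, hki, hkK⟩ := hP.K_curve
  refine ⟨Metric.ball 0 (RP P), D, K, UU P.ρ id (PF P X p), SS P.ρ id (PF P X p),
    fun w : Circle => (R w : ℂ) * (w : ℂ), k, Metric.isOpen_ball, hu, hS, hx, hDo, hDc,
    Metric.isBounded_ball.subset hD2, ?_, hκc, hκi, hDf, ?_, ?_, hkc, hki, hkK.symm, ?_, hP.crit, ?_⟩
  · exact (closure_minimal (hD2.trans Metric.ball_subset_closedBall) Metric.isClosed_closedBall).trans
      hsub
  · exact hNC (UU P.ρ id (PF P X p)) (P.ρ + 3 / 2) (P.ρ + 13 / 8) R ω hr1 hω1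
      (fun x hx => cc_sym P X p K hP ω hωn x (hsub hx)) hR hRu (hNCI P X p K hP)
  · rintro x ⟨w, rfl⟩
    exact (hR w).2.2
  · exact (hP.K_sub.trans (Metric.ball_subset_ball (by linarith))).trans hD1
  · have h1 := (hMON P X p K hP 1 norm_one).2.1
    rw [mul_one] at h1
    have hmem : ((P.ρ + 3 / 2 : ℝ) : ℂ) ∈ Metric.ball (0 : ℂ) (RP P) := by
      rw [mem_ball_zero_iff, Complex.norm_real, Real.norm_of_nonneg hr1.le]
      unfold RP
      linarith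
    have h2 : ContinuousAt (UU P.ρ id (PF P X p)) ((P.ρ + 3 / 2 : ℝ) : ℂ) :=
      hu.continuousOn.continuousAt (Metric.isOpen_ball.mem_nhds hmem)
    have h3 : ContinuousAt (fun t : ℝ => UU P.ρ id (PF P X p) (t : ℂ)) (P.ρ + 3 / 2) :=
      ContinuousAt.comp (f := fun t : ℝ => (t : ℂ)) h2 Complex.continuous_ofReal.continuousAt
    have h4 : ∀ᶠ t : ℝ in 𝓝 (P.ρ + 3 / 2), 0 < UU P.ρ id (PF P X p) (t : ℂ) := 
      h3.eventually (lt_mem_nhds h1)
    have h5 : ∀ᶠ t : ℝ in 𝓝[<] (P.ρ + 3 / 2), 0 < UU P.ρ id (PF P X p) (t : ℂ) ∧ t < P.ρ + 3 / 2 ∧ 0 < t := by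
      filter_upwards [h4.filter_mono nhdsWithin_le_nhds, self_mem_nhdsWithin,
        (lt_mem_nhds hr1 : ∀ᶠ t in 𝓝 (P.ρ + 3 / 2), 0 < t).filter_mono nhdsWithin_le_nhds] with t a b c
      exact ⟨a, b, c⟩
    obtain ⟨t, ht1, ht2, ht3⟩ := h5.exists
    refine ⟨(t : ℂ), hD1 ?_, ht1.ne'⟩
    rw [mem_ball_zero_iff, Complex.norm_real, Real.norm_of_nonneg ht3.le]
    exact ht2

end Pool.Agent.N742.DR
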