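import Pool.Agent.N742.DR.Stm

/-!
Project DR (helper742), problem MP_d92c84_an: part CF5 (helper747), the conformal map on the large
disc. Compare Pool/Agent/N229/SC/FN1.lean (helper765).
-/

set_option autoImplicit false

open Set Filter Topology

namespace Pool.Agent.N742.DR

open Pool.Agent.N229.SC

private theorem cf5_r5_pow (P : Par) (hn : P.n ≠ 0) : r5 P ^ P.n = 5 :=
  Real.rpow_inv_natCast_pow (by norm_num) hn

private theorem cf5_lt (P : Par) (hn : P.n ≠ 0) {z : ℂ} (hz : z ∈ Metric.ball (0 : ℂ) (r5 P)) :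
    z ^ P.n ∈ Metric.ball (0 : ℂ) 5 := by
  rw [mem_ball_zero_iff] at hz ⊢
  rw [norm_pow, ← cf5_r5_pow P hn]
  exact pow_lt_pow_left₀ hz (norm_nonneg z) hn

private theorem cf5_deriv (P : Par) (hn : P.n ≠ 0) (h : W)
    (e1 : DifferentiableOn ℂ (evh (Phi P h)) (Metric.ball 0 5))
    (e2 : ∀ t ∈ Metric.ball (0 : ℂ) 5, evh (der (Phi P h)) t = t * deriv (evh (Phi P h)) t) {z : ℂ}
    (hz : z ∈ Metric.ball (0 : ℂ) (r5 P)) :
    HasDerivAt (fF P h) (P.ρ * Complex.exp (evh (Phi P h) (z ^ P.n) / P.n) *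
      (1 + evh (beta P h) (z ^ P.n))) z := by
  have h1' := cf5_lt P hn hz
  have h2 : HasDerivAt (evh (Phi P h)) (deriv (evh (Phi P h)) (z ^ P.n)) (z ^ P.n) :=
    (e1.differentiableAt (Metric.isOpen_ball.mem_nhds h1')).hasDerivAt
  have h3 : HasDerivAt (fun w : ℂ => evh (Phi P h) (w ^ P.n))
      (deriv (evh (Phi P h)) (z ^ P.n) * ((P.n : ℂ) * z ^ (P.n - 1))) z :=
    HasDerivAt.comp (h₂ := evh (Phi P h)) (h := fun w : ℂ => w ^ P.n) z h2 (hasDerivAt_pow P.n z)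
  have h4 := (h3.div_const (P.n : ℂ)).cexp
  have h5 : HasDerivAt (fF P h) _ z := ((hasDerivAt_id z).const_mul (P.ρ : ℂ)).mul h4
  have h6 := e2 (z ^ P.n) h1'
  have hn' : (P.n : ℂ) ≠ 0 := by exact_mod_cast hn
  refine h5.congr_deriv ?_
  simp only [id_eq]
  unfold beta
  rw [h6]
  have h7 : z * z ^ (P.n - 1) = z ^ P.n := by
    rw [← pow_succ']
    congr 1
    omega
  rw [← h7]
  field_simp

/-- Part CF5: the conformal map on the large disc. -/
theorem proof_CF5 (hA1 : S_A1) (hA2 : S_A2) (hAB : S_AB) (hWG : S_WG) (hSB1 : S_SB1)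
    (hEV5 : S_EV5) : S_CF5 := by
  intro P X h v y hB
  have hF := hB.full
  have hG := hF.good
  have hX0 := hF.X_pos
  have hX1 := hF.X_le
  have hρ : 0 < P.ρ := lt_of_lt_of_le (by norm_num) hG.rho
  obtain ⟨-, -, -, -, -, -, hn⟩ := hAB P hG
  have hn0 : P.n ≠ 0 := by
    rintro h0
    rw [h0] at hn
    norm_num at hn
  have hnp : (0 : ℝ) < P.n := by linarith
  obtain ⟨b1, b2, -, -, -, -⟩ := hSB1 P X h hG hX0 hX1 hB.d5.bh
  obtain ⟨-, -, -, -, hle⟩ := hWG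
  obtain ⟨E1, E2, -⟩ := hEV5
  obtain ⟨c1, c2⟩ := E1 wW w5 (Phi P h) _ hle b1
  obtain ⟨-, c3⟩ := E1 wA u5 (beta P h) _ (fun _ => le_rfl) b2
  have c4 := E2 (Phi P h) _ b1
  have hder := fun (z : ℂ) (hz : z ∈ Metric.ball (0 : ℂ) (r5 P)) => cf5_deriv P hn0 h c1 c4 hz
  have hPhi : ∀ t ∈ Metric.ball (0 : ℂ) 5, ‖evh (Phi P h) t‖ ≤ 1722 / 10 ^ 6 := by
    intro t ht
    refine (c2 t ht).trans ?_
    linarith
  have hbeta : ∀ t ∈ Metric.ball (0 : ℂ) 5, ‖evh (beta P h) t‖ ≤ 138 / 10 ^ 4 := by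
    intro t ht
    refine (c3 t ht).trans ?_
    linarith
  have hdiv : ∀ t ∈ Metric.ball (0 : ℂ) 5, ‖evh (Phi P h) t / (P.n : ℂ)‖ ≤
      1722 / 10 ^ 6 / P.n := by
    intro t ht
    rw [norm_div, Complex.norm_natCast]
    exact div_le_div_of_nonneg_right (hPhi t ht) hnp.le
  have hsm : 1722 / 10 ^ 6 / (P.n : ℝ) ≤ 5 / 10 ^ 4 := by
    rw [div_le_iff₀ hnp]
    linarith
  refine ⟨⟨hρ, ?_, ?_, ?_, ?_⟩, ?_, ?_⟩
  · -- the radius
    unfold r5
    exact Real.one_lt_rpow (by norm_num) (by positivity)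
  · intro z hz
    exact (hder z hz).differentiableAt.differentiableWithinAt
  · simp [fF]
  · intro z hz
    rw [(hder z hz).deriv]
    have h1 := cf5_lt P hn0 hz
    have h2 := hbeta _ h1
    have h3 := (hdiv _ h1).trans hsm
    obtain ⟨b, hb⟩ : ∃ b, b = evh (beta P h) (z ^ P.n) := ⟨_, rfl⟩
    obtain ⟨u, hu⟩ : ∃ u, u = evh (Phi P h) (z ^ P.n) / (P.n : ℂ) := ⟨_, rfl⟩
    rw [← hb] at h2
    rw [← hu] at h3
    rw [← hb, ← hu]
    have hexp : ‖Complex.exp u - 1‖ ≤ 2 * ‖u‖ := by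
      refine Complex.norm_exp_sub_one_le ?_
      linarith
    have h4 : (P.ρ : ℂ) * Complex.exp u * (1 + b) - P.ρ =
        P.ρ * ((Complex.exp u - 1) * (1 + b) + b) := by ring
    rw [h4, norm_mul, Complex.norm_real, Real.norm_eq_abs, abs_of_pos hρ]
    have h5 : ‖(Complex.exp u - 1) * (1 + b) + b‖ ≤ 1 / 10 := by
      refine (norm_add_le _ _).trans ?_
      rw [norm_mul]
      have h6 : ‖1 + b‖ ≤ 1 + 138 / 10 ^ 4 := by
        refine (norm_add_le _ _).trans ?_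
        rw [norm_one]
        linarith
      have h7 : ‖Complex.exp u - 1‖ * ‖1 + b‖ ≤ (10 / 10 ^ 4) * (1 + 138 / 10 ^ 4) :=
        mul_le_mul (by linarith) h6 (norm_nonneg _) (by norm_num)
      have h8 : (10 / 10 ^ 4 : ℝ) * (1 + 138 / 10 ^ 4) + 138 / 10 ^ 4 ≤ 1 / 10 := by norm_num
      linarith
    calc P.ρ * ‖(Complex.exp u - 1) * (1 + b) + b‖ ≤ P.ρ * (1 / 10) := by gcongr
      _ = P.ρ / 10 := by ring
  · -- the modulus
    intro z hz
    have h1 := cf5_lt P hn0 hz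
    obtain ⟨u, hu⟩ : ∃ u, u = evh (Phi P h) (z ^ P.n) / (P.n : ℂ) := ⟨_, rfl⟩
    have h3 := hdiv _ h1
    rw [← hu] at h3
    have hre : |u.re| ≤ 1722 / 10 ^ 6 / P.n := (Complex.abs_re_le_norm u).trans h3
    have hnorm : ‖fF P h z‖ = P.ρ * ‖z‖ * Real.exp u.re := by
      unfold fF
      rw [← hu, norm_mul, norm_mul, Complex.norm_real, Real.norm_eq_abs, abs_of_pos hρ,
        Complex.norm_exp]
    have hz0 : 0 ≤ P.ρ * ‖z‖ := mul_nonneg hρ.le (norm_nonneg z)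
    have hi : 1722 / 10 ^ 6 / (P.n : ℝ) ≤ 2 / (1000 * P.n) := by
      rw [div_le_div_iff₀ hnp (by positivity)]
      nlinarith
    have hs : (1722 / 10 ^ 6 / (P.n : ℝ)) + (1722 / 10 ^ 6 / (P.n : ℝ)) ^ 2 ≤
        2 / (1000 * P.n) := by
      have h4 : (1722 / 10 ^ 6 / (P.n : ℝ)) ^ 2 ≤ 5 / 10 ^ 4 * (1722 / 10 ^ 6 / (P.n : ℝ)) := by
        rw [sq]
        exact mul_le_mul_of_nonneg_right hsm (by positivity)
      have h5 : (1722 / 10 ^ 6 / (P.n : ℝ)) * (1 + 5 / 10 ^ 4) ≤ 2 / (1000 * P.n) := by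
        rw [div_mul_eq_mul_div, div_le_div_iff₀ hnp (by positivity)]
        nlinarith
      linarith
    refine ⟨h1, ?_, ?_⟩
    · rw [hnorm]
      refine mul_le_mul_of_nonneg_left ?_ hz0
      have h4 := Real.add_one_le_exp u.re
      have h5 := (abs_le.1 hre).1
      linarith
    · rw [hnorm]
      refine mul_le_mul_of_nonneg_left ?_ hz0
      have h4 := Real.abs_exp_sub_one_sub_id_le (x := u.re)
        (hre.trans (hsm.trans (by norm_num)))
      have h5 := (abs_le.1 h4).2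
      have h6 := (abs_le.1 hre).2
      have h7 : u.re ^ 2 ≤ (1722 / 10 ^ 6 / (P.n : ℝ)) ^ 2 := by
        rw [← sq_abs u.re]
        exact pow_le_pow_left₀ (abs_nonneg _) hre 2
      linarith
  · -- the symmetry
    intro z _ om hom
    unfold fF
    rw [mul_pow, hom, one_mul]
    ring

end Pool.Agent.N742.DR
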