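import Pool.Agent.N742.DR.Stm

/-!
DR/CUR: the nodal curve as a radial graph and its interior (helper31 for the project DR of helper742).
-/

set_option autoImplicit false

open Set Filter Topology MeasureTheory

namespace Pool.Agent.N742.DR

open Pool.Agent.N229.SC

/-- The direction of a complex number. -/
noncomputable def curDir (x : ℂ) : Circle :=
  if h : x = 0 then 1 else ⟨x / (‖x‖ : ℂ), mem_sphere_zero_iff_norm.2 <| by
    rw [norm_div, Complex.norm_real, norm_norm, div_self (norm_ne_zero_iff.2 h)]⟩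

private lemma cur_dir_coe {x : ℂ} (hx : x ≠ 0) : (curDir x : ℂ) = x / (‖x‖ : ℂ) := by
  unfold curDir
  rw [dif_neg hx]

private lemma cur_dir_eq (x : ℂ) : ((‖x‖ : ℝ) : ℂ) * (curDir x : ℂ) = x := by
  by_cases hx : x = 0
  · rw [hx, norm_zero, Complex.ofReal_zero, zero_mul]
  · have : (‖x‖ : ℂ) ≠ 0 := by
      rw [Complex.ofReal_ne_zero]; exact norm_ne_zero_iff.2 hx
    rw [cur_dir_coe hx]
    field_simp

private lemma cur_norm {t : ℝ} (ht : 0 ≤ t) (w : Circle) : ‖(t : ℂ) * (w : ℂ)‖ = t := by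
  rw [norm_mul, Circle.norm_coe, mul_one, Complex.norm_real, Real.norm_of_nonneg ht]

private lemma cur_dir_mul {t : ℝ} (ht : 0 < t) (w : Circle) : curDir ((t : ℂ) * (w : ℂ)) = w := by
  have h1 : (t : ℂ) ≠ 0 := Complex.ofReal_ne_zero.2 ht.ne'
  have h2 : (t : ℂ) * (w : ℂ) ≠ 0 := mul_ne_zero h1 (Circle.coe_ne_zero w)
  apply Circle.ext
  rw [cur_dir_coe h2, cur_norm ht.le w]
  field_simp

private lemma cur_dir_cont : ContinuousOn curDir {0}ᶜ := by
  have h1 : Topology.IsInducing (fun w : Circle => (w : ℂ)) := Topology.IsInducing.subtypeVal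
  rw [h1.continuousOn_iff]
  have h2 : ContinuousOn (fun x : ℂ => x / (‖x‖ : ℂ)) {0}ᶜ :=
    continuousOn_id.div (Complex.continuous_ofReal.comp continuous_norm).continuousOn
      (fun x hx => Complex.ofReal_ne_zero.2 (norm_ne_zero_iff.2 hx))
  exact h2.congr fun x hx => cur_dir_coe hx

theorem proof_CUR : S_CUR := by
  intro u r₁ r₂ hr1 hr12 hu hw
  have hw' : ∀ w : Circle, StrictAntiOn (fun t : ℝ => u ((t : ℂ) * (w : ℂ))) (Icc r₁ r₂) ∧
      0 < u ((r₁ : ℂ) * (w : ℂ)) ∧ u ((r₂ : ℂ) * (w : ℂ)) < 0 := fun w => hw w (Circle.norm_coe w)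
  have hmem : ∀ (w : Circle) (t : ℝ), r₁ ≤ t → t ≤ r₂ →
      (t : ℂ) * (w : ℂ) ∈ Metric.closedBall (0 : ℂ) r₂ := by
    intro w t ht1 ht2
    rw [mem_closedBall_zero_iff, cur_norm (hr1.le.trans ht1)]
    exact ht2
  -- existence
  have hex : ∀ w : Circle, ∃ t : ℝ, r₁ < t ∧ t < r₂ ∧ u ((t : ℂ) * (w : ℂ)) = 0 := by
    intro w
    have hc : ContinuousOn (fun t : ℝ => u ((t : ℂ) * (w : ℂ))) (Icc r₁ r₂) :=
      hu.comp (Complex.continuous_ofReal.mul continuous_const).continuousOn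
        fun t ht => hmem w t ht.1 ht.2
    have h0 : (0 : ℝ) ∈ Icc (u ((r₂ : ℂ) * (w : ℂ))) (u ((r₁ : ℂ) * (w : ℂ))) :=
      ⟨(hw' w).2.2.le, (hw' w).2.1.le⟩
    obtain ⟨t, ht, ht0⟩ := intermediate_value_Icc' hr12.le hc h0
    have ht0' : u ((t : ℂ) * (w : ℂ)) = 0 := ht0
    refine ⟨t, lt_of_le_of_ne ht.1 ?_, lt_of_le_of_ne ht.2 ?_, ht0'⟩
    · rintro rfl
      exact (hw' w).2.1.ne' ht0'
    · rintro rfl
      exact (hw' w).2.2.ne ht0'
  choose R hR1 hR2 hR0 using hex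
  have hpos : ∀ w, 0 < R w := fun w => hr1.trans (hR1 w)
  -- sign
  have hlt : ∀ (w : Circle) (t : ℝ), r₁ ≤ t → t ≤ r₂ → 0 < u ((t : ℂ) * (w : ℂ)) → t < R w := by
    intro w t ht1 ht2 h
    by_contra hc
    push Not at hc
    have : u ((t : ℂ) * (w : ℂ)) ≤ u ((R w : ℂ) * (w : ℂ)) :=
      (hw' w).1.antitoneOn ⟨(hR1 w).le, (hR2 w).le⟩ ⟨ht1, ht2⟩ hc
    rw [hR0 w] at this
    linarith
  have hgt : ∀ (w : Circle) (t : ℝ), r₁ ≤ t → t ≤ r₂ → u ((t : ℂ) * (w : ℂ)) < 0 → R w < t := by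
    intro w t ht1 ht2 h
    by_contra hc
    push Not at hc
    have : u ((R w : ℂ) * (w : ℂ)) ≤ u ((t : ℂ) * (w : ℂ)) :=
      (hw' w).1.antitoneOn ⟨ht1, ht2⟩ ⟨(hR1 w).le, (hR2 w).le⟩ hc
    rw [hR0 w] at this
    linarith
  have huniq : ∀ (w : Circle) (t : ℝ), r₁ ≤ t → t ≤ r₂ → u (t * (w : ℂ)) = 0 → t = R w := by
    intro w t ht1 ht2 h
    refine (hw' w).1.injOn ⟨ht1, ht2⟩ ⟨(hR1 w).le, (hR2 w).le⟩ ?_
    show u ((t : ℂ) * (w : ℂ)) = u ((R w : ℂ) * (w : ℂ))
    rw [h, hR0 w]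
  -- continuity
  have hcw : ∀ t : ℝ, r₁ ≤ t → t ≤ r₂ → Continuous (fun w : Circle => u ((t : ℂ) * (w : ℂ))) := by
    intro t ht1 ht2
    exact hu.comp_continuous (continuous_const.mul continuous_subtype_val) fun w => hmem w t ht1 ht2
  have hRc : Continuous R := by
    rw [continuous_iff_continuousAt]
    intro w0
    refine tendsto_order.2 ⟨fun a ha => ?_, fun a ha => ?_⟩
    · by_cases ha1 : a < r₁
      · exact Eventually.of_forall fun w => ha1.trans (hR1 w)
      · push Not at ha1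
        have ha2 : a ≤ r₂ := (ha.trans (hR2 w0)).le
        have h1 : 0 < u ((a : ℂ) * (w0 : ℂ)) := by
          have : u ((R w0 : ℂ) * (w0 : ℂ)) < u ((a : ℂ) * (w0 : ℂ)) :=
            (hw' w0).1 ⟨ha1, ha2⟩ ⟨(hR1 w0).le, (hR2 w0).le⟩ ha
          rw [hR0 w0] at this
          exact this
        have h2 : ∀ᶠ w : Circle in 𝓝 w0, 0 < u ((a : ℂ) * (w : ℂ)) :=
          (hcw a ha1 ha2).continuousAt.eventually (lt_mem_nhds h1)
        filter_upwards [h2] with w hw2
        exact hlt w a ha1 ha2 hw2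
    · by_cases ha2 : r₂ < a
      · exact Eventually.of_forall fun w => (hR2 w).trans ha2
      · push Not at ha2
        have ha1 : r₁ ≤ a := ((hR1 w0).trans ha).le
        have h1 : u ((a : ℂ) * (w0 : ℂ)) < 0 := by
          have : u ((a : ℂ) * (w0 : ℂ)) < u ((R w0 : ℂ) * (w0 : ℂ)) :=
            (hw' w0).1 ⟨(hR1 w0).le, (hR2 w0).le⟩ ⟨ha1, ha2⟩ ha
          rw [hR0 w0] at this
          exact this
        have h2 : ∀ᶠ w : Circle in 𝓝 w0, u ((a : ℂ) * (w : ℂ)) < 0 :=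
          (hcw a ha1 ha2).continuousAt.eventually (gt_mem_nhds h1)
        filter_upwards [h2] with w hw2
        exact hgt w a ha1 ha2 hw2
  have hRd : ContinuousOn (fun x : ℂ => R (curDir x) - ‖x‖) {0}ᶜ :=
    (hRc.comp_continuousOn cur_dir_cont).sub continuous_norm.continuousOn
  have h0open : IsOpen ({0}ᶜ : Set ℂ) := isOpen_compl_singleton
  have hkc : Continuous (fun w : Circle => (R w : ℂ) * (w : ℂ)) :=
    (Complex.continuous_ofReal.comp hRc).mul continuous_subtype_val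
  have hD : IsOpen {x : ℂ | ‖x‖ < R (curDir x)} := by
    have e : {x : ℂ | ‖x‖ < R (curDir x)} = Metric.ball 0 r₁ ∪
        ({0}ᶜ ∩ (fun x : ℂ => R (curDir x) - ‖x‖) ⁻¹' Ioi 0) := by
      ext x
      simp only [mem_ofPred_eq, mem_union, mem_ball_zero_iff, mem_inter_iff, mem_compl_iff,
        mem_singleton_iff, mem_preimage, mem_Ioi, sub_pos]
      constructor
      · intro h
        by_cases hx : x = 0
        · left; rw [hx, norm_zero]; exact hr1
        · right; exact ⟨hx, h⟩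
      · rintro (h | h)
        · exact h.trans (hR1 _)
        · exact h.2
    rw [e]
    exact Metric.isOpen_ball.union (hRd.isOpen_inter_preimage h0open isOpen_Ioi)
  have hC : IsClosed {x : ℂ | ‖x‖ ≤ R (curDir x)} := by
    rw [← isOpen_compl_iff]
    have e : {x : ℂ | ‖x‖ ≤ R (curDir x)}ᶜ =
        {0}ᶜ ∩ (fun x : ℂ => R (curDir x) - ‖x‖) ⁻¹' Iio 0 := by
      ext x
      simp only [mem_ofPred_eq, mem_inter_iff, mem_compl_iff, mem_singleton_iff, mem_preimage,
        mem_Iio, sub_neg, not_le]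
      constructor
      · intro h
        refine ⟨?_, h⟩
        rintro rfl
        rw [norm_zero] at h
        exact absurd (hpos (curDir 0)) (not_lt.2 h.le)
      · exact fun h => h.2
    rw [e]
    exact hRd.isOpen_inter_preimage h0open isOpen_Iio
  refine ⟨R, hRc, fun w => ⟨hR1 w, hR2 w, hR0 w⟩, huniq, {x : ℂ | ‖x‖ < R (curDir x)}, hD, ?_, ?_, ?_,
    ?_, hkc, ?_⟩
  · -- connected
    have h0 : (0 : ℂ) ∈ {x : ℂ | ‖x‖ < R (curDir x)} := by
      show ‖(0 : ℂ)‖ < _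
      rw [norm_zero]; exact hpos _
    have hs : StarConvex ℝ 0 {x : ℂ | ‖x‖ < R (curDir x)} := by
      rw [starConvex_zero_iff]
      intro x hx a ha0 ha1
      rcases ha0.eq_or_lt with ha | ha
      · rw [← ha, zero_smul]; exact h0
      · rcases (norm_nonneg x).eq_or_lt with hx0 | hx0
        · have : x = 0 := norm_eq_zero.1 hx0.symm
          rw [this, smul_zero]; exact h0
        · have e1 : a • x = ((a * ‖x‖ : ℝ) : ℂ) * (curDir x : ℂ) := by
            conv_lhs => rw [← cur_dir_eq x]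
            rw [Complex.real_smul]; push_cast; ring
          show ‖a • x‖ < R (curDir (a • x))
          rw [e1, cur_dir_mul (mul_pos ha hx0), cur_norm (mul_pos ha hx0).le]
          exact lt_of_le_of_lt (mul_le_of_le_one_left hx0.le ha1) hx
    exact (hs.isPathConnected h0).isConnected
  · intro x hx
    rw [mem_ball_zero_iff] at hx
    exact hx.trans (hR1 _)
  · intro x hx
    rw [mem_ball_zero_iff]
    exact lt_trans hx (hR2 _)
  · rw [hD.frontier_eq]
    apply Subset.antisymm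
    · rintro x ⟨hx1, hx2⟩
      have h1 : ‖x‖ ≤ R (curDir x) :=
        closure_minimal (fun y (hy : ‖y‖ < R (curDir y)) => (le_of_lt hy : ‖y‖ ≤ R (curDir y))) hC hx1
      have h2 : R (curDir x) ≤ ‖x‖ := not_lt.1 hx2
      refine ⟨curDir x, ?_⟩
      show (R (curDir x) : ℂ) * (curDir x : ℂ) = x
      rw [le_antisymm h2 h1]
      exact cur_dir_eq x
    · rintro x ⟨w, rfl⟩
      refine ⟨?_, ?_⟩
      · have ht : Tendsto (fun t : ℝ => (t : ℂ) * (w : ℂ)) (𝓝[<] (R w)) (𝓝 ((R w : ℂ) * (w : ℂ))) :=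
          ((Complex.continuous_ofReal.mul continuous_const).tendsto (R w)).mono_left
            nhdsWithin_le_nhds
        refine mem_closure_of_tendsto ht ?_
        filter_upwards [Ioo_mem_nhdsLT (hpos w)] with t ht
        show ‖(t : ℂ) * (w : ℂ)‖ < R (curDir ((t : ℂ) * (w : ℂ)))
        rw [cur_norm ht.1.le, cur_dir_mul ht.1]
        exact ht.2
      · show ¬ (‖(R w : ℂ) * (w : ℂ)‖ < R (curDir ((R w : ℂ) * (w : ℂ))))
        rw [cur_norm (hpos w).le, cur_dir_mul (hpos w)]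
        exact lt_irrefl _
  · intro w w' h
    have h' : (R w : ℂ) * (w : ℂ) = (R w' : ℂ) * (w' : ℂ) := h
    rw [← cur_dir_mul (hpos w) w, h', cur_dir_mul (hpos w') w']

end Pool.Agent.N742.DR
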