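import Pool.Agent.N742.DR.Stm

/-!
Project DR (helper742): decomposition of `u` on a ray.
-/

set_option autoImplicit false

open Set Filter Topology MeasureTheory

namespace Pool.Agent.N742.DR

open Pool.Agent.N229.SC

private lemma dec_summ (e C : ℝ) (q : ℕ → ℂ) (hq : ∀ i, ‖q i‖ ≤ C) :
    Summable fun i : ℕ => ((e : ℂ) ^ i / (i.factorial : ℂ)) * q i := by
  have h := (Real.summable_pow_div_factorial |e|).mul_right C
  refine Summable.of_norm_bounded h fun i => ?_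
  rw [norm_mul, norm_div, norm_pow, Complex.norm_real, Real.norm_eq_abs, Complex.norm_natCast]
  exact mul_le_mul_of_nonneg_left (hq i) (by positivity)

theorem proof_DEC : S_DEC := by
  intro P X p K hP r w hr hrR hw
  have hx : ‖(r : ℂ) * w‖ = r := by
    rw [norm_mul, hw, mul_one, Complex.norm_real, Real.norm_of_nonneg hr.le]
  obtain ⟨x, hxd⟩ : ∃ x : ℂ, x = r * w := ⟨_, rfl⟩
  rw [← hxd] at hx ⊢
  have hxb : x ∈ Metric.ball (0 : ℂ) (RP P) := by
    rw [mem_ball_zero_iff, hx]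
    exact hrR
  have he : eF P.ρ id x = (P.ρ ^ 2 - r ^ 2) / (2 * P.ρ) := by
    unfold eF
    rw [id, hx]
  obtain ⟨e, hed⟩ : ∃ e : ℝ, e = (P.ρ ^ 2 - r ^ 2) / (2 * P.ρ) := ⟨_, rfl⟩
  rw [← hed] at he
  obtain ⟨C, hC⟩ := hP.bd
  have hC0 : 0 ≤ C := (abs_nonneg _).trans (hC 0).1
  -- the three series
  have s1 : Summable fun i : ℕ => ((e : ℂ) ^ i / (i.factorial : ℂ)) * ((BB P i : ℝ) : ℂ) := by
    refine dec_summ e (|BB P 0| + C) _ fun i => ?_
    rw [Complex.norm_real, Real.norm_eq_abs]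
    cases i with
    | zero => linarith
    | succ i =>
      have h1 : |BB P (i + 1)| ≤ C := (hC i).2
      have h2 := abs_nonneg (BB P 0)
      linarith
  have s2 : Summable fun i : ℕ => ((e : ℂ) ^ i / (i.factorial : ℂ)) * ((P.a i : ℝ) : ℂ) := by
    refine dec_summ e C _ fun i => ?_
    rw [Complex.norm_real, Real.norm_eq_abs]
    exact (hC i).1
  have s3 : Summable fun i : ℕ => ((e : ℂ) ^ i / (i.factorial : ℂ)) * p i x :=
    dec_summ e (23 * X ^ 2) _ fun i => hP.p_bd i x hxb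
  have s2' : Summable fun i : ℕ => ((e : ℂ) ^ i / (i.factorial : ℂ)) * ((P.a i : ℝ) : ℂ) *
      ((X : ℂ) * (x / P.ρ) ^ P.n) := s2.mul_right _
  have h1 : PP (PF P X p) e x = ∑' i : ℕ, ((e : ℂ) ^ i / (i.factorial : ℂ)) * ((BB P i : ℝ) : ℂ) +
      (∑' i : ℕ, ((e : ℂ) ^ i / (i.factorial : ℂ)) * ((P.a i : ℝ) : ℂ)) *
        ((X : ℂ) * (x / P.ρ) ^ P.n) + PP p e x := by
    unfold PP
    rw [← tsum_mul_right, ← s1.tsum_add s2', ← (s1.add s2').tsum_add s3]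
    refine tsum_congr fun i => ?_
    unfold PF
    push_cast
    ring
  have h2 : (∑' i : ℕ, ((e : ℂ) ^ i / (i.factorial : ℂ)) * ((BB P i : ℝ) : ℂ)) =
      ((g0 P r : ℝ) : ℂ) := by
    unfold g0
    rw [Complex.ofReal_tsum, ← hed]
    refine tsum_congr fun i => ?_
    push_cast
    rfl
  obtain ⟨G, hG⟩ : ∃ G : ℝ, G = ∑' i : ℕ, e ^ i / (i.factorial : ℝ) * P.a i := ⟨_, rfl⟩
  have h3 : (∑' i : ℕ, ((e : ℂ) ^ i / (i.factorial : ℂ)) * ((P.a i : ℝ) : ℂ)) = ((G : ℝ) : ℂ) := by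
    rw [hG, Complex.ofReal_tsum]
    refine tsum_congr fun i => ?_
    push_cast
    rfl
  have h4 : gn P r = (r / P.ρ) ^ P.n * G := by
    unfold gn
    rw [hG, ← hed]
  have h5 : (x / P.ρ) ^ P.n = (((r / P.ρ) ^ P.n : ℝ) : ℂ) * w ^ P.n := by
    rw [hxd]
    push_cast
    rw [← mul_pow]
    congr 1
    ring
  show (PP (PF P X p) (eF P.ρ id x) x).re = g0 P r + X * gn P r * (w ^ P.n).re +
    (PP p (eF P.ρ id x) x).re
  rw [he, h1, h2, h3, h4, h5, Complex.add_re, Complex.add_re, Complex.ofReal_re]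
  congr 2
  have h6 : ((G : ℝ) : ℂ) * ((X : ℂ) * ((((r / P.ρ) ^ P.n : ℝ) : ℂ) * w ^ P.n)) =
      ((X * ((r / P.ρ) ^ P.n * G) : ℝ) : ℂ) * w ^ P.n := by
    push_cast
    ring
  rw [h6, Complex.re_ofReal_mul]

end Pool.Agent.N742.DR
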