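import Pool.Agent.N742.DR.Stm

/-!
# Project DR, part EV5: evaluation of power series in the disc of radius 5 (helper614)

After `Pool.Agent.N229.SC.EH`.
-/

set_option autoImplicit false

open Set Filter Topology MeasureTheory

namespace Pool.Agent.N742.DR

open Pool.Agent.N229.SC

private theorem ev5_sum_le {w ω : ℤ → ℝ} (c : Al w) (M : ℝ) (h0 : ∀ j, 0 ≤ ω j)
    (h : Bd ω c M) (u : Finset ℕ) :
    ∑ k ∈ u, |cf c (k : ℤ)| * ω (k : ℤ) ≤ M := by
  refine le_trans (le_of_eq ?_) (h (u.map Nat.castEmbedding))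
  rw [Finset.sum_map]
  rfl

private theorem ev5_summable {w ω : ℤ → ℝ} (c : Al w) (M : ℝ) (h0 : ∀ j, 0 ≤ ω j)
    (h : Bd ω c M) : Summable fun k : ℕ => |cf c (k : ℤ)| * ω (k : ℤ) :=
  summable_of_sum_le (fun _ => mul_nonneg (abs_nonneg _) (h0 _)) (ev5_sum_le c M h0 h)

private theorem ev5_tsum_le {w ω : ℤ → ℝ} (c : Al w) (M : ℝ) (h0 : ∀ j, 0 ≤ ω j)
    (h : Bd ω c M) : ∑' k : ℕ, |cf c (k : ℤ)| * ω (k : ℤ) ≤ M :=
  (ev5_summable c M h0 h).tsum_le_of_sum_le (ev5_sum_le c M h0 h)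

private theorem ev5_u5 (j : ℤ) : 0 ≤ u5 j := by
  unfold u5
  positivity

private theorem ev5_w5 (j : ℤ) : 0 ≤ w5 j := by
  unfold w5
  positivity

private theorem ev5_uw (j : ℤ) : u5 j ≤ w5 j := by
  unfold u5 w5
  have h1 : (0 : ℝ) ≤ (j.natAbs : ℝ) / 8 := by positivity
  have h2 : (0 : ℝ) ≤ 5 ^ j.natAbs := by positivity
  nlinarith [mul_nonneg h1 h2]

private theorem ev5_mono {w ω ω' : ℤ → ℝ} (c : Al w) (M : ℝ) (hw : ∀ j, ω' j ≤ ω j)
    (h : Bd ω c M) : Bd ω' c M := fun F =>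
  (Finset.sum_le_sum fun j _ => mul_le_mul_of_nonneg_left (hw j) (abs_nonneg _)).trans (h F)

private theorem ev5_norm_le {w : ℤ → ℝ} (a : Al w) (z : ℂ) (hz : ‖z‖ ≤ 5) (k : ℕ) :
    ‖(cf a (k : ℤ) : ℂ) * z ^ k‖ ≤ |cf a (k : ℤ)| * u5 (k : ℤ) := by
  rw [norm_mul, norm_pow, Complex.norm_real, Real.norm_eq_abs]
  refine mul_le_mul_of_nonneg_left ?_ (abs_nonneg _)
  rw [u5, Int.natAbs_natCast]
  exact pow_le_pow_left₀ (norm_nonneg _) hz k

private theorem ev5_der (hA2 : S_A2) (a : W) (M : ℝ) (ha : Bd w5 a M) (z : ℂ) (hz : ‖z‖ < 5) :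
    evh (der a) z = z * deriv (evh a) z := by
  obtain ⟨-, -, -, ⟨hd, -⟩, -⟩ := hA2
  have hs : Summable (fun k : ℕ => 8 * (|cf a (k : ℤ)| * w5 (k : ℤ))) :=
    (ev5_summable a M ev5_w5 ha).mul_left 8
  have hD : HasDerivAt (fun z : ℂ => ∑' k : ℕ, (cf a (k : ℤ) : ℂ) * z ^ k)
      (∑' k : ℕ, (cf a (k : ℤ) : ℂ) * ((k : ℂ) * z ^ (k - 1))) z := by
    refine hasDerivAt_tsum_of_isPreconnected (t := Metric.ball (0 : ℂ) 5)
      (g := fun (k : ℕ) (z : ℂ) => (cf a (k : ℤ) : ℂ) * z ^ k)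
      (g' := fun (k : ℕ) (z : ℂ) => (cf a (k : ℤ) : ℂ) * ((k : ℂ) * z ^ (k - 1)))
      (y₀ := 0) hs Metric.isOpen_ball
      (convex_ball _ _).isPreconnected ?_ ?_ ?_ ?_ ?_
    · intro k y _
      exact (hasDerivAt_pow k y).const_mul _
    · intro k y hy
      rw [Metric.mem_ball, dist_zero_right] at hy
      rw [norm_mul, norm_mul, norm_pow, Complex.norm_real, Real.norm_eq_abs, Complex.norm_natCast]
      have h1 : (k : ℝ) * ‖y‖ ^ (k - 1) ≤ 8 * w5 (k : ℤ) := by
        have h2 : ‖y‖ ^ (k - 1) ≤ 5 ^ k :=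
          (pow_le_pow_left₀ (norm_nonneg _) hy.le _).trans
            (pow_le_pow_right₀ (by norm_num) (Nat.sub_le _ _))
        have h3 : (0 : ℝ) ≤ k := Nat.cast_nonneg _
        have h4 : (0 : ℝ) < 5 ^ k := by positivity
        unfold w5
        rw [Int.natAbs_natCast]
        have h5 := mul_le_mul_of_nonneg_left h2 h3
        nlinarith
      have h6 := mul_le_mul_of_nonneg_left h1 (abs_nonneg (cf a (k : ℤ)))
      linarith
    · rw [Metric.mem_ball, dist_self]
      norm_num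
    · apply summable_of_ne_finset_zero (s := {0})
      intro k hk
      rw [Finset.mem_singleton] at hk
      show (cf a (k : ℤ) : ℂ) * 0 ^ k = 0
      rw [zero_pow hk, mul_zero]
    · rw [Metric.mem_ball, dist_zero_right]
      exact hz
  have hD' : deriv (evh a) z = ∑' k : ℕ, (cf a (k : ℤ) : ℂ) * ((k : ℂ) * z ^ (k - 1)) := hD.deriv
  rw [hD', ← tsum_mul_left]
  unfold evh
  apply tsum_congr
  intro k
  rw [hd]
  rcases Nat.eq_zero_or_pos k with h0 | h0
  · subst h0
    simp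
  · obtain ⟨l, rfl⟩ : ∃ l, k = l + 1 := ⟨k - 1, by omega⟩
    rw [Nat.add_sub_cancel]
    push_cast
    ring

theorem proof_EV5 (hA1 : S_A1) (hA2 : S_A2) : S_EV5 := by
  refine ⟨?_, ?_, ?_⟩
  · intro w ω _ c M hω hc
    have hc' : Bd u5 c M := ev5_mono c M hω hc
    have hs := ev5_summable c M ev5_u5 hc'
    refine ⟨?_, ?_⟩
    · refine Complex.differentiableOn_tsum_of_summable_norm hs ?_ Metric.isOpen_ball ?_
      · intro k
        exact (differentiable_pow k).differentiableOn.const_mul _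
      · intro k z hz
        rw [Metric.mem_ball, dist_zero_right] at hz
        exact ev5_norm_le c z hz.le k
    · intro z hz
      rw [Metric.mem_ball, dist_zero_right] at hz
      have hsn : Summable (fun k : ℕ => ‖(cf c (k : ℤ) : ℂ) * z ^ k‖) :=
        Summable.of_nonneg_of_le (fun _ => norm_nonneg _) (ev5_norm_le c z hz.le) hs
      unfold evh
      refine (norm_tsum_le_tsum_norm hsn).trans ?_
      refine le_trans ?_ (ev5_tsum_le c M ev5_u5 hc')
      exact hsn.tsum_le_tsum (ev5_norm_le c z hz.le) hs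
  · intro a M ha t ht
    rw [Metric.mem_ball, dist_zero_right] at ht
    exact ev5_der hA2 a M ha t ht
  · intro a M m ha hm
    have hc' : Bd u5 a M := ev5_mono a M ev5_uw ha
    have hs := ev5_summable a M ev5_u5 hc'
    have hs' : Summable fun k : ℕ => |cf a ((k + m : ℕ) : ℤ)| * u5 ((k + m : ℕ) : ℤ) :=
      (summable_nat_add_iff m).2 hs
    refine ⟨fun t => ∑' k : ℕ, (cf a ((k + m : ℕ) : ℤ) : ℂ) * t ^ k, ?_, ?_⟩
    · refine Complex.differentiableOn_tsum_of_summable_norm hs' ?_ Metric.isOpen_ball ?_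
      · intro k
        exact (differentiable_pow k).differentiableOn.const_mul _
      · intro k z hz
        rw [Metric.mem_ball, dist_zero_right] at hz
        rw [norm_mul, norm_pow, Complex.norm_real, Real.norm_eq_abs]
        refine mul_le_mul_of_nonneg_left ?_ (abs_nonneg _)
        rw [u5, Int.natAbs_natCast]
        exact (pow_le_pow_left₀ (norm_nonneg _) hz.le k).trans
          (pow_le_pow_right₀ (by norm_num) (Nat.le_add_right _ _))
    · intro t ht
      rw [Metric.mem_ball, dist_zero_right] at ht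
      have hsn : Summable (fun k : ℕ => (cf a (k : ℤ) : ℂ) * t ^ k) :=
        (Summable.of_nonneg_of_le (fun _ => norm_nonneg _) (ev5_norm_le a t ht.le) hs).of_norm
      unfold evh
      rw [← hsn.sum_add_tsum_nat_add m, Finset.sum_eq_zero, zero_add, ← tsum_mul_left]
      · apply tsum_congr
        intro k
        rw [pow_add]
        push_cast
        ring
      · intro k hk
        rw [Finset.mem_range] at hk
        rw [hm (k : ℤ) (by exact_mod_cast hk)]
        simp

end Pool.Agent.N742.DR
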