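import Pool.Agent.N742.DR.FinDef

/-!
Project DR (helper742), problem MP_d92c84_an: transfer of the final statement from `ℂ` to `ℝ × ℝ`
(helper624).
-/

set_option autoImplicit false

open Set

namespace Pool.Agent.N742.DR

open Pool.Agent.N229.SC

/-- The homeomorphism `ℂ → ℝ × ℝ`. -/
private noncomputable def Lh : ℂ ≃L[ℝ] ℝ × ℝ := Complex.equivRealProdCLM

private theorem Lh_apply (x : ℂ) : Lh x = (x.re, x.im) := rfl

private theorem Lh_symm (v : ℝ × ℝ) : Lh.symm v = (v.1 : ℂ) + v.2 * Complex.I := by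
  apply Lh.injective
  rw [ContinuousLinearEquiv.apply_symm_apply, Lh_apply]
  ext <;> simp

private theorem cos_deriv2 (c a t : ℝ) :
    deriv (deriv (fun s => a * Real.cos (c * s))) t = -(c ^ 2) * (a * Real.cos (c * t)) := by
  have h1 : ∀ s : ℝ, HasDerivAt (fun s => a * Real.cos (c * s)) (a * (-Real.sin (c * s) * c)) s := by
    intro s
    have h := (Real.hasDerivAt_cos (c * s)).comp s ((hasDerivAt_id s).const_mul c)
    simpa using h.const_mul a
  have h2 : deriv (fun s => a * Real.cos (c * s)) = fun s => a * (-Real.sin (c * s) * c) :=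
    funext fun s => (h1 s).deriv
  rw [h2]
  have h3 : HasDerivAt (fun s => a * (-Real.sin (c * s) * c)) (a * (-(Real.cos (c * t) * c) * c)) t := by
    have h := (Real.hasDerivAt_sin (c * t)).comp t ((hasDerivAt_id t).const_mul c)
    simpa using ((h.neg).mul_const c).const_mul a
  rw [h3.deriv]; ring

/-- lines -/
private theorem line_x (v : ℝ × ℝ) : HasDerivAt (fun x : ℝ => Lh.symm (x, v.2)) (1 : ℂ) v.1 := by
  have h : HasDerivAt (fun x : ℝ => ((x : ℂ) + v.2 * Complex.I)) 1 v.1 := by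
    simpa using (Complex.ofRealCLM.hasDerivAt (x := v.1)).add_const ((v.2 : ℂ) * Complex.I)
  simpa only [Lh_symm] using h

private theorem line_y (v : ℝ × ℝ) :
    HasDerivAt (fun y : ℝ => Lh.symm (v.1, y)) Complex.I v.2 := by
  have h : HasDerivAt (fun y : ℝ => ((v.1 : ℂ) + (y : ℂ) * Complex.I)) Complex.I v.2 := by
    simpa using ((Complex.ofRealCLM.hasDerivAt (x := v.2)).mul_const Complex.I).const_add (v.1 : ℂ)
  simpa only [Lh_symm] using h

theorem proof_FIN : S_FIN := by
  rintro ⟨O, D, K, u, S, κ, k, hO, hu, hS, hder, hD, hDc, hDb, hDO, hκ, hκi, hfr, hnc, hclamp,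
    hk, hki, hK, hKD, hSK, hnz⟩
  have hclosure : closure (Lh '' D) = Lh '' closure D :=
    (Lh.toHomeomorph.image_closure D).symm
  refine ⟨Lh '' range κ, Lh '' D, Lh '' K, ⟨fun w => Lh (κ w), Lh.continuous.comp hκ,
    Lh.injective.comp hκi, ?_⟩, ⟨?_, ?_, ?_, ?_⟩, ?_, ⟨fun w => Lh (k w), Lh.continuous.comp hk,
    Lh.injective.comp hki, ?_⟩, ?_, ?_⟩
  · rw [← range_comp]; rfl
  · exact Lh.toHomeomorph.isOpenMap D hD
  · exact hDc.image _ Lh.continuous.continuousOn
  · exact Lh.toContinuousLinearMap.lipschitz.isBounded_image hDb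
  · rw [← hfr]; exact (Lh.toHomeomorph.image_frontier D).symm
  · rintro ⟨a, b, s, hs, h⟩
    apply hnc (a + b * Complex.I) s
    ext x
    have h1 : x ∈ range κ ↔ Lh x ∈ Lh '' range κ := (Lh.injective.mem_set_image).symm
    rw [h1, h, Metric.mem_sphere, Complex.dist_eq, mem_ofPred_eq, Lh_apply]
    have h2 : ‖x - (a + b * Complex.I)‖ ^ 2 = (x.re - a) ^ 2 + (x.im - b) ^ 2 := by
      rw [← Complex.normSq_eq_norm_sq, Complex.normSq_apply]
      simp; ring
    constructor
    · intro h3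
      have h4 : ‖x - (a + b * Complex.I)‖ ^ 2 = s ^ 2 := by rw [h2]; exact h3
      exact (pow_left_inj₀ (norm_nonneg _) hs.le two_ne_zero).1 h4
    · intro h3
      show (x.re - a) ^ 2 + (x.im - b) ^ 2 = s ^ 2
      rw [← h2, h3]
  · rw [hK, ← range_comp]; rfl
  · rw [hclosure]
    exact image_mono (hKD.trans subset_closure)
  intro c hc
  refine ⟨fun x y t => u (Lh.symm (x, y)) * Real.cos (c * t),
    fun x y t => (S (Lh.symm (x, y))).re * Real.cos (c * t),
    fun x y t => -(S (Lh.symm (x, y))).im * Real.cos (c * t), ?_, ?_⟩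
  swap
  · rintro v ⟨x, hx, rfl⟩ t
    have : Lh.symm ((Lh x).1, (Lh x).2) = x := Lh.symm_apply_apply x
    simp only [this, hSK x hx]
    simp
  have hmemD : ∀ v ∈ Lh '' D, Lh.symm v ∈ D := by
    rintro v ⟨x, hx, rfl⟩; rwa [Lh.symm_apply_apply]
  have hmemO : ∀ v ∈ closure (Lh '' D), Lh.symm v ∈ O := by
    rw [hclosure]
    rintro v ⟨x, hx, rfl⟩; rw [Lh.symm_apply_apply]; exact hDO hx
  have hopen : IsOpen (Lh '' D) := Lh.toHomeomorph.isOpenMap D hD
  have hux : ∀ v ∈ Lh '' D, HasDerivAt (fun x : ℝ => u (Lh.symm (x, v.2))) (S (Lh.symm v)).re v.1 := by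
    intro v hv
    have h1 := (hder _ (hmemO v (subset_closure hv))).1
    have h2 : HasDerivAt (fun x : ℝ => u (Lh.symm (x, v.2))) _ v.1 :=
      h1.comp_hasDerivAt v.1 (line_x v)
    exact h2.congr_deriv (by simp)
  have huy : ∀ v ∈ Lh '' D, HasDerivAt (fun y : ℝ => u (Lh.symm (v.1, y))) (-(S (Lh.symm v)).im) v.2 := by
    intro v hv
    have h1 := (hder _ (hmemO v (subset_closure hv))).1
    have h2 : HasDerivAt (fun y : ℝ => u (Lh.symm (v.1, y))) _ v.2 :=
      h1.comp_hasDerivAt v.2 (line_y v)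
    exact h2.congr_deriv (by simp)
  have hSd : ∀ v ∈ Lh '' D, HasFDerivAt S (fderiv ℝ S (Lh.symm v)) (Lh.symm v) := by
    intro v hv
    have hO' : O ∈ nhds (Lh.symm v) := hO.mem_nhds (hmemO v (subset_closure hv))
    exact ((hS.contDiffAt hO').differentiableAt (by norm_num)).hasFDerivAt
  have hSx : ∀ v ∈ Lh '' D, HasDerivAt (fun x : ℝ => (S (Lh.symm (x, v.2))).re)
      (fderiv ℝ S (Lh.symm v) 1).re v.1 := by
    intro v hv
    have h3 : HasDerivAt (fun x : ℝ => S (Lh.symm (x, v.2))) _ v.1 :=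
      (hSd v hv).comp_hasDerivAt v.1 (line_x v)
    have h2 : HasDerivAt (fun x : ℝ => (S (Lh.symm (x, v.2))).re) _ v.1 :=
      Complex.reCLM.hasFDerivAt.comp_hasDerivAt v.1 h3
    exact h2.congr_deriv (by simp)
  have hSy : ∀ v ∈ Lh '' D, HasDerivAt (fun y : ℝ => -(S (Lh.symm (v.1, y))).im)
      (-(fderiv ℝ S (Lh.symm v) Complex.I).im) v.2 := by
    intro v hv
    have h3 : HasDerivAt (fun y : ℝ => S (Lh.symm (v.1, y))) _ v.2 :=
      (hSd v hv).comp_hasDerivAt v.2 (line_y v)
    have h2 : HasDerivAt (fun y : ℝ => (S (Lh.symm (v.1, y))).im) _ v.2 :=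
      Complex.imCLM.hasFDerivAt.comp_hasDerivAt v.2 h3
    exact h2.neg.congr_deriv (by simp)
  refine ⟨?_, ?_, ?_, ?_, ?_, ?_, ?_, ?_, ?_⟩
  · -- smooth
    have h1 : ContDiffOn ℝ 2 (fun v : (ℝ × ℝ) × ℝ => u (Lh.symm v.1)) ((Lh '' D) ×ˢ univ) := by
      refine hu.comp (s := (Lh '' D) ×ˢ univ) (f := fun v : (ℝ × ℝ) × ℝ => Lh.symm v.1)
        ((Lh.symm.contDiff.comp contDiff_fst).contDiffOn) ?_
      intro v hv
      exact hmemO _ (subset_closure hv.1)
    have h2 : ContDiff ℝ 2 (fun v : (ℝ × ℝ) × ℝ => Real.cos (c * v.2)) :=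
      Real.contDiff_cos.comp (contDiff_const.mul contDiff_snd)
    exact h1.mul h2.contDiffOn
  · have h1 : ContinuousOn (fun v : (ℝ × ℝ) × ℝ => u (Lh.symm v.1)) (closure (Lh '' D) ×ˢ univ) :=
      hu.continuousOn.comp (Lh.symm.continuous.comp continuous_fst).continuousOn
        (fun v hv => hmemO _ hv.1)
    have h2 : Continuous (fun v : (ℝ × ℝ) × ℝ => Real.cos (c * v.2)) := by fun_prop
    exact h1.mul h2.continuousOn
  · have h1 : ContinuousOn (fun v : (ℝ × ℝ) × ℝ => (S (Lh.symm v.1)).re)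
        (closure (Lh '' D) ×ˢ univ) :=
      Complex.continuous_re.comp_continuousOn
        (hS.continuousOn.comp (Lh.symm.continuous.comp continuous_fst).continuousOn
        (fun v hv => hmemO _ hv.1))
    have h2 : Continuous (fun v : (ℝ × ℝ) × ℝ => Real.cos (c * v.2)) := by fun_prop
    exact h1.mul h2.continuousOn
  · intro v hv t
    exact (hux v hv).mul_const _
  · have h1 : ContinuousOn (fun v : (ℝ × ℝ) × ℝ => -(S (Lh.symm v.1)).im)
        (closure (Lh '' D) ×ˢ univ) :=
      (Complex.continuous_im.comp_continuousOn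
        (hS.continuousOn.comp (Lh.symm.continuous.comp continuous_fst).continuousOn
        (fun v hv => hmemO _ hv.1))).neg
    have h2 : Continuous (fun v : (ℝ × ℝ) × ℝ => Real.cos (c * v.2)) := by fun_prop
    exact h1.mul h2.continuousOn
  · intro v hv t
    exact (huy v hv).mul_const _
  · intro v hv t
    have e1 : deriv (deriv (fun s => u (Lh.symm (v.1, v.2)) * Real.cos (c * s))) t =
        -(c ^ 2) * (u (Lh.symm v) * Real.cos (c * t)) := cos_deriv2 c _ t
    have e2 : deriv (deriv (fun x => u (Lh.symm (x, v.2)) * Real.cos (c * t))) v.1 =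
        (fderiv ℝ S (Lh.symm v) 1).re * Real.cos (c * t) := by
      have h1 : ∀ᶠ x in nhds v.1, deriv (fun x => u (Lh.symm (x, v.2)) * Real.cos (c * t)) x =
          (S (Lh.symm (x, v.2))).re * Real.cos (c * t) := by
        have hc1 : ContinuousAt (fun x : ℝ => (x, v.2)) v.1 := by fun_prop
        have hm : ∀ᶠ x in nhds v.1, (x, v.2) ∈ Lh '' D :=
          hc1.eventually_mem (hopen.mem_nhds (by simpa using hv))
        filter_upwards [hm] with x hx
        exact ((hux (x, v.2) hx).mul_const _).deriv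
      rw [Filter.EventuallyEq.deriv_eq h1]
      exact ((hSx v hv).mul_const _).deriv
    have e3 : deriv (deriv (fun y => u (Lh.symm (v.1, y)) * Real.cos (c * t))) v.2 =
        -(fderiv ℝ S (Lh.symm v) Complex.I).im * Real.cos (c * t) := by
      have h1 : ∀ᶠ y in nhds v.2, deriv (fun y => u (Lh.symm (v.1, y)) * Real.cos (c * t)) y =
          -(S (Lh.symm (v.1, y))).im * Real.cos (c * t) := by
        have hc1 : ContinuousAt (fun y : ℝ => (v.1, y)) v.2 := by fun_prop
        have hm : ∀ᶠ y in nhds v.2, (v.1, y) ∈ Lh '' D :=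
          hc1.eventually_mem (hopen.mem_nhds (by simpa using hv))
        filter_upwards [hm] with y hy
        exact ((huy (v.1, y) hy).mul_const _).deriv
      rw [Filter.EventuallyEq.deriv_eq h1]
      exact ((hSy v hv).mul_const _).deriv
    have e4 := (hder _ (hmemO v (subset_closure hv))).2
    show deriv (deriv (fun s => u (Lh.symm (v.1, v.2)) * Real.cos (c * s))) t = c ^ 2 *
      (deriv (deriv (fun x => u (Lh.symm (x, v.2)) * Real.cos (c * t))) v.1 +
        deriv (deriv (fun y => u (Lh.symm (v.1, y)) * Real.cos (c * t))) v.2)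
    rw [e1, e2, e3, ← add_mul, ← sub_eq_add_neg, e4]
    ring
  · rintro v ⟨x, hx, rfl⟩ t
    have : Lh.symm ((Lh x).1, (Lh x).2) = x := Lh.symm_apply_apply x
    simp only [this, hclamp x hx, zero_mul]
  · obtain ⟨x, hx, hux0⟩ := hnz
    refine ⟨Lh x, ⟨x, hx, rfl⟩, 0, ?_⟩
    have : Lh.symm ((Lh x).1, (Lh x).2) = x := Lh.symm_apply_apply x
    simp only [this, mul_zero, Real.cos_zero, mul_one]
    exact hux0

end Pool.Agent.N742.DR
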