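import Pool.Agent.N742.DR.Stm

/-!
Project DR (helper742), problem MP_d92c84_an: the final statement in the plane `ℝ × ℝ`.
-/

set_option autoImplicit false

open Set

namespace Pool.Agent.N742.DR

/-- A simple closed curve in the plane: the image of the unit circle under an injective
continuous map. -/
def SimpleClosedCurve (γ : Set (ℝ × ℝ)) : Prop :=
  ∃ κ : Circle → ℝ × ℝ, Continuous κ ∧ Function.Injective κ ∧ range κ = γ

/-- `D` is the bounded open region enclosed by the simple closed curve `R` (`D` is a bounded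
connected open set whose boundary is `R`, i.e. the bounded component of the complement of `R`). -/
def Encloses (R D : Set (ℝ × ℝ)) : Prop :=
  IsOpen D ∧ IsConnected D ∧ Bornology.IsBounded D ∧ frontier D = R

/-- `R` is a circle. -/
def IsCircle (R : Set (ℝ × ℝ)) : Prop :=
  ∃ a b s : ℝ, 0 < s ∧ R = {v | (v.1 - a) ^ 2 + (v.2 - b) ^ 2 = s ^ 2}

/-- `z (x, y, t)` is a drum solution on `R` (with enclosed region `D` and wave speed `c`), and
`zx`, `zy` are the continuous extensions of its spatial derivatives to `closure D × ℝ`. -/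
structure DrumSolution (c : ℝ) (R D : Set (ℝ × ℝ)) (z zx zy : ℝ → ℝ → ℝ → ℝ) : Prop where
  /-- `z` is twice continuously differentiable in `D × ℝ` -/
  smooth : ContDiffOn ℝ 2 (fun v : (ℝ × ℝ) × ℝ => z v.1.1 v.1.2 v.2) (D ×ˢ univ)
  /-- `z` is continuous on `closure D × ℝ` -/
  cont : ContinuousOn (fun v : (ℝ × ℝ) × ℝ => z v.1.1 v.1.2 v.2) (closure D ×ˢ univ)
  /-- `zx` is the continuous extension of `∂z/∂x` -/
  cont_x : ContinuousOn (fun v : (ℝ × ℝ) × ℝ => zx v.1.1 v.1.2 v.2) (closure D ×ˢ univ)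
  deriv_x : ∀ v ∈ D, ∀ t : ℝ, HasDerivAt (fun x => z x v.2 t) (zx v.1 v.2 t) v.1
  /-- `zy` is the continuous extension of `∂z/∂y` -/
  cont_y : ContinuousOn (fun v : (ℝ × ℝ) × ℝ => zy v.1.1 v.1.2 v.2) (closure D ×ˢ univ)
  deriv_y : ∀ v ∈ D, ∀ t : ℝ, HasDerivAt (fun y => z v.1 y t) (zy v.1 v.2 t) v.2
  /-- the wave equation -/
  wave : ∀ v ∈ D, ∀ t : ℝ,
    deriv (deriv (fun s => z v.1 v.2 s)) t =
      c ^ 2 * (deriv (deriv (fun x => z x v.2 t)) v.1 + deriv (deriv (fun y => z v.1 y t)) v.2)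
  /-- the membrane is clamped along `R` -/
  clamped : ∀ v ∈ R, ∀ t : ℝ, z v.1 v.2 t = 0
  /-- `z` is not identically zero -/
  nonzero : ∃ v ∈ D, ∃ t : ℝ, z v.1 v.2 t ≠ 0

/-- The negative answer: a simple closed curve `R` which is not a circle, a simple closed curve `γ`
in the closure of the region `D` enclosed by `R`, and for every wave speed `c > 0` a drum solution
on `R` whose spatial gradient vanishes along `γ` at all times. -/
def Answer : Prop :=
  ∃ R D γ : Set (ℝ × ℝ), SimpleClosedCurve R ∧ Encloses R D ∧ ¬ IsCircle R ∧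
    SimpleClosedCurve γ ∧ γ ⊆ closure D ∧
    ∀ c : ℝ, 0 < c → ∃ z zx zy : ℝ → ℝ → ℝ → ℝ, DrumSolution c R D z zx zy ∧
      ∀ v ∈ γ, ∀ t : ℝ, zx v.1 v.2 t = 0 ∧ zy v.1 v.2 t = 0

/-- DR-FIN: transfer from `ℂ` to `ℝ × ℝ`. -/
def S_FIN : Prop := S_CC → Answer

end Pool.Agent.N742.DR
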