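import Pool.Agent.N742.DR.Stm

/-!
Project DR (helper742), part G0 (helper395): the function `g_0` is close to the cosine.
-/

set_option autoImplicit false

open Set Filter Topology

namespace Pool.Agent.N742.DR

open Pool.Agent.N229.SC

/-- A solution of `g'' = -g - g' / r` on `[ρ, ρ + 19/10]` with `ρ ≥ 10000` is nearly a cosine. -/
private lemma g0_aux (g g' g'' : ℝ → ℝ) (ρ : ℝ) (hρ : 10000 ≤ ρ)
    (h1 : ∀ r : ℝ, 0 < r → HasDerivAt g (g' r) r)
    (h2 : ∀ r : ℝ, 0 < r → HasDerivAt g' (g'' r) r)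
    (h3 : ∀ r : ℝ, 0 < r → g'' r = -(g r) - g' r / r)
    (h4 : |g ρ - 1| ≤ 1 / 10 ^ 15) (h5 : |g' ρ| ≤ 1 / 10 ^ 15) (s : ℝ) (hs0 : 0 ≤ s)
    (hs1 : s ≤ 19 / 10) :
    |g (ρ + s) - Real.cos s| ≤ 1 / 1000 ∧ |g' (ρ + s) + Real.sin s| ≤ 1 / 1000 := by
  have hpos : ∀ r ∈ Icc ρ (ρ + 19 / 10), 0 < r := fun r hr => by linarith [hr.1]
  -- the energy
  have hE : ∀ r : ℝ, 0 < r → HasDerivAt (fun r => g r ^ 2 + g' r ^ 2) (-(2 * (g' r ^ 2 / r))) r := by
    intro r hr
    have h := ((h1 r hr).pow 2).add ((h2 r hr).pow 2)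
    refine h.congr_deriv ?_
    rw [h3 r hr]
    field_simp
    ring
  have hanti : AntitoneOn (fun r => g r ^ 2 + g' r ^ 2) (Icc ρ (ρ + 19 / 10)) := by
    refine antitoneOn_of_deriv_nonpos (convex_Icc _ _)
      (fun r hr => (hE r (hpos r hr)).continuousAt.continuousWithinAt)
      (fun r hr => (hE r (hpos r (interior_subset hr))).differentiableAt.differentiableWithinAt) ?_
    intro r hr
    have hr' := hpos r (interior_subset hr)
    rw [(hE r hr').deriv]
    have : 0 ≤ g' r ^ 2 / r := by positivity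
    linarith
  have hg' : ∀ r ∈ Icc ρ (ρ + 19 / 10), |g' r| ≤ 1001 / 1000 := by
    intro r hr
    have h := hanti (left_mem_Icc.mpr (by linarith)) hr hr.1
    simp only at h
    have h6 := abs_le.mp h4
    have h7 := abs_le.mp h5
    have h8 : g' r ^ 2 ≤ (1001 / 1000) ^ 2 := by
      have h9 : g ρ ^ 2 ≤ (1 + 1 / 10 ^ 15) ^ 2 := by
        apply sq_le_sq'
        · linarith [h6.1]
        · linarith [h6.2]
      have h10 : g' ρ ^ 2 ≤ (1 / 10 ^ 15) ^ 2 := by
        apply sq_le_sq'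
        · linarith [h7.1]
        · linarith [h7.2]
      have h11 : 0 ≤ g r ^ 2 := sq_nonneg _
      norm_num at h9 h10 ⊢
      linarith
    exact abs_le_of_sq_le_sq h8 (by norm_num)
  -- the two combinations
  have hsin : ∀ r : ℝ, HasDerivAt (fun r => Real.sin (r - ρ)) (Real.cos (r - ρ)) r := by
    intro r
    have h := ((hasDerivAt_id r).sub_const ρ).sin
    simpa using h
  have hcos : ∀ r : ℝ, HasDerivAt (fun r => Real.cos (r - ρ)) (-Real.sin (r - ρ)) r := by
    intro r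
    have h := ((hasDerivAt_id r).sub_const ρ).cos
    simpa using h
  have hp : ∀ r : ℝ, 0 < r →
      HasDerivAt (fun r => g r * Real.cos (r - ρ) - g' r * Real.sin (r - ρ))
        (g' r / r * Real.sin (r - ρ)) r := by
    intro r hr
    have h := ((h1 r hr).mul (hcos r)).sub ((h2 r hr).mul (hsin r))
    refine h.congr_deriv ?_
    rw [h3 r hr]
    ring
  have hq : ∀ r : ℝ, 0 < r →
      HasDerivAt (fun r => g r * Real.sin (r - ρ) + g' r * Real.cos (r - ρ))
        (-(g' r / r * Real.cos (r - ρ))) r := by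
    intro r hr
    have h := ((h1 r hr).mul (hsin r)).add ((h2 r hr).mul (hcos r))
    refine h.congr_deriv ?_
    rw [h3 r hr]
    ring
  have hbd : ∀ r ∈ Icc ρ (ρ + 19 / 10), |g' r / r| ≤ 1001 / 10 ^ 7 := by
    intro r hr
    have hr' := hpos r hr
    rw [abs_div, abs_of_pos hr', div_le_iff₀ hr']
    have h := hg' r hr
    have h6 : 10000 ≤ r := by linarith [hr.1]
    nlinarith
  have hmem : ρ + s ∈ Icc ρ (ρ + 19 / 10) := ⟨by linarith, by linarith⟩
  have hP := norm_image_sub_le_of_norm_deriv_le_segment' (C := 1001 / 10 ^ 7)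
    (fun r hr => (hp r (hpos r hr)).hasDerivWithinAt) (fun r hr => by
      rw [Real.norm_eq_abs, abs_mul]
      have h6 := hbd r (Ico_subset_Icc_self hr)
      have h7 := Real.abs_sin_le_one (r - ρ)
      have h8 := abs_nonneg (g' r / r)
      nlinarith [abs_nonneg (Real.sin (r - ρ))]) (ρ + s) hmem
  have hQ := norm_image_sub_le_of_norm_deriv_le_segment' (C := 1001 / 10 ^ 7)
    (fun r hr => (hq r (hpos r hr)).hasDerivWithinAt) (fun r hr => by
      rw [Real.norm_eq_abs, abs_neg, abs_mul]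
      have h6 := hbd r (Ico_subset_Icc_self hr)
      have h7 := Real.abs_cos_le_one (r - ρ)
      have h8 := abs_nonneg (g' r / r)
      nlinarith [abs_nonneg (Real.cos (r - ρ))]) (ρ + s) hmem
  simp only [add_sub_cancel_left, sub_self, Real.cos_zero, Real.sin_zero, mul_one, mul_zero,
    sub_zero, zero_add, Real.norm_eq_abs] at hP hQ
  set p := g (ρ + s) * Real.cos s - g' (ρ + s) * Real.sin s with hpdef
  set q := g (ρ + s) * Real.sin s + g' (ρ + s) * Real.cos s with hqdef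
  have hcs := Real.sin_sq_add_cos_sq s
  have e1 : g (ρ + s) = p * Real.cos s + q * Real.sin s := by
    rw [hpdef, hqdef]
    linear_combination (-(g (ρ + s))) * hcs
  have e2 : g' (ρ + s) = -(p * Real.sin s) + q * Real.cos s := by
    rw [hpdef, hqdef]
    linear_combination (-(g' (ρ + s))) * hcs
  have hp1 : |p - 1| ≤ 1 / 4000 := by
    have h6 := abs_le.mp hP
    have h7 := abs_le.mp h4
    rw [abs_le]
    constructor <;> norm_num at h6 h7 ⊢ <;> linarith [h6.1, h6.2, h7.1, h7.2]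
  have hq1 : |q| ≤ 1 / 4000 := by
    have h6 := abs_le.mp hQ
    have h7 := abs_le.mp h5
    rw [abs_le]
    constructor <;> norm_num at h6 h7 ⊢ <;> linarith [h6.1, h6.2, h7.1, h7.2]
  have hc1 := Real.abs_cos_le_one s
  have hs2 := Real.abs_sin_le_one s
  have hmul : ∀ x y : ℝ, |x| ≤ 1 / 4000 → |y| ≤ 1 → |x * y| ≤ 1 / 4000 := by
    intro x y hx hy
    rw [abs_mul]
    nlinarith [abs_nonneg x, abs_nonneg y]
  constructor
  · have h6 : g (ρ + s) - Real.cos s = (p - 1) * Real.cos s + q * Real.sin s := by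
      rw [e1]
      ring
    rw [h6]
    have h7 := abs_le.mp (hmul _ _ hp1 hc1)
    have h8 := abs_le.mp (hmul _ _ hq1 hs2)
    rw [abs_le]
    constructor <;> linarith [h7.1, h7.2, h8.1, h8.2]
  · have h6 : g' (ρ + s) + Real.sin s = -((p - 1) * Real.sin s) + q * Real.cos s := by
      rw [e2]
      ring
    rw [h6]
    have h7 := abs_le.mp (hmul _ _ hp1 hs2)
    have h8 := abs_le.mp (hmul _ _ hq1 hc1)
    rw [abs_le]
    constructor <;> linarith [h7.1, h7.2, h8.1, h8.2]

theorem proof_G0 (hBES : S_BES) : S_G0 := by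
  intro P hP hC s hs0 hs1
  obtain ⟨hb, h0, h0', -, -⟩ := hBES P hP hC
  have hρ := hP.rho
  refine g0_aux (g0 P) (deriv (g0 P)) (deriv (deriv (g0 P))) P.ρ hρ
    (fun r hr => (hb r hr).1.hasDerivAt) (fun r hr => (hb r hr).2.1.hasDerivAt)
    (fun r hr => (hb r hr).2.2.1) ?_ ?_ s hs0 hs1
  · rw [h0]
    show |2 / P.ρ * P.b 0 - P.b 1 - 1| ≤ 1 / 10 ^ 15
    rw [hP.b1]
    have h1 : 2 / P.ρ * P.b 0 - -1 - 1 = 2 / P.ρ * P.b 0 := by ring
    rw [h1, abs_mul]
    have h2 : |2 / P.ρ| ≤ 1 := by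
      rw [abs_of_nonneg (by positivity), div_le_one (by linarith)]
      linarith
    have h3 := hP.b0
    have h4 := abs_nonneg (P.b 0)
    calc |2 / P.ρ| * |P.b 0| ≤ 1 * |P.b 0| := mul_le_mul_of_nonneg_right h2 h4
      _ ≤ 1 / 10 ^ 15 := by rw [one_mul]; exact h3
  · rw [h0', abs_neg]
    exact hP.b0

end Pool.Agent.N742.DR
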