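import Pool.Agent.N742.DR.Stm

/-!
Project DR (helper742), problem MP_d92c84_an, part DR-GN (helper697): estimates of `g_n`.
-/

set_option autoImplicit false

open Set Filter Topology

namespace Pool.Agent.N742.DR

open Pool.Agent.N229.SC

private theorem gn_core (ρ a0 : ℝ) (y z m : ℝ → ℝ) (T : ℝ) (hρ : 10000 ≤ ρ)
    (hT : T ≤ 19 / 10) (hy : ∀ s ∈ Icc 0 T, HasDerivAt y (z s) s)
    (hz : ∀ s ∈ Icc 0 T, HasDerivAt z (-(m s * y s) - z s / (ρ + s)) s)
    (hm : ∀ s ∈ Icc 0 T, 0 ≤ m s ∧ m s ≤ 361 / 1000) (h0 : y 0 = a0) (ha : 0 < a0)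
    (ha' : a0 ≤ 31 / 10 ^ 10) (hz0 : 1 ≤ z 0) (hz1 : z 0 ≤ 10001 / 10000)
    (hpos : ∀ s ∈ Ico 0 T, 0 < z s) : ∀ s ∈ Icc 0 T, 3 / 10 ≤ z s ∧ z s ≤ 10001 / 10000 ∧
      a0 ≤ y s ∧ y s ≤ a0 + 10001 / 10000 * s := by
  intro s hs
  have hT0 : 0 ≤ T := hs.1.trans hs.2
  have h0T : (0 : ℝ) ∈ Icc 0 T := ⟨le_rfl, hT0⟩
  have hint : interior (Icc (0 : ℝ) T) = Ioo 0 T := interior_Icc
  have hyc : ContinuousOn y (Icc 0 T) := fun t ht => (hy t ht).continuousAt.continuousWithinAt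
  have hzc : ContinuousOn z (Icc 0 T) := fun t ht => (hz t ht).continuousAt.continuousWithinAt
  have hyd : DifferentiableOn ℝ y (interior (Icc 0 T)) := fun t ht =>
    (hy t (interior_subset ht)).differentiableAt.differentiableWithinAt
  have hzd : DifferentiableOn ℝ z (interior (Icc 0 T)) := fun t ht =>
    (hz t (interior_subset ht)).differentiableAt.differentiableWithinAt
  have hmonoy : MonotoneOn y (Icc 0 T) := by
    refine monotoneOn_of_deriv_nonneg (convex_Icc 0 T) hyc hyd fun t ht => ?_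
    rw [hint] at ht
    rw [(hy t ⟨ht.1.le, ht.2.le⟩).deriv]
    exact (hpos t ⟨ht.1.le, ht.2⟩).le
  have hylow : ∀ t ∈ Icc 0 T, a0 ≤ y t := by
    intro t ht
    rw [← h0]
    exact hmonoy h0T ht ht.1
  have hr : ∀ t ∈ Icc 0 T, 0 < ρ + t := fun t ht => by linarith [ht.1]
  have hanti : AntitoneOn z (Icc 0 T) := by
    refine antitoneOn_of_deriv_nonpos (convex_Icc 0 T) hzc hzd fun t ht => ?_
    rw [hint] at ht
    have ht' : t ∈ Icc 0 T := ⟨ht.1.le, ht.2.le⟩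
    rw [(hz t ht').deriv]
    have e1 : 0 ≤ m t * y t := mul_nonneg (hm t ht').1 (ha.le.trans (hylow t ht'))
    have e2 : 0 ≤ z t / (ρ + t) := div_nonneg (hpos t ⟨ht.1.le, ht.2⟩).le (hr t ht').le
    linarith
  have hzup : ∀ t ∈ Icc 0 T, z t ≤ 10001 / 10000 := fun t ht => (hanti h0T ht ht.1).trans hz1
  have hyup : ∀ t ∈ Icc 0 T, y t ≤ a0 + 10001 / 10000 * t := by
    have hmono2 : MonotoneOn (fun t => 10001 / 10000 * t - y t) (Icc 0 T) := by
      refine monotoneOn_of_deriv_nonneg (convex_Icc 0 T)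
        ((continuousOn_const.mul continuousOn_id).sub hyc) (fun t ht =>
        (((hasDerivAt_id t).const_mul (10001 / 10000 : ℝ)).sub
          (hy t (interior_subset ht))).differentiableAt.differentiableWithinAt) fun t ht => ?_
      have ht' : t ∈ Icc 0 T := interior_subset ht
      have e1 := (((hasDerivAt_id t).const_mul (10001 / 10000 : ℝ)).sub (hy t ht')).deriv
      have e2 : deriv (fun t => 10001 / 10000 * t - y t) t = 10001 / 10000 * 1 - z t := e1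
      rw [e2]
      linarith [hzup t ht']
    intro t ht
    have e1 := hmono2 h0T ht ht.1
    simp only [mul_zero, zero_sub] at e1
    rw [h0] at e1
    linarith
  refine ⟨?_, hzup s hs, hylow s hs, hyup s hs⟩
  have hder : ∀ t ∈ Icc 0 T, HasDerivAt
      (fun t => z t + (1806 / 10000 * t ^ 2 + 2 / 10000 * t))
      ((-(m t * y t) - z t / (ρ + t)) + (1806 / 10000 * (2 * t) + 2 / 10000)) t := by
    intro t ht
    have e1 : HasDerivAt (fun t : ℝ => 1806 / 10000 * t ^ 2 + 2 / 10000 * t)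
        (1806 / 10000 * (2 * t) + 2 / 10000) t := by
      have a1 : HasDerivAt (fun t : ℝ => 1806 / 10000 * t ^ 2) (1806 / 10000 * (2 * t)) t := by
        have := (hasDerivAt_pow 2 t).const_mul (1806 / 10000 : ℝ)
        simpa using this
      have a2 : HasDerivAt (fun t : ℝ => 2 / 10000 * t) (2 / 10000) t := by
        have := (hasDerivAt_id t).const_mul (2 / 10000 : ℝ)
        simpa using this
      exact a1.add a2
    exact (hz t ht).add e1
  have hmono3 : MonotoneOn (fun t => z t + (1806 / 10000 * t ^ 2 + 2 / 10000 * t)) (Icc 0 T) := by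
    refine monotoneOn_of_deriv_nonneg (convex_Icc 0 T)
      (fun t ht => (hder t ht).continuousAt.continuousWithinAt)
      (fun t ht => (hder t (interior_subset ht)).differentiableAt.differentiableWithinAt)
      fun t ht => ?_
    rw [hint] at ht
    have ht' : t ∈ Icc 0 T := ⟨ht.1.le, ht.2.le⟩
    rw [(hder t ht').deriv]
    have b1 := hyup t ht'
    have b2 := (hm t ht').2
    have b3 := (hm t ht').1
    have b4 := hylow t ht'
    have b5 := hzup t ht'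
    have b6 := hpos t ⟨ht.1.le, ht.2⟩
    have c1 : m t * y t ≤ 361 / 1000 * (a0 + 10001 / 10000 * t) :=
      mul_le_mul b2 b1 (ha.le.trans b4) (by norm_num)
    have c2 : z t / (ρ + t) ≤ 10001 / 10000 / 10000 := by
      rw [div_le_iff₀ (hr t ht')]
      have := ht'.1
      nlinarith
    have c3 : 0 ≤ t := ht'.1
    norm_num at ha' c1 c2 ⊢
    nlinarith
  have e1 := hmono3 h0T hs hs.1
  simp only at e1
  have e2 : s ^ 2 ≤ 361 / 100 := by nlinarith [hs.1, hs.2]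
  have e3 : s ≤ 19 / 10 := hs.2.trans hT
  norm_num at e1
  linarith

/-- DR-GN. -/
theorem proof_GN (hBES : S_BES) : S_GN := by
  intro P hP hC s hs0 hs
  have hρ := hP.rho
  have hρ0 : 0 < P.ρ := by linarith
  obtain ⟨hbes, -, -, hg0, hg1⟩ := hBES P hP hC
  obtain ⟨y, hy⟩ : ∃ y : ℝ → ℝ, y = fun t => gn P (P.ρ + t) := ⟨_, rfl⟩
  obtain ⟨z, hz⟩ : ∃ z : ℝ → ℝ, z = fun t => deriv (gn P) (P.ρ + t) := ⟨_, rfl⟩
  obtain ⟨m, hm⟩ : ∃ m : ℝ → ℝ, m = fun t => 1 - (P.n : ℝ) ^ 2 / (P.ρ + t) ^ 2 := ⟨_, rfl⟩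
  have hyd : ∀ t : ℝ, 0 ≤ t → HasDerivAt y (z t) t := by
    intro t ht
    obtain ⟨-, -, -, h1, -, -⟩ := hbes (P.ρ + t) (by linarith)
    have h2 := h1.hasDerivAt.comp_const_add P.ρ t
    rw [hy, hz]
    exact h2
  have hzd : ∀ t : ℝ, 0 ≤ t → HasDerivAt z (-(m t * y t) - z t / (P.ρ + t)) t := by
    intro t ht
    obtain ⟨-, -, -, -, h1, h3⟩ := hbes (P.ρ + t) (by linarith)
    have h2 := h1.hasDerivAt.comp_const_add P.ρ t
    rw [h3] at h2
    rw [hy, hz, hm]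
    exact h2
  have hn : (P.n : ℝ) = P.nu * P.ρ := by
    unfold Par.nu
    field_simp
  have hmb : ∀ t ∈ Icc (0 : ℝ) (19 / 10), 0 ≤ m t ∧ m t ≤ 361 / 1000 := by
    intro t ht
    have hr : 0 < P.ρ + t := by linarith [ht.1]
    have h1 := hP.nu1
    have h2 := hP.nu2
    have hn2 : (P.n : ℝ) ^ 2 = P.nu ^ 2 * P.ρ ^ 2 := by rw [hn]; ring
    have hq1 : P.nu ^ 2 ≤ 6724 / 10000 := by nlinarith
    have hq2 : 64 / 100 ≤ P.nu ^ 2 := by nlinarith
    have hq3 : P.ρ ^ 2 ≤ (P.ρ + t) ^ 2 := by nlinarith [ht.1]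
    have hr2 : 0 < (P.ρ + t) ^ 2 := by positivity
    rw [hm]
    simp only
    constructor
    · rw [sub_nonneg, div_le_one hr2, hn2]
      calc P.nu ^ 2 * P.ρ ^ 2 ≤ 1 * (P.ρ + t) ^ 2 :=
            mul_le_mul (by linarith) hq3 (sq_nonneg _) zero_le_one
        _ = _ := one_mul _
    · have h5 : 639 / 1000 ≤ (P.n : ℝ) ^ 2 / (P.ρ + t) ^ 2 := by
        rw [le_div_iff₀ hr2, hn2]
        have h6 : 639 / 1000 * (P.ρ + t) ^ 2 ≤ 64 / 100 * P.ρ ^ 2 := by
          have h7 : P.ρ + t ≤ (1 + 19 / 100000) * P.ρ := by nlinarith [ht.2]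
          have h8 : (P.ρ + t) ^ 2 ≤ ((1 + 19 / 100000) * P.ρ) ^ 2 :=
            pow_le_pow_left₀ hr.le h7 2
          have h9 : 0 < P.ρ ^ 2 := by positivity
          nlinarith
        have h7 : 64 / 100 * P.ρ ^ 2 ≤ P.nu ^ 2 * P.ρ ^ 2 :=
          mul_le_mul_of_nonneg_right hq2 (sq_nonneg _)
        linarith
      linarith
  have ha0 : 0 < P.a 0 := lt_of_lt_of_le (by norm_num) hP.a0
  have hy0 : y 0 = P.a 0 := by rw [hy]; simp only [add_zero]; exact hg0
  have hz0 : z 0 = P.nu * P.a 0 + 1 := by rw [hz]; simp only [add_zero]; exact hg1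
  have hz0l : 1 ≤ z 0 := by
    rw [hz0]
    have := mul_pos (by linarith [hP.nu1] : 0 < P.nu) ha0
    linarith
  have hz0u : z 0 ≤ 10001 / 10000 := by
    rw [hz0]
    have h1 := hP.a0'
    have h2 : P.nu * P.a 0 ≤ 1 * (31 / 10 ^ 10) :=
      mul_le_mul (by linarith [hP.nu2]) h1 ha0.le zero_le_one
    norm_num at h2 ⊢
    linarith
  have hcore : ∀ T : ℝ, T ≤ 19 / 10 → (∀ t ∈ Ico 0 T, 0 < z t) → ∀ t ∈ Icc 0 T,
      3 / 10 ≤ z t ∧ z t ≤ 10001 / 10000 ∧ P.a 0 ≤ y t ∧ y t ≤ P.a 0 + 10001 / 10000 * t :=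
    fun T hT hpos => gn_core P.ρ (P.a 0) y z m T hρ hT (fun t ht => hyd t ht.1)
      (fun t ht => hzd t ht.1) (fun t ht => hmb t ⟨ht.1, ht.2.trans hT⟩) hy0 ha0 hP.a0' hz0l hz0u
      hpos
  -- positivity of the derivative
  have hzpos : ∀ t ∈ Icc (0 : ℝ) (19 / 10), 0 < z t := by
    by_contra hcon
    push Not at hcon
    obtain ⟨t1, ht1, hzt1⟩ := hcon
    have hzc : ContinuousOn z (Icc 0 (19 / 10)) := fun t ht =>
      (hzd t ht.1).continuousAt.continuousWithinAt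
    set B : Set ℝ := Icc 0 (19 / 10) ∩ z ⁻¹' Iic 0 with hB
    have hBc : IsClosed B := hzc.preimage_isClosed_of_isClosed isClosed_Icc isClosed_Iic
    have hBne : B.Nonempty := ⟨t1, ht1, hzt1⟩
    have hBbd : BddBelow B := ⟨0, fun t ht => ht.1.1⟩
    have hB1 : sInf B ∈ B := hBc.csInf_mem hBne hBbd
    have hB2 : ∀ t ∈ Ico 0 (sInf B), 0 < z t := by
      intro t ht
      by_contra h
      push Not at h
      have : sInf B ≤ t := csInf_le hBbd ⟨⟨ht.1, ht.2.le.trans hB1.1.2⟩, h⟩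
      exact absurd ht.2 (not_lt.2 this)
    have h1 := (hcore (sInf B) hB1.1.2 hB2 (sInf B) ⟨hB1.1.1, le_rfl⟩).1
    have h2 : z (sInf B) ≤ 0 := hB1.2
    linarith
  obtain ⟨h1, h2, h3, h4⟩ := hcore (19 / 10) le_rfl (fun t ht => hzpos t ⟨ht.1, ht.2.le⟩) s ⟨hs0, hs⟩
  rw [hy] at h3 h4
  rw [hz] at h1 h2
  simp only at h1 h2 h3 h4
  have h5 := hP.a0'
  norm_num at h5
  refine ⟨ha0.trans_le h3, by linarith, ?_⟩
  rw [abs_le]
  constructor <;> linarith

end Pool.Agent.N742.DR
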