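import Pool.Agent.N742.DR.Stm

/-!
Project DR (helper742), part IMG: the inverse of the conformal map on a disc (helper953).
-/

set_option autoImplicit false

open Set Filter Topology MeasureTheory

namespace Pool.Agent.N742.DR

open Pool.Agent.N229.SC

theorem proof_IMG (hINJ : S_INJ) : S_IMG := by
  intro ρ r s f hc hs hr₀
  obtain ⟨r₀, hr0, hr0r, hr0s⟩ := hr₀
  obtain ⟨hkey, hinj⟩ := hINJ ρ r f hc
  have hρ := hc.rho_pos
  have hopen : IsOpen (Metric.ball (0 : ℂ) r) := Metric.isOpen_ball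
  have hder : ∀ z ∈ Metric.ball (0 : ℂ) r, HasStrictDerivAt f (deriv f z) z := fun z hz =>
    (hc.f_diff.analyticAt (hopen.mem_nhds hz)).hasStrictDerivAt
  have hne : ∀ z ∈ Metric.ball (0 : ℂ) r, deriv f z ≠ 0 := by
    intro z hz h0
    have h1 := hc.f_der z hz
    rw [h0, zero_sub, norm_neg, Complex.norm_real, Real.norm_of_nonneg hρ.le] at h1
    linarith
  have hsub : Metric.ball (0 : ℂ) r₀ ⊆ Metric.ball 0 r := Metric.ball_subset_ball hr0r.le
  have hsubc : Metric.closedBall (0 : ℂ) r₀ ⊆ Metric.ball 0 r :=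
    Metric.closedBall_subset_ball hr0r
  have hcont : ContinuousOn f (Metric.ball 0 r) := hc.f_diff.continuousOn
  -- the set `U₀`
  have hU : IsOpen (Metric.ball (0 : ℂ) r₀ ∩ f ⁻¹' Metric.ball 0 s) :=
    (hcont.mono hsub).isOpen_inter_preimage Metric.isOpen_ball Metric.isOpen_ball
  have hVo : IsOpen (f '' (Metric.ball (0 : ℂ) r₀ ∩ f ⁻¹' Metric.ball 0 s)) := by
    rw [isOpen_iff_mem_nhds]
    rintro _ ⟨z, hz, rfl⟩
    have hzr : z ∈ Metric.ball (0 : ℂ) r := hsub hz.1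
    rw [← (hder z hzr).map_nhds_eq (hne z hzr)]
    exact image_mem_map (hU.mem_nhds hz)
  have hVc : closure (f '' (Metric.ball (0 : ℂ) r₀ ∩ f ⁻¹' Metric.ball 0 s)) ∩
      Metric.ball (0 : ℂ) s ⊆ f '' (Metric.ball (0 : ℂ) r₀ ∩ f ⁻¹' Metric.ball 0 s) := by
    rintro x ⟨hx1, hx2⟩
    have hcomp : IsCompact (f '' Metric.closedBall (0 : ℂ) r₀) :=
      (isCompact_closedBall (0 : ℂ) r₀).image_of_continuousOn (hcont.mono hsubc)
    have h1 : closure (f '' (Metric.ball (0 : ℂ) r₀ ∩ f ⁻¹' Metric.ball 0 s)) ⊆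
        f '' Metric.closedBall (0 : ℂ) r₀ := by
      apply closure_minimal _ hcomp.isClosed
      exact image_mono (inter_subset_left.trans Metric.ball_subset_closedBall)
    obtain ⟨z, hz, rfl⟩ := h1 hx1
    refine ⟨z, ⟨?_, hx2⟩, rfl⟩
    rw [Metric.mem_closedBall, dist_zero_right] at hz
    rw [Metric.mem_ball, dist_zero_right] at hx2 ⊢
    rcases hz.lt_or_eq with h2 | h2
    · exact h2
    · exact absurd hx2 (not_lt.2 (hr0s z h2))
  have hball : Metric.ball (0 : ℂ) s ⊆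
      f '' (Metric.ball (0 : ℂ) r₀ ∩ f ⁻¹' Metric.ball 0 s) := by
    refine (convex_ball (0 : ℂ) s).isPreconnected.subset_of_closure_inter_subset hVo ?_ hVc
    refine ⟨0, Metric.mem_ball_self hs, 0, ⟨Metric.mem_ball_self hr0, ?_⟩, hc.f_zero⟩
    show f 0 ∈ Metric.ball (0 : ℂ) s
    rw [hc.f_zero]
    exact Metric.mem_ball_self hs
  have hex : ∀ x ∈ Metric.ball (0 : ℂ) s, ∃ z ∈ Metric.ball (0 : ℂ) r, f z = x := by
    intro x hx
    obtain ⟨z, hz, hzx⟩ := hball hx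
    exact ⟨z, hsub hz.1, hzx⟩
  obtain ⟨g, hg⟩ : ∃ g : ℂ → ℂ, g = Function.invFunOn f (Metric.ball 0 r) := ⟨_, rfl⟩
  have hgm : ∀ x ∈ Metric.ball (0 : ℂ) s, g x ∈ Metric.ball (0 : ℂ) r := by
    intro x hx
    rw [hg]
    exact Function.invFunOn_mem (hex x hx)
  have hgf : ∀ x ∈ Metric.ball (0 : ℂ) s, f (g x) = x := by
    intro x hx
    rw [hg]
    exact Function.invFunOn_eq (hex x hx)
  have hfg : ∀ z ∈ Metric.ball (0 : ℂ) r, g (f z) = z := by
    intro z hz
    rw [hg]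
    exact hinj.leftInvOn_invFunOn hz
  have hlip : ∀ x ∈ Metric.ball (0 : ℂ) s, ∀ y ∈ Metric.ball (0 : ℂ) s,
      dist (g x) (g y) ≤ (Real.toNNReal (10 / (9 * ρ)) : ℝ) * dist x y := by
    intro x hx y hy
    have h1 := hkey (g x) (hgm x hx) (g y) (hgm y hy)
    rw [hgf x hx, hgf y hy] at h1
    rw [dist_eq_norm, dist_eq_norm, Real.coe_toNNReal _ (by positivity)]
    have h2 : ‖(ρ : ℂ) * (g x - g y)‖ ≤ ‖x - y‖ + ‖x - y - ρ * (g x - g y)‖ := by
      have h3 := norm_sub_le (x - y) (x - y - ρ * (g x - g y))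
      rw [sub_sub_cancel] at h3
      exact h3
    rw [norm_mul, Complex.norm_real, Real.norm_of_nonneg hρ.le] at h2
    have h4 : 9 * ρ / 10 * ‖g x - g y‖ ≤ ‖x - y‖ := by linarith
    have h5 : 10 / (9 * ρ) * (9 * ρ / 10 * ‖g x - g y‖) ≤ 10 / (9 * ρ) * ‖x - y‖ :=
      mul_le_mul_of_nonneg_left h4 (by positivity)
    have h6 : 10 / (9 * ρ) * (9 * ρ / 10 * ‖g x - g y‖) = ‖g x - g y‖ := by
      field_simp
    rw [h6] at h5
    exact h5
  have hgc : ContinuousOn g (Metric.ball 0 s) := (LipschitzOnWith.of_dist_le_mul hlip).continuousOn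
  have hso : IsOpen (Metric.ball (0 : ℂ) s) := Metric.isOpen_ball
  have hgd : DifferentiableOn ℂ g (Metric.ball 0 s) := by
    intro x hx
    have h1 : HasDerivAt f (deriv f (g x)) (g x) := (hder _ (hgm x hx)).hasDerivAt
    have h2 : ∀ᶠ y in 𝓝 x, f (g y) = y := by
      filter_upwards [hso.mem_nhds hx] with y hy
      exact hgf y hy
    exact (HasDerivAt.of_local_left_inverse (hgc.continuousAt (hso.mem_nhds hx)) h1
      (hne _ (hgm x hx)) h2).differentiableAt.differentiableWithinAt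
  have hg0 : g 0 = 0 := by
    have h1 := hfg 0 (Metric.mem_ball_self (by linarith))
    rwa [hc.f_zero] at h1
  refine ⟨g, hgd, fun x hx => ⟨hgm x hx, hgf x hx⟩, fun z hz _ => hfg z hz, dslope g 0, ?_, ?_⟩
  · exact (Complex.differentiableOn_dslope (hso.mem_nhds (Metric.mem_ball_self hs))).2 hgd
  · intro x _
    have h1 := sub_smul_dslope g 0 x
    rw [sub_zero, hg0, sub_zero, smul_eq_mul] at h1
    exact h1.symm

end Pool.Agent.N742.DR
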