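import Pool.Agent.N742.DR.Stm

/-!
Project DR (helper742), problem MP_d92c84_an: the solution lies in the larger domain (helper478).
Adapted from `Pool.Agent.N229.SC.FIX` (helper543).
-/

set_option autoImplicit false

open Set Filter Topology

namespace Pool.Agent.N742.DR

open Pool.Agent.N229.SC

/-- The state space of the iteration. -/
private abbrev itrSt : Type := W × W × (ℕ → A)

/-- The distance of two states is at most `D`. -/
private def itrdd (p q : itrSt) (D : ℝ) : Prop :=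
  ‖p.1 - q.1‖ ≤ 2 * D ∧ ‖p.2.1 - q.2.1‖ ≤ D ∧ ∀ i, ‖p.2.2 i - q.2.2 i‖ ≤ D

/-- The domain, for states. -/
private def itrDm (X : ℝ) (p : itrSt) : Prop := Dom X p.1 p.2.1 p.2.2

/-- The larger domain, for states. -/
private def itrD5 (X : ℝ) (p : itrSt) : Prop := D5 X p.1 p.2.1 p.2.2

/-- The map. -/
private noncomputable def itrPs (P : Par) (X : ℝ) (p : itrSt) : itrSt :=
  (p.1 + EE P X p.1 p.2.1 p.2.2, p.2.1 - Pi2 (OO P X p.1 p.2.1 p.2.2), RH P p.1 p.2.1 p.2.2)

/-- The difference of the second components. -/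
private theorem itr_v (hA1 : S_A1) (hA2 : S_A2) (v v' : W) (hv : ∀ j < 2, cf v j = 0)
    (hv' : ∀ j < 2, cf v' j = 0) (o o' : W) :
    ‖(v - Pi2 o) - (v' - Pi2 o')‖ ≤ ‖(o - o') - ((v - v') - conj (v - v'))‖ := by
  obtain ⟨h1, h2, h3, h4, h5, h6, h7, h8, h9, h10, h11, h12, h13⟩ := hA1 wW
  obtain ⟨k1, ⟨k2, -⟩, k3, k4, ⟨k5, k5'⟩, k6⟩ := hA2
  have e : (v - Pi2 o) - (v' - Pi2 o') = -Pi2 ((o - o') - ((v - v') - conj (v - v'))) := by
    refine h10 _ _ fun j => ?_
    rw [h2, h2, h2, h3, k5, k5, k5, h2, h2, h2, h2, k2, h2]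
    by_cases hj : 2 ≤ j
    · rw [if_pos hj, if_pos hj, if_pos hj, hv (-j) (by omega), hv' (-j) (by omega)]
      ring
    · rw [if_neg hj, if_neg hj, if_neg hj, hv j (by omega), hv' j (by omega)]
      ring
  rw [e, norm_neg]
  exact k5' _

/-- The map is a contraction. -/
private theorem itr_ctr (hA1 : S_A1) (hA2 : S_A2) (hCTR : S_CTR) (P : Par) (hP : Good P)
    (X : ℝ) (hX : 0 < X) (hX' : X ≤ 3 / 10 ^ 4) (p q : itrSt) (hp : itrDm X p)
    (hq : itrDm X q) (D : ℝ) (hD : itrdd p q D) :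
    itrdd (itrPs P X p) (itrPs P X q) (4 / 5 * D) := by
  have hD0 : 0 ≤ D := (norm_nonneg _).trans hD.2.1
  obtain ⟨c1, c2, c3⟩ := hCTR P hP X p.1 p.2.1 p.2.2 q.1 q.2.1 q.2.2 D hX hX' hp hq hD.1 hD.2.1
    hD.2.2
  refine ⟨c1, ?_, c3⟩
  refine (itr_v hA1 hA2 _ _ hp.hv hq.hv _ _).trans (c2.trans ?_)
  linarith

/-- Two states of the domain. -/
private theorem itr_diam {X : ℝ} (hX : 0 < X) (hX' : X ≤ 3 / 10 ^ 4) {p q : itrSt}
    (hp : itrDm X p) (hq : itrDm X q) : itrdd p q (2 * X) := by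
  have h1 : 5 * X ^ 2 + 5 * X ^ 2 ≤ 2 * X := by nlinarith
  refine ⟨?_, ?_, fun i => ?_⟩
  · refine (norm_sub_le _ _).trans ?_
    have := hp.nh
    have := hq.nh
    linarith
  · refine (norm_sub_le _ _).trans ?_
    have := hp.nv
    have := hq.nv
    linarith
  · refine (norm_sub_le _ _).trans ?_
    have := hp.ny i
    have := hq.ny i
    linarith

/-- The zero element is bounded by every nonnegative number. -/
private theorem itr_zero {w ω : ℤ → ℝ} [Wt w] (hBD1 : S_BD1) (hω : Wg ω) {M : ℝ} (hM : 0 ≤ M) :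
    Bd ω (0 : Al w) M := by
  obtain ⟨-, -, hmono, -, -, h0, -⟩ := hBD1 w ω hω
  exact hmono 0 0 M h0 hM

/-- DR-ITR. -/
theorem proof_ITR (hA1 : S_A1) (hA2 : S_A2) (hSELF : S_SELF) (hCTR : S_CTR) (hWG : S_WG)
    (hBD1 : S_BD1) (hSVV : S_SVV) (hSYY : S_SYY) (hSHH : S_SHH) : S_ITR := by
  intro P X h v y hP hX0 hX hX' hsol
  obtain ⟨w1, w2, -⟩ := hWG
  set s : ℕ → itrSt := fun n => (itrPs P X)^[n] (0, 0, fun _ => 0) with hsd
  have hs0 : s 0 = (0, 0, fun _ => 0) := rfl
  have hs1 : ∀ n, s (n + 1) = itrPs P X (s n) := fun n => by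
    rw [hsd]
    exact Function.iterate_succ_apply' _ _ _
  have hs : ∀ n, itrDm X (s n) := by
    intro n
    induction n with
    | zero =>
      exact
        { hc := by
            show conj (0 : W) = 0
            exact map_zero _
          hv := fun j _ => (hA1 wW).2.2.2.1 j
          hy := fun i j _ => (hA1 wA).2.2.2.1 j
          nh := by
            show ‖(0 : W)‖ ≤ _
            rw [norm_zero]
            linarith
          nv := by
            show ‖(0 : W)‖ ≤ _
            rw [norm_zero]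
            positivity
          ny := fun i => by
            show ‖(0 : A)‖ ≤ _
            rw [norm_zero]
            positivity }
    | succ n ih =>
      rw [hs1]
      exact hSELF P hP X _ _ _ hX hX' ih
  have hs5 : ∀ n, itrD5 X (s n) := by
    intro n
    induction n with
    | zero =>
      exact
        { bh := itr_zero hBD1 w1 (by positivity)
          bv := itr_zero hBD1 w1 (by positivity)
          by_ := fun i => itr_zero hBD1 w2 (by positivity) }
    | succ n ih =>
      rw [hs1]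
      exact
        { bh := hSHH P X _ _ _ hP hX0 hX hX' (hs n) ih
          bv := (hSVV P X _ _ _ hP hX0 hX hX' (hs n) ih).2
          by_ := hSYY P X _ _ _ hP hX0 hX hX' (hs n) ih }
  have hz : itrDm X (h, v, y) :=
    { hc := hsol.hc
      hv := hsol.hv
      hy := hsol.hy
      nh := hsol.nh
      nv := hsol.nv
      ny := hsol.ny }
  have hfix : itrPs P X (h, v, y) = (h, v, y) := by
    refine Prod.ext ?_ (Prod.ext ?_ (funext fun i => ?_))
    · show h + EE P X h v y = h
      rw [hsol.eE, add_zero]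
    · show v - Pi2 (OO P X h v y) = v
      rw [hsol.eO, sub_zero]
    · exact (hsol.eY i).symm
  have hd : ∀ n, itrdd (s n) (h, v, y) (2 * X * (4 / 5) ^ n) := by
    intro n
    induction n with
    | zero =>
      rw [pow_zero, mul_one]
      exact itr_diam hX0 hX' (hs 0) hz
    | succ n ih =>
      have := itr_ctr hA1 hA2 hCTR P hP X hX0 hX' _ _ (hs n) hz _ ih
      rw [← hs1, hfix] at this
      have e : 4 / 5 * (2 * X * (4 / 5) ^ n) = 2 * X * (4 / 5) ^ (n + 1) := by ring
      rwa [e] at this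
  have z0 : Tendsto (fun n : ℕ => (4 / 5 : ℝ) ^ n) atTop (𝓝 0) :=
    tendsto_pow_atTop_nhds_zero_of_lt_one (by norm_num) (by norm_num)
  have z1 : Tendsto (fun n : ℕ => 2 * X * (4 / 5 : ℝ) ^ n) atTop (𝓝 0) := by
    have := z0.const_mul (2 * X)
    simpa using this
  have z2 : Tendsto (fun n : ℕ => 2 * (2 * X * (4 / 5 : ℝ) ^ n)) atTop (𝓝 0) := by
    have := z1.const_mul 2
    simpa using this
  have l1 : Tendsto (fun n => (s n).1) atTop (𝓝 h) :=
    tendsto_iff_norm_sub_tendsto_zero.mpr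
      (squeeze_zero (fun _ => norm_nonneg _) (fun n => (hd n).1) z2)
  have l2 : Tendsto (fun n => (s n).2.1) atTop (𝓝 v) :=
    tendsto_iff_norm_sub_tendsto_zero.mpr
      (squeeze_zero (fun _ => norm_nonneg _) (fun n => (hd n).2.1) z1)
  have l3 : ∀ i, Tendsto (fun n => (s n).2.2 i) atTop (𝓝 (y i)) := fun i =>
    tendsto_iff_norm_sub_tendsto_zero.mpr
      (squeeze_zero (fun _ => norm_nonneg _) (fun n => (hd n).2.2 i) z1)
  obtain ⟨-, -, -, -, -, -, -, -, limW, -⟩ := hBD1 wW w5 w1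
  obtain ⟨-, -, -, -, -, -, -, -, limA, -⟩ := hBD1 wA u5 w2
  exact
    { bh := limW _ _ _ l1 fun n => (hs5 n).bh
      bv := limW _ _ _ l2 fun n => (hs5 n).bv
      by_ := fun i => limA _ _ _ (l3 i) fun n => (hs5 n).by_ i }

end Pool.Agent.N742.DR
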