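import Pool.Agent.N742.DR.Stm

/-!
Project DR (helper742), problem MP_d92c84_an: sign change and monotonicity along the rays (helper527).
-/

set_option autoImplicit false

open Set Filter Topology MeasureTheory

namespace Pool.Agent.N742.DR

open Pool.Agent.N229.SC

private theorem mon_sin {s : ℝ} (h1 : 3 / 2 ≤ s) (h2 : s ≤ 13 / 8) : 99 / 100 ≤ Real.sin s := by
  rw [← Real.cos_sub_pi_div_two]
  refine le_trans ?_ (Real.one_sub_sq_div_two_le_cos)
  have p1 := Real.pi_gt_d4
  have p2 := Real.pi_lt_d4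
  have : (s - Real.pi / 2) ^ 2 ≤ (71 / 1000) ^ 2 := by
    apply sq_le_sq'
    · linarith
    · linarith
  linarith

private theorem mon_cos1 : 7 / 100 ≤ Real.cos (3 / 2) := by
  rw [← Real.sin_pi_div_two_sub]
  have p1 := Real.pi_gt_d4
  have p2 := Real.pi_lt_d4
  have h := Real.sin_gt_sub_cube (x := Real.pi / 2 - 3 / 2) (by linarith)
  have h3 : (Real.pi / 2 - 3 / 2) ^ 3 ≤ (71 / 1000) ^ 3 := by
    apply pow_le_pow_left₀ (by linarith)
    linarith
  linarith

private theorem mon_cos2 : Real.cos (13 / 8) ≤ - (5 / 100) := by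
  have e : Real.cos (13 / 8) = - Real.sin (13 / 8 - Real.pi / 2) := by
    rw [Real.sin_sub_pi_div_two, neg_neg]
  rw [e]
  have p1 := Real.pi_gt_d4
  have p2 := Real.pi_lt_d4
  have h := Real.sin_gt_sub_cube (x := 13 / 8 - Real.pi / 2) (by linarith)
  have h3 : (13 / 8 - Real.pi / 2) ^ 3 ≤ (55 / 1000) ^ 3 := by
    apply pow_le_pow_left₀ (by linarith)
    linarith
  linarith

/-- DR-MON. -/
theorem proof_MON (hBES : S_BES) (hG0 : S_G0) (hGN : S_GN) (hDEC : S_DEC) (hREM : S_REM) :
    S_MON := by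
  intro P X p K hPH w hw
  have hP := hPH.good
  have hX0 := hPH.X_pos
  have hX1 := hPH.X_le
  have hrho := hP.rho
  have hB := (hBES P hP hPH.bd).1
  have hG := hG0 P hP hPH.bd
  have hN := hGN P hP hPH.bd
  have hD := hDEC P X p K hPH
  have hR := hREM P X p K hPH
  have hre : |(w ^ P.n).re| ≤ 1 := by
    refine (Complex.abs_re_le_norm _).trans ?_
    rw [norm_pow, hw, one_pow]
  have hprod : ∀ a : ℝ, |a| ≤ 2 → |X * a * (w ^ P.n).re| ≤ 6 / 10 ^ 4 := by
    intro a ha
    rw [abs_mul, abs_mul, abs_of_pos hX0]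
    calc X * |a| * |(w ^ P.n).re| ≤ (3 / 10 ^ 4) * 2 * 1 := by gcongr
      _ = _ := by norm_num
  have hval : ∀ s : ℝ, 0 ≤ s → s ≤ 17 / 10 →
      |UU P.ρ id (PF P X p) (((P.ρ + s : ℝ) : ℂ) * w) - Real.cos s| ≤ 3 / 1000 := by
    intro s h1 h2
    rw [hD (P.ρ + s) w (by linarith) (by unfold RP; linarith) hw]
    have a1 := (hG s h1 (by linarith)).1
    obtain ⟨b1, b2, -⟩ := hN s h1 (by linarith)
    have a2 := hprod (gn P (P.ρ + s)) (by rw [abs_of_pos b1]; exact b2)
    have a3 := (hR (P.ρ + s) w (by linarith) (by linarith) hw).1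
    rw [abs_le] at a1 a2 a3 ⊢
    constructor <;> linarith [a1.1, a1.2, a2.1, a2.2, a3.1, a3.2]
  refine ⟨?_, ?_, ?_⟩
  · have hdiff : ∀ t ∈ Icc (P.ρ + 3 / 2) (P.ρ + 13 / 8), HasDerivAt
        (fun t : ℝ => g0 P t + X * gn P t * (w ^ P.n).re + rem P p (t * w))
        (deriv (g0 P) t + X * deriv (gn P) t * (w ^ P.n).re +
          deriv (fun t : ℝ => rem P p (t * w)) t) t := by
      intro t ht
      obtain ⟨d1, -, -, d2, -, -⟩ := hB t (by linarith [ht.1])
      have d3 := (hR t w (by linarith [ht.1]) (by linarith [ht.2]) hw).2.1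
      exact (d1.hasDerivAt.add ((d2.hasDerivAt.const_mul X).mul_const _)).add d3.hasDerivAt
    have hanti : StrictAntiOn
        (fun t : ℝ => g0 P t + X * gn P t * (w ^ P.n).re + rem P p (t * w))
        (Icc (P.ρ + 3 / 2) (P.ρ + 13 / 8)) := by
      apply strictAntiOn_of_deriv_neg (convex_Icc _ _)
      · intro t ht
        exact (hdiff t ht).continuousAt.continuousWithinAt
      · intro t ht
        have ht' := interior_subset ht
        rw [(hdiff t ht').deriv]
        have es : t = P.ρ + (t - P.ρ) := by ring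
        have s1 : 3 / 2 ≤ t - P.ρ := by linarith [ht'.1]
        have s2 : t - P.ρ ≤ 13 / 8 := by linarith [ht'.2]
        have a1 := (hG (t - P.ρ) (by linarith) (by linarith)).2
        have a2 := (hN (t - P.ρ) (by linarith) (by linarith)).2.2
        rw [← es] at a1 a2
        have a3 := hprod _ a2
        have a4 := (hR t w (by linarith) (by linarith) hw).2.2
        have a5 := mon_sin s1 s2
        rw [abs_le] at a1 a3 a4
        linarith [a1.2, a3.2, a4.2]
    refine hanti.congr ?_
    intro t ht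
    exact (hD t w (by linarith [ht.1]) (by unfold RP; linarith [ht.2]) hw).symm
  · have a1 := hval (3 / 2) (by norm_num) (by norm_num)
    have a2 := mon_cos1
    rw [abs_le] at a1
    linarith [a1.1]
  · have a1 := hval (13 / 8) (by norm_num) (by norm_num)
    have a2 := mon_cos2
    rw [abs_le] at a1
    linarith [a1.2]

end Pool.Agent.N742.DR
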