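import Pool.Agent.N742.DR.Stm

/-!
# Project DR, part NC: the nodal curve is not a circle (helper591)
-/

set_option autoImplicit false

open Set Filter Topology MeasureTheory

namespace Pool.Agent.N742.DR

open Pool.Agent.N229.SC

private theorem nc_sphere {a b : ℂ} {s : ℝ} (hs : 0 < s)
    (h : Metric.sphere a s ⊆ Metric.sphere b s) : a = b := by
  by_contra hne
  have hab : a - b ≠ 0 := sub_ne_zero.2 hne
  have hn : 0 < ‖a - b‖ := norm_pos_iff.2 hab
  have hp : a + ((s / ‖a - b‖ : ℝ) : ℂ) * (a - b) ∈ Metric.sphere a s := by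
    rw [mem_sphere_iff_norm, add_sub_cancel_left, norm_mul, Complex.norm_real,
      Real.norm_of_nonneg (by positivity)]
    field_simp
  have hq := h hp
  rw [mem_sphere_iff_norm] at hq
  have e : a + ((s / ‖a - b‖ : ℝ) : ℂ) * (a - b) - b =
      ((1 + s / ‖a - b‖ : ℝ) : ℂ) * (a - b) := by push_cast; ring
  rw [e, norm_mul, Complex.norm_real, Real.norm_of_nonneg (by positivity)] at hq
  have e2 : (1 + s / ‖a - b‖) * ‖a - b‖ = ‖a - b‖ + s := by field_simp
  linarith

theorem proof_NC : S_NC := by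
  intro u r₁ r₂ R ω hr1 hω hu hR hRu hex a s hrange
  have hpos : ∀ w, 0 < R w := fun w => hr1.trans (hR w).1
  have hnorm : ∀ w : Circle, ‖(R w : ℂ) * (w : ℂ)‖ = R w := by
    intro w
    rw [norm_mul, Complex.norm_real, Circle.norm_coe, mul_one, Real.norm_of_nonneg (hpos w).le]
  have hRω : ∀ w : Circle, R (ω * w) = R w := by
    intro w
    have hb := hR w
    have h1 : u (R w * ((ω * w : Circle) : ℂ)) = 0 := by
      have e : (R w : ℂ) * ((ω * w : Circle) : ℂ) = (ω : ℂ) * (R w * (w : ℂ)) := by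
        rw [Circle.coe_mul]; ring
      have e3 : (R w : ℂ) * (w : ℂ) ∈ Metric.closedBall (0 : ℂ) r₂ := by
        rw [mem_closedBall_zero_iff, hnorm]
        exact hb.2.1.le
      rw [e, hu _ e3, hb.2.2]
    exact (hRu (ω * w) (R w) hb.1.le hb.2.1.le h1).symm
  have hmem : ∀ w : Circle, (R w : ℂ) * (w : ℂ) ∈ Metric.sphere a s := fun w =>
    hrange ▸ mem_range_self w
  have hωc : (ω : ℂ) ≠ 1 := fun h => hω (Circle.ext (by rw [h, Circle.coe_one]))
  have hs : 0 < s := by
    have hd1 : dist ((R 1 : ℂ) * ((1 : Circle) : ℂ)) a = s := hmem 1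
    have hs0 : 0 ≤ s := hd1 ▸ dist_nonneg
    rcases hs0.lt_or_eq with h | h
    · exact h
    · exfalso
      have e1 := hmem 1
      have e2 := hmem (ω * 1)
      rw [← h, Metric.sphere_zero, mem_singleton_iff] at e1 e2
      rw [hRω, ← e1, mul_one, Circle.coe_one] at e2
      have hR0 : (R 1 : ℂ) ≠ 0 := by exact_mod_cast (hpos 1).ne'
      exact hωc (mul_left_cancel₀ hR0 e2)
  have hsub : Metric.sphere a s ⊆ Metric.sphere ((ω : ℂ) * a) s := by
    intro x hx
    rw [← hrange] at hx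
    obtain ⟨w, rfl⟩ := hx
    have h1 := hmem (ω⁻¹ * w)
    have h2 : R (ω⁻¹ * w) = R w := by
      have := hRω (ω⁻¹ * w)
      rw [mul_inv_cancel_left] at this
      exact this.symm
    rw [h2, mem_sphere_iff_norm] at h1
    rw [mem_sphere_iff_norm]
    have h3 : (ω : ℂ) * ((ω⁻¹ * w : Circle) : ℂ) = w := by
      rw [← Circle.coe_mul, mul_inv_cancel_left]
    have h4 : (R w : ℂ) * (w : ℂ) - (ω : ℂ) * a =
        (ω : ℂ) * ((R w : ℂ) * ((ω⁻¹ * w : Circle) : ℂ) - a) := by
      conv_lhs => rw [← h3]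
      ring
    show ‖(R w : ℂ) * (w : ℂ) - (ω : ℂ) * a‖ = s
    rw [h4, norm_mul, Circle.norm_coe, one_mul, h1]
  have ha : a = (ω : ℂ) * a := nc_sphere hs hsub
  have ha0 : a = 0 := by
    by_contra h
    exact hωc (mul_right_cancel₀ h (by rw [← ha, one_mul]))
  have hRs : ∀ w, R w = s := by
    intro w
    have := hmem w
    rw [ha0, mem_sphere_zero_iff_norm, hnorm] at this
    exact this
  have hb := hR 1
  rw [hRs 1] at hb
  obtain ⟨w, hw, hne⟩ := hex s hb.1.le hb.2.1.le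
  apply hne
  obtain ⟨W, hW⟩ : ∃ W : Circle, (W : ℂ) = w := ⟨⟨w, mem_sphere_zero_iff_norm.2 hw⟩, rfl⟩
  have h5 := (hR W).2.2
  rw [hRs, hW] at h5
  exact h5

end Pool.Agent.N742.DR
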