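import Pool.Agent.N742.DR.Stm

/-!
Project DR (helper742), problem MP_d92c84_an: `u` does not vanish identically on a circle about `0`
(helper346).
-/

set_option autoImplicit false

open Set Filter Topology MeasureTheory

namespace Pool.Agent.N742.DR

open Pool.Agent.N229.SC

/-- the maximum principle in a disc -/
private theorem nci_max (f : ℂ → ℂ) (R r M : ℝ) (hr : 0 < r) (hrR : r < R)
    (hf : DifferentiableOn ℂ f (Metric.ball 0 R)) (hb : ∀ z : ℂ, ‖z‖ = r → ‖f z‖ ≤ M) :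
    ∀ z : ℂ, ‖z‖ ≤ r → ‖f z‖ ≤ M := by
  intro z hz
  have h1 : DiffContOnCl ℂ f (Metric.ball 0 r) := by
    refine DifferentiableOn.diffContOnCl ?_
    rw [closure_ball _ hr.ne']
    exact hf.mono (Metric.closedBall_subset_ball hrR)
  refine Complex.norm_le_of_forall_mem_frontier_norm_le Metric.isBounded_ball h1 (C := M) ?_ ?_
  · intro x hx
    rw [frontier_ball _ hr.ne', mem_sphere_zero_iff_norm] at hx
    exact hb x hx
  · rw [closure_ball _ hr.ne', mem_closedBall_zero_iff]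
    exact hz

/-- the series `PP` is holomorphic -/
private theorem nci_diff (p : ℕ → ℂ → ℂ) (e R M : ℝ)
    (hp : ∀ i, DifferentiableOn ℂ (p i) (Metric.ball 0 R))
    (hb : ∀ i, ∀ x ∈ Metric.ball (0 : ℂ) R, ‖p i x‖ ≤ M) :
    DifferentiableOn ℂ (fun x => PP p e x) (Metric.ball 0 R) := by
  unfold PP
  refine Complex.differentiableOn_tsum_of_summable_norm
    (u := fun i : ℕ => |e| ^ i / (i.factorial : ℝ) * M)
    ((Real.summable_pow_div_factorial |e|).mul_right M) (fun i => (hp i).const_mul _)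
    Metric.isOpen_ball ?_
  intro i x hx
  rw [norm_mul, norm_div, norm_pow, Complex.norm_real, Complex.norm_natCast, Real.norm_eq_abs]
  exact mul_le_mul_of_nonneg_left (hb i x hx) (by positivity)

/-- the bound of the series `PP` -/
private theorem nci_bd (p : ℕ → ℂ → ℂ) (e M : ℝ) (x : ℂ) (hb : ∀ i, ‖p i x‖ ≤ M) :
    ‖PP p e x‖ ≤ (∑' i : ℕ, |e| ^ i / (i.factorial : ℝ)) * M := by
  unfold PP
  refine tsum_of_norm_bounded
    ((Real.summable_pow_div_factorial |e|).hasSum.mul_right M) (fun i => ?_)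
  rw [norm_mul, norm_div, norm_pow, Complex.norm_real, Complex.norm_natCast, Real.norm_eq_abs]
  exact mul_le_mul_of_nonneg_left (hb i) (by positivity)

/-- a function of vanishing real part on the circle has vanishing real part in the disc -/
private theorem nci_re (H : ℂ → ℂ) (R r : ℝ) (hr : 0 < r) (hrR : r < R)
    (hH : DifferentiableOn ℂ H (Metric.ball 0 R)) (h0 : ∀ z : ℂ, ‖z‖ = r → (H z).re = 0) :
    ∀ z : ℂ, ‖z‖ ≤ r → (H z).re = 0 := by
  intro z hz
  have h1 := nci_max (fun z => Complex.exp (H z)) R r 1 hr hrR hH.cexp (fun z hz => by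
    rw [Complex.norm_exp, h0 z hz, Real.exp_zero]) z hz
  have h2 := nci_max (fun z => Complex.exp (-H z)) R r 1 hr hrR hH.neg.cexp (fun z hz => by
    rw [Complex.norm_exp, Complex.neg_re, h0 z hz, neg_zero, Real.exp_zero]) z hz
  rw [Complex.norm_exp] at h1 h2
  rw [Complex.neg_re] at h2
  rw [← Real.exp_zero, Real.exp_le_exp] at h1 h2
  linarith

theorem proof_NCI (hGN : S_GN) (hDEC : S_DEC) : S_NCI := by
  intro P X p K hP r hr1 hr2
  by_contra hcon
  push Not at hcon
  have hρ := hP.good.rho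
  have hX := hP.X_pos
  have hr0 : 0 < r := by linarith
  have hrR : r < RP P := by unfold RP; linarith
  have hRP1 : 1 < RP P := by linarith
  have hn : 1 ≤ P.n := by
    by_contra h
    have h1 : P.n = 0 := by omega
    have h2 := hP.good.nu1
    unfold Par.nu at h2
    rw [h1, Nat.cast_zero, zero_div] at h2
    norm_num at h2
  have hgn := (hGN P hP.good hP.bd (r - P.ρ) (by linarith) (by linarith)).1
  rw [add_sub_cancel] at hgn
  obtain ⟨e, he⟩ : ∃ e : ℝ, e = (P.ρ ^ 2 - r ^ 2) / (2 * P.ρ) := ⟨_, rfl⟩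
  obtain ⟨c, hc⟩ : ∃ c : ℝ, c = X * gn P r / r ^ P.n := ⟨_, rfl⟩
  have hc0 : 0 < c := by rw [hc]; positivity
  have hGd := nci_diff p e (RP P) (23 * X ^ 2) hP.p_diff hP.p_bd
  have hHd : DifferentiableOn ℂ (fun x : ℂ => (g0 P r : ℂ) + (c : ℂ) * x ^ P.n + PP p e x)
      (Metric.ball 0 (RP P)) := by
    refine DifferentiableOn.add ?_ hGd
    exact (((differentiable_id.pow P.n).const_mul (c : ℂ)).const_add _).differentiableOn
  have hH0 : ∀ x : ℂ, ‖x‖ = r → ((g0 P r : ℂ) + (c : ℂ) * x ^ P.n + PP p e x).re = 0 := by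
    intro x hx
    obtain ⟨w, hw⟩ : ∃ w : ℂ, w = x / (r : ℂ) := ⟨_, rfl⟩
    have hrc : (r : ℂ) ≠ 0 := by exact_mod_cast hr0.ne'
    have hw1 : ‖w‖ = 1 := by
      rw [hw, norm_div, Complex.norm_real, Real.norm_eq_abs, abs_of_pos hr0, hx, div_self hr0.ne']
    have hxw : x = (r : ℂ) * w := by rw [hw, mul_div_cancel₀ _ hrc]
    have h1 := hDEC P X p K hP r w hr0 hrR hw1
    rw [hcon w hw1] at h1
    have h2 : rem P p ((r : ℂ) * w) = (PP p e x).re := by
      unfold rem UU
      have h3 : eF P.ρ id ((r : ℂ) * w) = e := by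
        unfold eF
        rw [id, norm_mul, hw1, Complex.norm_real, Real.norm_eq_abs, abs_of_pos hr0, mul_one, he]
      rw [h3, hxw]
    have h4 : ((c : ℂ) * x ^ P.n).re = X * gn P r * (w ^ P.n).re := by
      rw [Complex.re_ofReal_mul, hxw, mul_pow, ← Complex.ofReal_pow, Complex.re_ofReal_mul, hc]
      field_simp
    rw [Complex.add_re, Complex.add_re, Complex.ofReal_re, h4, ← h2]
    linarith
  have hH := nci_re _ (RP P) r hr0 hrR hHd hH0
  -- the order of vanishing
  have hs : ∀ i, ∀ x : ℂ, ‖x‖ ≤ 1 → ‖p i x‖ ≤ 23 * X ^ 2 * ‖x‖ ^ (P.n + 1) := by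
    intro i x hx
    obtain ⟨s, hs1, hs2⟩ := hP.p_ord i
    have h1 := nci_max s (RP P) 1 (23 * X ^ 2) one_pos hRP1 hs1 (fun z hz => by
      have hz1 : z ∈ Metric.ball (0 : ℂ) (RP P) := by
        rw [mem_ball_zero_iff, hz]
        exact hRP1
      have h2 := hs2 z hz1
      have h3 := hP.p_bd i z hz1
      rw [h2, norm_mul, norm_pow, hz, one_pow, one_mul] at h3
      exact h3) x hx
    have hx1 : x ∈ Metric.ball (0 : ℂ) (RP P) := by
      rw [mem_ball_zero_iff]
      linarith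
    rw [hs2 x hx1, norm_mul, norm_pow, mul_comm]
    exact mul_le_mul_of_nonneg_right h1 (by positivity)
  obtain ⟨E, hE⟩ : ∃ E : ℝ, E = ∑' i : ℕ, |e| ^ i / (i.factorial : ℝ) := ⟨_, rfl⟩
  have hE0 : 0 ≤ E := by
    rw [hE]
    exact tsum_nonneg fun i => by positivity
  have hG : ∀ x : ℂ, ‖x‖ ≤ 1 → ‖PP p e x‖ ≤ E * (23 * X ^ 2 * ‖x‖ ^ (P.n + 1)) := by
    intro x hx
    rw [hE]
    exact nci_bd p e _ x (fun i => hs i x hx)
  -- the value at zero
  have hg0 : g0 P r = 0 := by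
    have h1 := hH 0 (by rw [norm_zero]; exact hr0.le)
    have h2 := hG 0 (by rw [norm_zero]; exact zero_le_one)
    rw [norm_zero, zero_pow (by omega), mul_zero, mul_zero] at h2
    have h3 : PP p e 0 = 0 := norm_le_zero_iff.1 h2
    simp only [h3, zero_pow (show P.n ≠ 0 by omega), mul_zero, add_zero, Complex.ofReal_re] at h1
    exact h1
  obtain ⟨C, hC⟩ : ∃ C : ℝ, C = E * (23 * X ^ 2) := ⟨_, rfl⟩
  have hC0 : 0 ≤ C := by rw [hC]; positivity
  obtain ⟨t, ht⟩ : ∃ t : ℝ, t = c / (c + C + 1) := ⟨_, rfl⟩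
  have ht0 : 0 < t := by rw [ht]; positivity
  have ht1 : t ≤ 1 := by
    rw [ht, div_le_one (by positivity)]
    linarith
  have hnt : ‖(t : ℂ)‖ = t := by rw [Complex.norm_real, Real.norm_eq_abs, abs_of_pos ht0]
  have h1 := hH (t : ℂ) (by rw [hnt]; linarith)
  have h2 := hG (t : ℂ) (by rw [hnt]; exact ht1)
  rw [hnt] at h2
  have h3 : ((c : ℂ) * (t : ℂ) ^ P.n).re = c * t ^ P.n := by
    rw [← Complex.ofReal_pow, ← Complex.ofReal_mul, Complex.ofReal_re]
  simp only [Complex.add_re, Complex.ofReal_re, hg0, h3] at h1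
  have h4 := Complex.abs_re_le_norm (PP p e (t : ℂ))
  have h5 := neg_abs_le (PP p e (t : ℂ)).re
  have h6 : c * t ^ P.n ≤ C * t * t ^ P.n := by
    have h7 : E * (23 * X ^ 2 * t ^ (P.n + 1)) = C * t * t ^ P.n := by rw [hC]; ring
    linarith
  have h7 : c ≤ C * t := le_of_mul_le_mul_right h6 (by positivity)
  have h8 : C * t < c := by
    rw [ht, mul_div_assoc', div_lt_iff₀ (by positivity)]
    nlinarith
  linarith

end Pool.Agent.N742.DR
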