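import Pool.Agent.N742.DR.Stm

/-!
Project DR (helper742), problem MP_d92c84_an: existence of the data in the physical plane.
-/

set_option autoImplicit false

open Set Filter Topology

namespace Pool.Agent.N742.DR

open Pool.Agent.N229.SC

theorem proof_PHE (hNUM : S_NUM) (hEXI5 : S_EXI5) (hITR : S_ITR) (hTPH : S_TPH) : S_PHE := by
  obtain ⟨P, hG, hbd⟩ := hNUM
  obtain ⟨X, h, v, y, hX0, hX1, hX2, hsol, hO, hX3⟩ := hEXI5 P hG
  have hfull : Full P X h v y := ⟨hG, hbd, hX0, hX2, hsol, hO, hX3⟩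
  have hd5 : D5 X h v y := hITR P X h v y hG hX0 hX1 hX2 hsol
  obtain ⟨p, K, hPH⟩ := hTPH P X h v y ⟨hfull, hd5⟩
  exact ⟨P, X, p, K, hPH⟩

end Pool.Agent.N742.DR
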