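import Pool.Agent.N742.DR.Stm

/-!
Project DR (helper742), problem MP_d92c84_an: part QF5 (helper765), the functions `Q_i` on the large
disc.
-/

set_option autoImplicit false

open Set Filter Topology

namespace Pool.Agent.N742.DR

open Pool.Agent.N229.SC

private theorem qf5_bd (hWG : S_WG) (hBD1 : S_BD1) (hBD2 : S_BD2) (hSB1 : S_SB1) (P : Par) (X : ℝ)
    (h v : W) (y : ℕ → A) (hB : Big P X h v y) (i : ℕ) : Bd w5 (qq P h v y i) (23 * X ^ 2) := by
  have hF := hB.full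
  have hX0 := hF.X_pos
  have hX1 := hF.X_le
  obtain ⟨W5, U5, -, -, -⟩ := hWG
  obtain ⟨-, -, mW, -⟩ := hBD1 wW w5 W5
  obtain ⟨aU, -, -, -, oU, -⟩ := hBD1 wA u5 U5
  obtain ⟨D1, D2⟩ := hBD2
  have hX2 : 0 ≤ X ^ 2 := sq_nonneg X
  cases i with
  | zero =>
    obtain ⟨-, b2, -⟩ := hSB1 P X h hF.good hX0 hX1 hB.d5.bh
    have h1 : Bd u5 (inc v) (4 / 5 * (44 * X ^ 2)) := (D1 v _ hB.d5.bv).2.2.2.2.2.2 hF.sol.hv
    have h2 := (aU _ _ _ _ oU b2).1
    have h3 := (aU _ _ _ _ h2 h1).2.2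
    have h4 := (D2 P.n 0 _ _ h3).1
    refine mW _ _ _ h4 ?_
    nlinarith [mul_nonneg hX2 (sub_nonneg.2 hX1)]
  | succ i =>
    have h4 := (D2 P.n (i + 1) _ _ (hB.d5.by_ i)).1
    refine mW _ _ _ h4 ?_
    linarith

/-- Part QF5: the functions `Q_i` on the large disc. -/
theorem proof_QF5 (_hA1 : S_A1) (_hA2 : S_A2) (hAB : S_AB) (hB2 : S_B2) (hFN3 : S_FN3)
    (hWG : S_WG) (hBD1 : S_BD1) (hBD2 : S_BD2) (hSB1 : S_SB1) (hEV5 : S_EV5) (hCF5 : S_CF5) :
    S_QF5 := by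
  intro P X h v y hB
  have hF := hB.full
  have hG := hF.good
  have hX0 := hF.X_pos
  have hX1 := hF.X_le
  obtain ⟨-, -, -, -, -, -, hn⟩ := hAB P hG
  have hn0 : P.n ≠ 0 := by
    rintro h0
    rw [h0] at hn
    norm_num at hn
  have hbd := qf5_bd hWG hBD1 hBD2 hSB1 P X h v y hB
  have hle : ∀ j, u5 j ≤ w5 j := hWG.2.2.2.2
  obtain ⟨E1, -, E3⟩ := hEV5
  obtain ⟨hconf, hC2, -⟩ := hCF5 P X h v y hB
  have hmaps : MapsTo (fun z : ℂ => z ^ P.n) (Metric.ball 0 (r5 P)) (Metric.ball 0 5) :=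
    fun z hz => (hC2 z hz).1
  have hd : ∀ i, DifferentiableOn ℂ (fun z : ℂ => evh (qq P h v y i) (z ^ P.n))
      (Metric.ball 0 (r5 P)) := fun i =>
    (E1 wW w5 (qq P h v y i) _ hle (hbd i)).1.comp (differentiable_pow P.n).differentiableOn hmaps
  have hdom : Dom X h v y := ⟨hF.sol.hc, hF.sol.hv, hF.sol.hy, hF.sol.nh, hF.sol.nv, hF.sol.ny⟩
  obtain ⟨hsup, -⟩ := hB2 P hG X h v y hX0 hX1 hdom
  refine ⟨hd, ?_, ?_, ?_⟩
  · intro i z hz
    exact (E1 wW w5 (qq P h v y i) _ hle (hbd i)).2 _ (hmaps hz)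
  · intro i
    obtain ⟨s, hs1, hs2⟩ := E3 (qq P h v y i) _ 2 (hbd i) (by
      intro j hj
      exact hsup i j (by exact_mod_cast hj))
    refine ⟨fun z => z ^ (P.n - 1) * s (z ^ P.n), ?_, ?_⟩
    · exact (differentiable_pow (P.n - 1)).differentiableOn.mul
        (hs1.comp (differentiable_pow P.n).differentiableOn hmaps)
    · intro z hz
      rw [hs2 _ (hmaps hz), ← mul_assoc, ← pow_add, ← pow_mul]
      congr 2
      omega
  · intro i
    have hopen : IsOpen (Metric.ball (0 : ℂ) (r5 P)) := Metric.isOpen_ball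
    have hf : DifferentiableOn ℂ (fF P h) (Metric.ball 0 (r5 P)) := hconf.f_diff
    have hfd : DifferentiableOn ℂ (deriv (fF P h)) (Metric.ball 0 (r5 P)) := hf.deriv hopen
    have hfp : DifferentiableOn ℂ (fun z : ℂ => (fF P h z / P.ρ) ^ P.n) (Metric.ball 0 (r5 P)) :=
      (hf.div_const _).pow P.n
    have hQ : ∀ i, DifferentiableOn ℂ (QF P X h v y i) (Metric.ball 0 (r5 P)) := by
      intro i
      cases i with
      | zero => exact ((hfp.const_mul _).const_add _).add (hd _)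
      | succ i => exact ((hfp.const_mul _).const_add _).add (hd _)
    have hL : DifferentiableOn ℂ (fun z : ℂ => fF P h z * deriv (QF P X h v y (i + 1)) z +
        (i + 1) * (deriv (fF P h) z * QF P X h v y (i + 1) z)) (Metric.ball 0 (r5 P)) :=
      (hf.mul ((hQ (i + 1)).deriv hopen)).add ((hfd.mul (hQ (i + 1))).const_mul _)
    have hR : DifferentiableOn ℂ (fun z : ℂ => P.ρ / 2 * (deriv (fF P h) z *
        (QF P X h v y i z + QF P X h v y (i + 2) z))) (Metric.ball 0 (r5 P)) :=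
      (hfd.mul ((hQ i).add (hQ (i + 2)))).const_mul _
    have hr0 : 0 < r5 P := by
      unfold r5
      positivity
    have hrF : 0 < rF P := by
      unfold rF
      exact Real.rpow_pos_of_pos (lt_of_lt_of_le one_pos one_le_Rad) _
    have hev : (fun z : ℂ => fF P h z * deriv (QF P X h v y (i + 1)) z +
        (i + 1) * (deriv (fF P h) z * QF P X h v y (i + 1) z)) =ᶠ[𝓝 (0 : ℂ)]
        (fun z : ℂ => P.ρ / 2 * (deriv (fF P h) z *
        (QF P X h v y i z + QF P X h v y (i + 2) z))) := by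
      filter_upwards [Metric.ball_mem_nhds (0 : ℂ) hrF] with z hz
      exact hFN3 P X h v y hF i z hz
    have key := (hL.analyticOnNhd hopen).eqOn_of_preconnected_of_eventuallyEq
      (hR.analyticOnNhd hopen) (convex_ball (0 : ℂ) (r5 P)).isPreconnected
      (Metric.mem_ball_self hr0) hev
    intro z hz
    exact key hz

end Pool.Agent.N742.DR
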