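import Pool.Agent.N742.DR.Stm

/-! Project DR, part REM: estimates of the remainder (helper588). -/

set_option autoImplicit false

open Set Filter Topology MeasureTheory

namespace Pool.Agent.N742.DR

open Pool.Agent.N229.SC

private theorem rem_exp_two : Real.exp 2 ≤ 8 := by
  have h1 := Real.exp_one_lt_d9
  have h2 : Real.exp 2 = Real.exp 1 * Real.exp 1 := by rw [← Real.exp_add]; norm_num
  rw [h2]
  have h3 := Real.exp_pos 1
  nlinarith

private theorem rem_PP_le {Q : ℕ → ℂ → ℂ} {e M : ℝ} {z : ℂ} (hM : 0 ≤ M) (h : ∀ i, ‖Q i z‖ ≤ M)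
    (he : |e| ≤ 2) : ‖PP Q e z‖ ≤ 8 * M := by
  have h1 : HasSum (fun i : ℕ => |e| ^ i / (i.factorial : ℝ) * M) (Real.exp |e| * M) := by
    have h2 := NormedSpace.expSeries_div_hasSum_exp (𝔸 := ℝ) |e|
    rw [← Real.exp_eq_exp_ℝ] at h2
    exact h2.mul_right M
  have h3 : ‖PP Q e z‖ ≤ Real.exp |e| * M := by
    refine tsum_of_norm_bounded h1 fun i => ?_
    rw [norm_mul, norm_div, norm_pow, Complex.norm_real, Complex.norm_natCast, Real.norm_eq_abs]
    exact mul_le_mul_of_nonneg_left (h i) (by positivity)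
  refine h3.trans (mul_le_mul_of_nonneg_right ?_ hM)
  exact (Real.exp_le_exp.2 he).trans rem_exp_two

theorem proof_REM (hPSM : S_PSM) : S_REM := by
  intro P X p K hPH r w hr1 hr2 hw
  have hρ := hPH.good.rho
  have hρ0 : 0 < P.ρ := by linarith
  have hr0 : 0 < r := by linarith
  have hX0 := hPH.X_pos
  have hX1 := hPH.X_le
  have hX2 : X ^ 2 ≤ 9 / 10 ^ 8 := by nlinarith
  have hM0 : 0 ≤ 23 * X ^ 2 := by positivity
  have hnorm : ∀ t : ℝ, ‖((t : ℂ) * w)‖ ^ 2 = t ^ 2 := by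
    intro t
    rw [norm_mul, hw, mul_one, Complex.norm_real, Real.norm_eq_abs, sq_abs]
  have hnr : ‖((r : ℂ) * w)‖ = r := by
    rw [norm_mul, hw, mul_one, Complex.norm_real, Real.norm_eq_abs, abs_of_pos hr0]
  have hmem : (r : ℂ) * w ∈ Metric.ball (0 : ℂ) (RP P) := by
    rw [mem_ball_zero_iff, hnr]
    unfold RP
    linarith
  set e : ℝ := (P.ρ ^ 2 - r ^ 2) / (2 * P.ρ) with he
  have he2 : |e| ≤ 2 := by
    rw [he, abs_le, le_div_iff₀ (by linarith), div_le_iff₀ (by linarith)]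
    constructor <;> nlinarith
  have hfun : ∀ t : ℝ, rem P p ((t : ℂ) * w) =
      (PP p ((P.ρ ^ 2 - t ^ 2) / (2 * P.ρ)) ((t : ℂ) * w)).re := by
    intro t
    show (PP p (eF P.ρ id ((t : ℂ) * w)) ((t : ℂ) * w)).re = _
    unfold eF
    simp only [id]
    rw [hnorm]
  have hb0 : ‖PP p e ((r : ℂ) * w)‖ ≤ 8 * (23 * X ^ 2) :=
    rem_PP_le hM0 (fun i => hPH.p_bd i _ hmem) he2
  have hb1 : ‖PP (fun i => p (i + 1)) e ((r : ℂ) * w)‖ ≤ 8 * (23 * X ^ 2) :=
    rem_PP_le hM0 (fun i => hPH.p_bd (i + 1) _ hmem) he2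
  have hb2 : ‖PP (fun i => deriv (p i)) e ((r : ℂ) * w)‖ ≤ 8 * (23 * X ^ 2 / (19 / 100)) := by
    refine rem_PP_le (by positivity) (fun i => ?_) he2
    have hsub : Metric.closedBall ((r : ℂ) * w) (19 / 100) ⊆ Metric.ball (0 : ℂ) (RP P) := by
      intro z hz
      rw [Metric.mem_closedBall, dist_eq_norm] at hz
      rw [mem_ball_zero_iff]
      have h1 : ‖z‖ ≤ ‖z - (r : ℂ) * w‖ + ‖(r : ℂ) * w‖ := by
        have := norm_add_le (z - (r : ℂ) * w) ((r : ℂ) * w)
        rwa [sub_add_cancel] at this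
      rw [hnr] at h1
      unfold RP
      linarith
    refine Complex.norm_deriv_le_of_forall_mem_sphere_norm_le (by norm_num) ?_ ?_
    · refine DifferentiableOn.diffContOnCl ((hPH.p_diff i).mono ?_)
      rw [closure_ball _ (by norm_num)]
      exact hsub
    · intro z hz
      exact hPH.p_bd i z (hsub (Metric.sphere_subset_closedBall hz))
  refine ⟨?_, ?_⟩
  · rw [hfun]
    refine (Complex.abs_re_le_norm _).trans (hb0.trans ?_)
    linarith
  · have hF := (hPSM (RP P) p (by unfold RP; linarith) hPH.p_diff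
      ⟨23 * X ^ 2, fun i z hz => hPH.p_bd i z hz⟩).1 e ((r : ℂ) * w) hmem
    have hc1 : HasDerivAt (fun t : ℝ => (P.ρ ^ 2 - t ^ 2) / (2 * P.ρ)) (-(r / P.ρ)) r := by
      have h1 : HasDerivAt (fun t : ℝ => t ^ 2) (2 * r) r := by simpa using hasDerivAt_pow 2 r
      have h2 := (h1.const_sub (P.ρ ^ 2)).div_const (2 * P.ρ)
      have h3 : -(r / P.ρ) = -(2 * r) / (2 * P.ρ) := by
        rw [neg_div, mul_div_mul_left _ _ (two_ne_zero)]
      rw [h3]
      exact h2
    have hc2 : HasDerivAt (fun t : ℝ => (t : ℂ) * w) w r := by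
      have h1 := (Complex.ofRealCLM.hasDerivAt (x := r)).mul_const w
      simpa using h1
    have hc : HasDerivAt (fun t : ℝ => ((P.ρ ^ 2 - t ^ 2) / (2 * P.ρ), (t : ℂ) * w))
        (-(r / P.ρ), w) r := hc1.prodMk hc2
    have hG : HasDerivAt (fun t : ℝ => PP p ((P.ρ ^ 2 - t ^ 2) / (2 * P.ρ)) ((t : ℂ) * w))
        ((-(r / P.ρ)) • PP (fun i => p (i + 1)) e ((r : ℂ) * w) +
          PP (fun i => deriv (p i)) e ((r : ℂ) * w) * w) r := by
      have h1 := HasFDerivAt.comp_hasDerivAt (x := r)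
        (f := fun t : ℝ => ((P.ρ ^ 2 - t ^ 2) / (2 * P.ρ), (t : ℂ) * w)) hF hc
      have h2 : ((ContinuousLinearMap.fst ℝ ℝ ℂ).smulRight
          (PP (fun i => p (i + 1)) e ((r : ℂ) * w)) +
          (ContinuousLinearMap.mul ℝ ℂ (PP (fun i => deriv (p i)) e ((r : ℂ) * w))).comp
            (ContinuousLinearMap.snd ℝ ℝ ℂ)) (-(r / P.ρ), w) =
          (-(r / P.ρ)) • PP (fun i => p (i + 1)) e ((r : ℂ) * w) +
          PP (fun i => deriv (p i)) e ((r : ℂ) * w) * w := by simp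
      rw [← h2]
      exact h1
    have hR := (Complex.reCLM.hasFDerivAt (x := PP p ((P.ρ ^ 2 - r ^ 2) / (2 * P.ρ))
      ((r : ℂ) * w))).comp_hasDerivAt r hG
    have hR' : HasDerivAt (fun t : ℝ => rem P p ((t : ℂ) * w))
        (((-(r / P.ρ)) • PP (fun i => p (i + 1)) e ((r : ℂ) * w) +
          PP (fun i => deriv (p i)) e ((r : ℂ) * w) * w)).re r := by
      have e1 : (fun t : ℝ => rem P p ((t : ℂ) * w)) =
          fun t : ℝ => (PP p ((P.ρ ^ 2 - t ^ 2) / (2 * P.ρ)) ((t : ℂ) * w)).re := funext hfun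
      rw [e1]
      exact hR
    refine ⟨hR'.differentiableAt, ?_⟩
    rw [hR'.deriv]
    refine (Complex.abs_re_le_norm _).trans ((norm_add_le _ _).trans ?_)
    rw [norm_smul, norm_neg, norm_mul, hw, mul_one, Real.norm_eq_abs, abs_of_pos (by positivity)]
    have h1 : r / P.ρ ≤ 2 := by
      rw [div_le_iff₀ hρ0]
      linarith
    have h2 : r / P.ρ * ‖PP (fun i => p (i + 1)) e ((r : ℂ) * w)‖ ≤ 2 * (8 * (23 * X ^ 2)) :=
      mul_le_mul h1 hb1 (norm_nonneg _) (by norm_num)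
    linarith

end Pool.Agent.N742.DR
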