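import Pool.Agent.N742.DR.Stm

/-!
Project DR (helper742), part SB2 (helper866): bounds of the functions `q_i`, `v_i`, `V_i`, `Q_i` in the
weight `5 ^ |j|`.
-/

set_option autoImplicit false

open Set Filter Topology

namespace Pool.Agent.N742.DR

open Pool.Agent.N229.SC

private lemma sb2_pow1 (i : ℕ) : (3 / 2 : ℝ) ^ i * ((i : ℝ) + 1) ≤ 3 ^ i := by
  have h : ((i : ℝ) + 1) ≤ 2 ^ i := by
    have h : i + 1 ≤ 2 ^ i := Nat.lt_two_pow_self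
    exact_mod_cast h
  calc (3 / 2 : ℝ) ^ i * ((i : ℝ) + 1) ≤ (3 / 2) ^ i * 2 ^ i := by gcongr
    _ = 3 ^ i := by rw [← mul_pow]; norm_num

private lemma sb2_pow2 (i : ℕ) (hi : 1 ≤ i) : (3 / 2 : ℝ) ^ i ≤ 1 / 2 * 3 ^ i := by
  have h1 := sb2_pow1 i
  have h2 : (1 : ℝ) ≤ i := by exact_mod_cast hi
  have h3 : (0 : ℝ) < (3 / 2) ^ i := by positivity
  nlinarith

private lemma sb2_pow3 (i : ℕ) (hi : 2 ≤ i) : (3 / 2 : ℝ) ^ i ≤ 1 / 3 * 3 ^ i := by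
  have h1 := sb2_pow1 i
  have h2 : (2 : ℝ) ≤ i := by exact_mod_cast hi
  have h3 : (0 : ℝ) < (3 / 2) ^ i := by positivity
  nlinarith

private lemma sb2_F1 (i : ℕ) : (1 : ℝ) ≤ 3 ^ i * i.factorial := by
  have h1 : (1 : ℝ) ≤ 3 ^ i := one_le_pow₀ (by norm_num)
  have h2 : (1 : ℝ) ≤ i.factorial := by exact_mod_cast Nat.succ_le_of_lt (Nat.factorial_pos i)
  exact one_le_mul_of_one_le_of_one_le h1 h2

private lemma sb2_F2 (i : ℕ) : (i : ℝ) + 1 ≤ 3 ^ (i + 1) * (i + 1).factorial := by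
  have h1 : (1 : ℝ) ≤ 3 ^ (i + 1) := one_le_pow₀ (by norm_num)
  have h2 : (i : ℝ) + 1 ≤ (i + 1).factorial := by
    exact_mod_cast Nat.self_le_factorial (i + 1)
  have h3 : (0 : ℝ) ≤ (i + 1).factorial := Nat.cast_nonneg _
  nlinarith

theorem proof_SB2 (_hA1 : S_A1) (_hA2 : S_A2) (hAB : S_AB) (hWG : S_WG) (hBD1 : S_BD1)
    (hBD2 : S_BD2) (hSB1 : S_SB1) : S_SB2 := by
  intro P X h v y hP hX0 hsq hX1 hD h5
  obtain ⟨hw5, hu5, -, -, -⟩ := hWG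
  obtain ⟨c1, c2, c3, -, c5, -⟩ := hBD1 wW w5 hw5
  obtain ⟨e1, -, e3, -, e5, -⟩ := hBD1 wA u5 hu5
  obtain ⟨f1, f2⟩ := hBD2
  obtain ⟨ha, hb, -, -, -, -, hn⟩ := hAB P hP
  obtain ⟨-, hbeta, htau, -⟩ := hSB1 P X h hP hX0 hX1 h5.bh
  have hnu1 := hP.nu1
  have hnu0 : 0 < P.nu := by linarith
  have hn0 : (0 : ℝ) < P.n := by linarith
  have hinv : |1 / (2 * P.nu)| ≤ 5 / 8 := by
    rw [abs_of_pos (by positivity), div_le_iff₀ (by linarith)]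
    linarith
  have hX2 : 0 < X ^ 2 := by positivity
  have hX3 : X ^ 2 ≤ 3 / 10 ^ 4 * X := by nlinarith
  have hX4 : X * X ^ 2 ≤ 3 / 10 ^ 4 * X ^ 2 := mul_le_mul_of_nonneg_right hX1 hX2.le
  have hu : Bd u5 ((1 + beta P h) * inc v) ((1 + 46 * X) * (4 / 5 * (44 * X ^ 2))) :=
    (e1 _ _ _ _ (e1 _ _ _ _ e5 hbeta).1 ((f1 v _ h5.bv).2.2.2.2.2.2 hD.hv)).2.2
  have q0 : Bd w5 (qq P h v y 0) (223 / 10 * X ^ 2 + X ^ 2 / 50) :=
    c3 _ _ _ (f2 P.n 0 _ _ hu).1 (by nlinarith)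
  have q0' : Bd u5 (inc (qq P h v y 0)) (179 / 10 * X ^ 2) :=
    e3 _ _ _ (f2 P.n 0 _ _ hu).2.1 (by nlinarith)
  have qi : ∀ i, Bd w5 (qq P h v y (i + 1)) (45 / 4 * X ^ 2) := fun i =>
    c3 _ _ _ (f2 P.n (i + 1) _ _ (h5.by_ i)).1 (by linarith)
  have qi' : ∀ i, Bd u5 (inc (qq P h v y (i + 1))) (9 * X ^ 2) := fun i =>
    e3 _ _ _ (f2 P.n (i + 1) _ _ (h5.by_ i)).2.1 (by linarith)
  have qa : ∀ i, Bd w5 (qq P h v y i) (223 / 10 * X ^ 2 + X ^ 2 / 50) := by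
    intro i
    cases i with
    | zero => exact q0
    | succ i => exact c3 _ _ _ (qi i) (by linarith)
  -- the functions `v_i`
  have hvv : ∀ i : ℕ, Bd w5 (vv P h v y (i + 1)) (21 * X ^ 2 * ((i : ℝ) + 1)) := by
    intro i
    have hi : (0 : ℝ) ≤ i := Nat.cast_nonneg i
    have h1 := (c2 _ _ (1 / (2 * P.nu)) (c1 _ _ _ _ (qa i) (qi (i + 1))).1).2.2
    have h2 := (c2 _ _ (((i : ℝ) + 1) / P.n) (qi i)).2.2
    refine c3 _ _ _ (c1 _ _ _ _ h1 h2).2.1 ?_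
    have h3 : |((i : ℝ) + 1) / P.n| ≤ ((i : ℝ) + 1) / 8000 := by
      rw [abs_of_nonneg (by positivity)]
      exact div_le_div_of_nonneg_left (by positivity) (by norm_num) hn
    have h4 : |1 / (2 * P.nu)| * (223 / 10 * X ^ 2 + X ^ 2 / 50 + 45 / 4 * X ^ 2) ≤
        5 / 8 * (223 / 10 * X ^ 2 + X ^ 2 / 50 + 45 / 4 * X ^ 2) :=
      mul_le_mul_of_nonneg_right hinv (by positivity)
    have h6 : |((i : ℝ) + 1) / P.n| * (45 / 4 * X ^ 2) ≤ ((i : ℝ) + 1) / 8000 * (45 / 4 * X ^ 2) :=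
      mul_le_mul_of_nonneg_right h3 (by positivity)
    have h7 : 0 ≤ X ^ 2 * (i : ℝ) := mul_nonneg hX2.le hi
    nlinarith
  have hv1 : Bd w5 (vv P h v y 1) (21 * X ^ 2) := by
    refine c3 _ _ _ (hvv 0) ?_
    rw [Nat.cast_zero]
    linarith
  -- the sequences
  have ha0 : |P.a 0| ≤ X ^ 2 := by
    rw [abs_of_nonneg (by linarith [hP.a0])]
    exact (Real.sqrt_le_iff.1 hsq).2
  have ha' : ∀ i, 1 ≤ i → |P.a i| ≤ 1 / 3 * (3 ^ i * i.factorial) := by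
    intro i hi
    rcases Nat.lt_or_ge i 2 with h0 | h0
    · obtain rfl : i = 1 := by omega
      rw [hP.a1]
      norm_num
    · refine (ha i).trans ?_
      have h1 := sb2_pow3 i h0
      have h2 : (0 : ℝ) ≤ i.factorial := Nat.cast_nonneg _
      nlinarith
  have hb' : ∀ i, |P.b i| ≤ 1 / 2 * (3 ^ i * i.factorial) := by
    intro i
    rcases Nat.eq_zero_or_pos i with h0 | h0
    · subst h0
      have h1 := hP.b0
      simp only [pow_zero, Nat.factorial_zero, Nat.cast_one]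
      linarith
    · refine (hb i).trans ?_
      have h1 := sb2_pow2 i h0
      have h2 : (0 : ℝ) ≤ i.factorial := Nat.cast_nonneg _
      nlinarith
  have ha1 : ∀ i, |P.a (i + 1)| ≤ 3 / 2 * (3 ^ i * i.factorial) := by
    intro i
    refine (ha (i + 1)).trans ?_
    have h1 := sb2_pow1 i
    have h2 : (0 : ℝ) ≤ i.factorial := Nat.cast_nonneg _
    rw [Nat.factorial_succ, pow_succ]
    push_cast
    have h3 : (3 / 2 : ℝ) ^ i * ((i : ℝ) + 1) * i.factorial ≤ 3 ^ i * i.factorial :=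
      mul_le_mul_of_nonneg_right h1 h2
    linarith
  have hsm : ∀ (r m : ℝ), |r| ≤ m → Bd w5 ((X * r) • tau P h) (X * m * (141 / 25)) := by
    intro r m hr
    refine c3 _ _ _ (c2 _ _ (X * r) htau).2.2 ?_
    rw [abs_mul, abs_of_pos hX0]
    exact mul_le_mul_of_nonneg_right (mul_le_mul_of_nonneg_left hr hX0.le) (by norm_num)
  have hV0 : Bd w5 (Vh P X h v y 0) (441 / 10 * X ^ 2) := by
    refine c3 _ _ _ (c1 _ _ _ _ (hsm _ _ ha0) h5.bv).1 ?_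
    linarith
  refine ⟨q0, q0', qi, qi', hv1, hV0, ?_, ?_⟩
  · intro i
    rcases Nat.eq_zero_or_pos i with h0 | h0
    · subst h0
      refine c3 _ _ _ hV0 ?_
      simp only [pow_zero, Nat.factorial_zero, Nat.cast_one]
      nlinarith
    · obtain ⟨k, rfl⟩ : ∃ k, i = k + 1 := ⟨i - 1, by omega⟩
      refine c3 _ _ _ (c1 _ _ _ _ (hsm _ _ (ha' _ h0)) (hvv k)).1 ?_
      have h1 := sb2_F2 k
      generalize (3 ^ (k + 1) * ((k + 1).factorial : ℝ)) = F at *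
      have hk : (0 : ℝ) ≤ k := Nat.cast_nonneg k
      have h2 : 21 * X ^ 2 * ((k : ℝ) + 1) ≤ 21 * X ^ 2 * F :=
        mul_le_mul_of_nonneg_left h1 (by positivity)
      have h3 : X ^ 2 * F ≤ 3 / 10 ^ 4 * X * F := mul_le_mul_of_nonneg_right hX3 (by linarith)
      have h4 : 0 ≤ X * F := mul_nonneg hX0.le (by linarith)
      linarith
  · intro i
    have h1 := (c2 _ _ (P.b i) c5).2.2
    refine c3 _ _ _ (c1 _ _ _ _ (c1 _ _ _ _ h1 (hsm _ _ (ha1 i))).1 (qi i)).1 ?_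
    have h2 := hb' i
    have h3 := sb2_F1 i
    generalize (3 ^ i * (i.factorial : ℝ)) = F at *
    have h4 : X * F ≤ 3 / 10 ^ 4 * F := mul_le_mul_of_nonneg_right hX1 (by linarith)
    nlinarith

end Pool.Agent.N742.DR
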