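import Pool.Agent.N742.DR.Stm

/-!
Project DR (helper742), part SHH: the new `h` in the larger weight (helper702).
-/

set_option autoImplicit false

open Set Filter Topology MeasureTheory

namespace Pool.Agent.N742.DR

open Pool.Agent.N229.SC

theorem proof_SHH (hA1 : S_A1) (hA2 : S_A2) (hAB : S_AB) (hB1 : S_B1) (hWG : S_WG) (hBD1 : S_BD1)
    (hBD2 : S_BD2) (hBD3 : S_BD3) (hSB1 : S_SB1) (hSB2 : S_SB2) (hSVV : S_SVV) : S_SHH := by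
  intro P X h v y hP hX haX hX3 hD hD5
  obtain ⟨bar, bsc, bmo, -, b1, -, -, -, -, -⟩ := hBD1 wW w5 hWG.1
  obtain ⟨-, -, hta, hY, hxi, hxh⟩ := hSB1 P X h hP hX hX3 hD5.bh
  obtain ⟨-, -, hq, -, -, hV0, -, hQh⟩ := hSB2 P X h v y hP hX haX hX3 hD hD5
  obtain ⟨hTV, -⟩ := hSVV P X h v y hP hX haX hX3 hD hD5
  obtain ⟨-, -, ha2, hb2, ha3, -, -⟩ := hAB P hP
  have hcx : conj (xi P h) = xi P h := by
    refine ((hB1 P hP h ?_).2.1 hD.hc).1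
    refine hD.nh.trans ?_
    linarith
  have bconj : ∀ (a : W) (M : ℝ), Bd w5 a M → Bd w5 (conj a) M := fun a M hb => ((hBD2.1 a M hb).2.1)
  obtain ⟨T, hT⟩ : ∃ T : W, T = TT (xi P h) (Vh P X h v y) := ⟨_, rfl⟩
  obtain ⟨Q, hQ⟩ : ∃ Q : W, Q = TT (xi P h) (Qh P X h v y) := ⟨_, rfl⟩
  obtain ⟨τ, hτ⟩ : ∃ τ : W, τ = tau P h := ⟨_, rfl⟩
  obtain ⟨ξ, hξ⟩ : ∃ ξ : W, ξ = xi P h := ⟨_, rfl⟩
  obtain ⟨Y, hYd⟩ : ∃ Y : W, Y = YY P h - 1 := ⟨_, rfl⟩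
  obtain ⟨q1, hq1⟩ : ∃ q : W, q = qq P h v y 1 := ⟨_, rfl⟩
  obtain ⟨q2, hq2⟩ : ∃ q : W, q = qq P h v y 2 := ⟨_, rfl⟩
  obtain ⟨q3, hq3⟩ : ∃ q : W, q = qq P h v y 3 := ⟨_, rfl⟩
  obtain ⟨G, hG⟩ : ∃ G : W, G = Qh P X h v y 2 := ⟨_, rfl⟩
  have hX2 : 0 < X ^ 2 := by positivity
  have ha0 : 1 / 10 ^ 9 ≤ X ^ 2 := by
    have h1 := hP.a0
    have h2 : P.a 0 ≤ X ^ 2 := by
      have h3 : 0 ≤ P.a 0 := le_trans (by norm_num) h1
      calc P.a 0 = Real.sqrt (P.a 0) ^ 2 := (Real.sq_sqrt h3).symm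
        _ ≤ X ^ 2 := by
          have := Real.sqrt_nonneg (P.a 0)
          gcongr
    exact h1.trans h2
  -- the bound of `T`
  have hTb : Bd w5 T (841 / 10 * X ^ 2) := by
    have h1 := (bar _ _ _ _ hTV hV0).1
    rw [sub_add_cancel, ← hT] at h1
    exact bmo _ _ _ h1 (by nlinarith)
  -- the remainder
  obtain ⟨R, hR⟩ : ∃ R : W, R = Q - (Qh P X h v y 0 - ξ * Qh P X h v y 1 + (1 / 2 : ℝ) • (ξ ^ 2 * G)) := ⟨_, rfl⟩
  have hRb : Bd w5 R (10 / 9 * (101 / 100) * (3 * (7001 / 1000 * X)) ^ 3) := by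
    have h1 := hBD3.2 (xi P h) (Qh P X h v y) (101 / 100) (7001 / 1000 * X) hQh hxi (by linarith) 3
    have h2 : ∑ i ∈ Finset.range 3, ((-1) ^ i * (i.factorial : ℝ)⁻¹) • (xi P h ^ i * Qh P X h v y i) =
        Qh P X h v y 0 - ξ * Qh P X h v y 1 + (1 / 2 : ℝ) • (ξ ^ 2 * G) := by
      rw [Finset.sum_range_succ, Finset.sum_range_succ, Finset.sum_range_succ, Finset.sum_range_zero, hξ, hG]
      simp only [pow_zero, Nat.factorial_zero, Nat.cast_one, inv_one, mul_one, one_smul, one_mul, pow_one,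
        Nat.factorial_one, neg_smul, Nat.factorial_two, zero_add]
      norm_num
      abel
    rw [h2, ← hQ, ← hR] at h1
    exact h1
  -- the error term
  obtain ⟨E, hE⟩ : ∃ E : W, E = P.b 0 • (1 : W) + q1 - ξ * ((X * P.a 2) • τ + q2) + (1 / 2 : ℝ) • (ξ ^ 2 * G) + R :=
    ⟨_, rfl⟩
  have hQE : Q = -(X • τ) + ξ + E := by
    have e0 : Qh P X h v y 0 = P.b 0 • (1 : W) - X • τ + q1 := by
      show P.b 0 • (1 : W) + (X * P.a (0 + 1)) • tau P h + qq P h v y (0 + 1) = _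
      rw [zero_add, hP.a1, hτ, hq1]
      module
    have e1 : Qh P X h v y 1 = -(1 : W) + ((X * P.a 2) • τ + q2) := by
      show P.b 1 • (1 : W) + (X * P.a (1 + 1)) • tau P h + qq P h v y (1 + 1) = _
      rw [hP.b1, hτ, hq2]
      module
    have e2 : Q = R + (Qh P X h v y 0 - ξ * Qh P X h v y 1 + (1 / 2 : ℝ) • (ξ ^ 2 * G)) := by
      rw [hR]; abel
    rw [e2, e0, e1, hE]
    have e3 : ξ * (-(1 : W) + ((X * P.a 2) • τ + q2)) = -ξ + ξ * ((X * P.a 2) • τ + q2) := by ring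
    rw [e3]
    abel
  have hν : P.nu ≤ 41 / 50 := hP.nu2
  have hν0 : 0 ≤ P.nu := le_trans (by norm_num) hP.nu1
  have hξb : Bd w5 ξ (7001 / 1000 * X) := by rw [hξ]; exact hxi
  have hτb : Bd w5 τ (141 / 25) := by rw [hτ]; exact hta
  have hYb : Bd w5 Y (141 / 10 ^ 5 * X) := by rw [hYd]; exact hY
  have hq1b : Bd w5 q1 (45 / 4 * X ^ 2) := by rw [hq1]; exact hq 0
  have hq2b : Bd w5 q2 (45 / 4 * X ^ 2) := by rw [hq2]; exact hq 1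
  have hq3b : Bd w5 q3 (45 / 4 * X ^ 2) := by rw [hq3]; exact hq 2
  have hGb : Bd w5 G (17 / 5000) := by
    have e : G = P.b 2 • (1 : W) + (X * P.a 3) • τ + q3 := by rw [hG, hτ, hq3]; rfl
    have h1 := (bsc _ _ (P.b 2) b1).2.2
    have h2 := (bsc _ _ (X * P.a 3) hτb).2.2
    have h3 := (bar _ _ _ _ (bar _ _ _ _ h1 h2).1 hq3b).1
    rw [← e] at h3
    refine bmo _ _ _ h3 ?_
    rw [abs_mul, abs_of_pos hX]
    have h4 : X * |P.a 3| ≤ 3 / 10 ^ 4 * (17 / 10) := mul_le_mul hX3 ha3 (abs_nonneg _) (by norm_num)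
    have h5 : X ^ 2 ≤ (3 / 10 ^ 4) ^ 2 := by gcongr
    nlinarith
  have hEb : Bd w5 E (80 * X ^ 2) := by
    have h1 := (bsc _ _ (P.b 0) b1).2.2
    have h2 := (bar _ _ _ _ h1 hq1b).1
    have h3 := (bar _ _ _ _ (bsc _ _ (X * P.a 2) hτb).2.2 hq2b).1
    have h4 := (bar _ _ _ _ hξb h3).2.2
    have h5 := (bar _ _ _ _ h2 h4).2.1
    have h6 := (bar _ _ _ _ hξb hξb).2.2
    rw [← sq] at h6
    have h7 := (bsc _ _ (1 / 2 : ℝ) (bar _ _ _ _ h6 hGb).2.2).2.2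
    have h8 := (bar _ _ _ _ (bar _ _ _ _ h5 h7).1 hRb).1
    rw [← hE] at h8
    refine bmo _ _ _ h8 ?_
    rw [abs_mul, abs_of_pos hX, abs_of_pos (by norm_num : (0 : ℝ) < 1 / 2)]
    have h9 : |P.a 2| ≤ 16403 / 10000 := by
      have := abs_le.1 ha2
      rw [abs_le]
      constructor <;> linarith
    have h10 : |P.b 0| ≤ X ^ 2 / 10 ^ 3 := hP.b0.trans (by nlinarith)
    have h11 : X * |P.a 2| * (141 / 25) ≤ X * (16403 / 10000) * (141 / 25) := by gcongr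
    have h12 : X * (X * |P.a 2| * (141 / 25) + 45 / 4 * X ^ 2) ≤
        X * (X * (16403 / 10000) * (141 / 25) + 45 / 4 * X ^ 2) := by gcongr
    have h13 : X ^ 3 ≤ 3 / 10 ^ 4 * X ^ 2 := by nlinarith
    nlinarith
  have hQb : Bd w5 Q (141 / 25 * X + 7001 / 1000 * X + 80 * X ^ 2) := by
    have h1 := (bsc _ _ X hτb)
    have h2 := (bsc _ _ 0 h1.2.2).2.1
    have h3 := (bar _ _ _ _ (bar _ _ _ _ h2 hξb).1 hEb).1
    rw [← hQE] at h3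
    refine bmo _ _ _ h3 ?_
    rw [abs_of_pos hX]
    linarith
  -- the identity
  have hZ : (1 / 2 : ℝ) • (Q + conj Q) = -((X / 2) • (τ + conj τ)) + ξ + (1 / 2 : ℝ) • (E + conj E) := by
    have e1 : conj Q = -(X • conj τ) + ξ + conj E := by
      rw [hQE, map_add, map_add, map_neg, map_smul, hξ, hcx]
    rw [e1]
    nth_rewrite 1 [hQE]
    module
  have hid : h + EE P X h v y = -(ξ - h) + (X / 2) • (τ + conj τ) - (1 / 2 : ℝ) • (E + conj E) +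
      (P.nu / 2) • (T + conj T) - (1 / 2 : ℝ) • (Y * (Q + conj Q)) := by
    have e1 : EE P X h v y = (P.nu / 2) • (T + conj T) - (1 / 2 : ℝ) • (YY P h * (Q + conj Q)) := by
      rw [hT, hQ]; rfl
    have e2 : YY P h * (Q + conj Q) = (Q + conj Q) + Y * (Q + conj Q) := by
      rw [hYd]; ring
    rw [e1, e2, smul_add (1 / 2 : ℝ) (Q + conj Q), hZ]
    module
  rw [hid]
  have k1 := (bsc _ _ 0 hxh).2.1
  rw [← hξ] at k1
  have k2 := (bsc _ _ (X / 2) (bar _ _ _ _ hτb (bconj _ _ hτb)).1).2.2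
  have k3 := (bsc _ _ (1 / 2 : ℝ) (bar _ _ _ _ hEb (bconj _ _ hEb)).1).2.2
  have k4 := (bsc _ _ (P.nu / 2) (bar _ _ _ _ hTb (bconj _ _ hTb)).1).2.2
  have k5 := (bsc _ _ (1 / 2 : ℝ) (bar _ _ _ _ hYb (bar _ _ _ _ hQb (bconj _ _ hQb)).1).2.2).2.2
  have k6 := (bar _ _ _ _ (bar _ _ _ _ (bar _ _ _ _ (bar _ _ _ _ k1 k2).1 k3).2.1 k4).1 k5).2.1
  refine bmo _ _ _ k6 ?_
  rw [abs_of_pos (by norm_num : (0 : ℝ) < 1 / 2), abs_of_pos (by positivity : 0 < X / 2),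
    abs_of_nonneg (by positivity : 0 ≤ P.nu / 2)]
  have h13 : X ^ 3 ≤ 3 / 10 ^ 4 * X ^ 2 := by nlinarith
  have h14 : X ^ 2 ≤ 3 / 10 ^ 4 * X := by nlinarith
  have h15 : P.nu / 2 * (841 / 10 * X ^ 2 + 841 / 10 * X ^ 2) ≤ 41 / 50 / 2 * (841 / 10 * X ^ 2 + 841 / 10 * X ^ 2) := by
    gcongr
  nlinarith

end Pool.Agent.N742.DR
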