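import Pool.Agent.N742.DR.Stm

/-!
Project DR (helper742), problem MP_d92c84_an: the new `v` in the weight `5 ^ |j|` (helper306).
-/

set_option autoImplicit false

open Set Filter Topology

namespace Pool.Agent.N742.DR

open Pool.Agent.N229.SC

private theorem svv_sum2 (ξ : W) (c : ℕ → W) :
    ∑ i ∈ Finset.range 2, ((-1 : ℝ) ^ i * (i.factorial : ℝ)⁻¹) • (ξ ^ i * c i) = c 0 - ξ * c 1 := by
  rw [Finset.sum_range_succ, Finset.sum_range_one]
  simp only [pow_zero, pow_one, Nat.factorial_zero, Nat.factorial_one, Nat.cast_one, inv_one,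
    mul_one, one_mul, one_smul, neg_smul]
  rw [sub_eq_add_neg]

theorem proof_SVV (hA1 : S_A1) (hA2 : S_A2) (hWG : S_WG) (hBD1 : S_BD1) (hBD2 : S_BD2)
    (hBD3 : S_BD3) (hSB1 : S_SB1) (hSB2 : S_SB2) : S_SVV := by
  intro P X h v y hP hX0 hX1 hX2 hD h5
  obtain ⟨-, ⟨conj_cf, -, -, -, -⟩, -, -, ⟨pi_cf, -⟩, -⟩ := hA2
  obtain ⟨-, w_sub, -, -, -, -, -, -, -, w_ext, -, -, -⟩ := hA1 wW
  obtain ⟨hW, -, -, -, -⟩ := hWG
  obtain ⟨bin, una, mono, -⟩ := hBD1 wW w5 hW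
  obtain ⟨hB2, -⟩ := hBD2
  obtain ⟨-, hTT⟩ := hBD3
  obtain ⟨-, -, htau, -, hxi, -⟩ := hSB1 P X h hP hX0 hX2 h5.bh
  obtain ⟨-, -, -, -, hv1, -, hV, -⟩ := hSB2 P X h v y hP hX0 hX1 hX2 hD h5
  -- numbers
  have ha0p : 0 < P.a 0 := lt_of_lt_of_le (by norm_num) hP.a0
  have haX : P.a 0 ≤ X ^ 2 := by
    have h1 : Real.sqrt (P.a 0) ^ 2 = P.a 0 := Real.sq_sqrt ha0p.le
    rw [← h1]
    exact pow_le_pow_left₀ (Real.sqrt_nonneg _) hX1 2
  have hXX : X ^ 2 ≤ 3 / 10 ^ 4 * X := by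
    rw [pow_two]
    exact mul_le_mul_of_nonneg_right hX2 hX0.le
  have hX3 : X ^ 3 ≤ 3 / 10 ^ 4 * X ^ 2 := by
    have : X ^ 3 = X * X ^ 2 := by ring
    rw [this]
    exact mul_le_mul_of_nonneg_right hX2 (sq_nonneg X)
  have hX2p : 0 < X ^ 2 := by positivity
  have hX3p : 0 < X ^ 3 := by positivity
  have hδ : 7001 / 1000 * X ≤ 1 / 30 := by linarith
  have hT2 := hTT (xi P h) (Vh P X h v y) (2 * X) (7001 / 1000 * X) hV hxi hδ 2
  rw [svv_sum2] at hT2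
  have hV0e : Vh P X h v y 0 = (X * P.a 0) • tau P h + v := rfl
  have hV1e : Vh P X h v y 1 = (-X) • tau P h + vv P h v y 1 := by
    change (X * P.a 1) • tau P h + vv P h v y 1 = _
    rw [hP.a1, mul_neg, mul_one]
  obtain ⟨T, hT⟩ : ∃ T : W, T = TT (xi P h) (Vh P X h v y) := ⟨_, rfl⟩
  rw [← hT] at hT2 ⊢
  have hR : Bd w5 (T - (Vh P X h v y 0 - xi P h * Vh P X h v y 1)) (295 / 1000 * X ^ 2) := by
    refine mono _ _ _ hT2 ?_
    have e : 10 / 9 * (2 * X) * (3 * (7001 / 1000 * X)) ^ 2 = 98028002 / 100000 * X ^ 3 := by ring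
    rw [e]
    linarith
  have hV1 : Bd w5 (Vh P X h v y 1) (56463 / 10000 * X) := by
    rw [hV1e]
    refine mono _ _ _ (bin _ _ _ _ (una _ _ (-X) htau).2.2 hv1).1 ?_
    rw [abs_neg, abs_of_pos hX0]
    linarith
  have hxV : Bd w5 (xi P h * Vh P X h v y 1) (3953 / 100 * X ^ 2) := by
    refine mono _ _ _ (bin _ _ _ _ hxi hV1).2.2 ?_
    have e : 7001 / 1000 * X * (56463 / 10000 * X) = 395297463 / 10000000 * X ^ 2 := by ring
    rw [e]
    linarith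
  have hTV : Bd w5 (T - Vh P X h v y 0) (40 * X ^ 2) := by
    have e : T - Vh P X h v y 0 = (T - (Vh P X h v y 0 - xi P h * Vh P X h v y 1)) -
        xi P h * Vh P X h v y 1 := by ring
    rw [e]
    refine mono _ _ _ (bin _ _ _ _ hR hxV).2.1 ?_
    linarith
  refine ⟨hTV, ?_⟩
  -- the second estimate
  obtain ⟨Z, hZ⟩ : ∃ Z : W, Z = T - v := ⟨_, rfl⟩
  have hZb : Bd w5 Z (41 * X ^ 2) := by
    have e : Z = (X * P.a 0) • tau P h + (T - Vh P X h v y 0) := by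
      rw [hZ, hV0e]; ring
    rw [e]
    refine mono _ _ _ (bin _ _ _ _ (una _ _ (X * P.a 0) htau).2.2 hTV).1 ?_
    have h1 : |X * P.a 0| ≤ X ^ 3 := by
      rw [abs_of_nonneg (by positivity)]
      have : X * P.a 0 ≤ X * X ^ 2 := mul_le_mul_of_nonneg_left haX hX0.le
      linarith [(by ring : X * X ^ 2 = X ^ 3)]
    have h2 : |X * P.a 0| * (141 / 25) ≤ X ^ 3 * (141 / 25) :=
      mul_le_mul_of_nonneg_right h1 (by norm_num)
    linarith
  have hpv : Pi2 (v - conj v) = v := by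
    apply w_ext
    intro j
    rw [pi_cf]
    by_cases hj : 2 ≤ j
    · rw [if_pos hj, w_sub, conj_cf, hD.hv (-j) (by omega), sub_zero]
    · rw [if_neg hj, hD.hv j (by omega)]
  have h1 : v - Pi2 (OO P X h v y) = -Pi2 (Z - conj Z) := by
    have h2 : OO P X h v y = (v - conj v) + (Z - conj Z) := by
      unfold OO
      rw [← hT, hZ, map_sub]
      ring
    rw [h2, map_add, hpv]
    ring
  rw [h1]
  have h3 := (hB2 Z _ hZb).2.2.2.2.1
  exact mono _ _ _ (una _ _ 0 h3).2.1 (by linarith)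

end Pool.Agent.N742.DR
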