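import Pool.Agent.N742.DR.Stm

/-!
Project DR (helper742), problem MP_d92c84_an: the new `y` in the weight `5 ^ |j|` (helper456).
-/

set_option autoImplicit false

open Set Filter Topology

namespace Pool.Agent.N742.DR

open Pool.Agent.N229.SC

theorem proof_SYY (hA1 : S_A1) (hA2 : S_A2) (hAB : S_AB) (hWG : S_WG) (hBD1 : S_BD1)
    (hBD2 : S_BD2) (hSB1 : S_SB1) (hSB2 : S_SB2) : S_SYY := by
  intro P X h v y hP hX0 hX1 hX2 hD hD5 i
  obtain ⟨-, hu5, -, -, -⟩ := hWG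
  obtain ⟨hop, hr, hmono, -, hone, -, -, -, -, -⟩ := hBD1 wA u5 hu5
  obtain ⟨-, hbeta, -, -, -, -⟩ := hSB1 P X h hP hX0 hX2 hD5.bh
  obtain ⟨-, hq0, -, hq1, -, -, -, -⟩ := hSB2 P X h v y hP hX0 hX1 hX2 hD hD5
  have hnu1 := hP.nu1
  have hXsq : 0 < X ^ 2 := by positivity
  -- the first term
  have h1 : Bd u5 (1 + beta P h) (1 + 46 * X) := (hop _ _ _ _ hone hbeta).1
  have h2 : Bd u5 (inc (qq P h v y i)) (179 / 10 * X ^ 2) := by
    cases i with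
    | zero => exact hq0
    | succ i => exact hmono _ _ _ (hq1 i) (by nlinarith)
  have h3 : Bd u5 (inc (qq P h v y (i + 2))) (9 * X ^ 2) := hq1 (i + 1)
  have h4 : Bd u5 (inc (qq P h v y i + qq P h v y (i + 2))) (179 / 10 * X ^ 2 + 9 * X ^ 2) := by
    rw [map_add]
    exact (hop _ _ _ _ h2 h3).1
  have h5 := (hop _ _ _ _ h1 h4).2.2
  have h6 := (hr _ _ (1 / (2 * P.nu)) h5).2.2
  -- the second term
  have h7 := (hBD2.2 P.n (i + 1) (y i) (18 * X ^ 2) (hD5.by_ i)).2.2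
  have h8 := (hop _ _ _ _ hbeta h7).2.2
  have e1 : (((i : ℝ) + 1) / P.n) • (beta P h * inc (qq P h v y (i + 1))) =
      beta P h * ((((i + 1 : ℕ) : ℝ) / P.n) • inc (res P.n (i + 1) (y i))) := by
    rw [mul_smul_comm, Nat.cast_add, Nat.cast_one]
    rfl
  rw [← e1] at h8
  have h9 := (hop _ _ _ _ h6 h8).2.1
  refine hmono _ _ _ h9 ?_
  have h10 : |1 / (2 * P.nu)| ≤ 5 / 8 := by
    rw [abs_of_pos (by positivity), div_le_div_iff₀ (by linarith) (by norm_num)]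
    linarith
  have h11 : (1 + 46 * X) * (179 / 10 * X ^ 2 + 9 * X ^ 2) ≤ 273 / 10 * X ^ 2 := by
    have : 46 * X ≤ 138 / 10 ^ 4 := by linarith
    nlinarith
  have h12 : |1 / (2 * P.nu)| * ((1 + 46 * X) * (179 / 10 * X ^ 2 + 9 * X ^ 2)) ≤
      5 / 8 * (273 / 10 * X ^ 2) :=
    mul_le_mul h10 h11 (by positivity) (by norm_num)
  have h13 : 46 * X * (18 * X ^ 2) ≤ 138 / 10 ^ 4 * (18 * X ^ 2) :=
    mul_le_mul_of_nonneg_right (by linarith) (by positivity)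
  have h14 : 5 / 8 * (273 / 10 * X ^ 2) + 138 / 10 ^ 4 * (18 * X ^ 2) ≤ 18 * X ^ 2 := by
    nlinarith
  linarith

end Pool.Agent.N742.DR
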