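import Pool.Agent.N742.DR.Stm

/-!
Project DR (helper742), problem MP_d92c84_an: the two weights.
-/

set_option autoImplicit false

open Set Filter Topology

namespace Pool.Agent.N742.DR

open Pool.Agent.N229.SC

private theorem wg_pow (i j : ℤ) : (5 : ℝ) ^ (i + j).natAbs ≤ 5 ^ i.natAbs * 5 ^ j.natAbs := by
  rw [← pow_add]
  exact pow_le_pow_right₀ (by norm_num) (Int.natAbs_add_le i j)

theorem wg_w5 : Wg w5 where
  one_le j := one_le_mul_of_one_le_of_one_le (by
    have : (0 : ℝ) ≤ j.natAbs := Nat.cast_nonneg _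
    linarith) (one_le_pow₀ (by norm_num))
  zero := by simp [w5]
  neg j := by simp [w5]
  mul i j := by
    unfold w5
    have h1 := wg_pow i j
    have h2 : (((i + j).natAbs : ℕ) : ℝ) ≤ i.natAbs + j.natAbs := by
      exact_mod_cast Int.natAbs_add_le i j
    have h3 : (0 : ℝ) ≤ i.natAbs := Nat.cast_nonneg _
    have h4 : (0 : ℝ) ≤ j.natAbs := Nat.cast_nonneg _
    have h5 : (1 + ((i + j).natAbs : ℝ) / 8) ≤ (1 + (i.natAbs : ℝ) / 8) * (1 + (j.natAbs : ℝ) / 8) := by
      nlinarith [mul_nonneg h3 h4]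
    calc (1 + ((i + j).natAbs : ℝ) / 8) * 5 ^ (i + j).natAbs
        ≤ ((1 + (i.natAbs : ℝ) / 8) * (1 + (j.natAbs : ℝ) / 8)) *
          (5 ^ i.natAbs * 5 ^ j.natAbs) := by
          have : (0 : ℝ) ≤ 5 ^ (i + j).natAbs := pow_nonneg (by norm_num) _
          have : (0 : ℝ) ≤ (1 + (i.natAbs : ℝ) / 8) * (1 + (j.natAbs : ℝ) / 8) := by positivity
          gcongr
      _ = _ := by ring

theorem wg_u5 : Wg u5 where
  one_le j := one_le_pow₀ (by norm_num)
  zero := by simp [u5]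
  neg j := by simp [u5]
  mul i j := wg_pow i j

private theorem wg_rad (j : ℤ) : Rad ^ j.natAbs ≤ (5 : ℝ) ^ j.natAbs :=
  pow_le_pow_left₀ (zero_le_one.trans one_le_Rad) (by norm_num [Rad]) _

theorem proof_WG : S_WG := by
  refine ⟨wg_w5, wg_u5, fun j => ?_, fun j => wg_rad j, fun j => ?_⟩
  · unfold wW w5
    have : (0 : ℝ) ≤ j.natAbs := Nat.cast_nonneg _
    exact mul_le_mul_of_nonneg_left (wg_rad j) (by positivity)
  · unfold u5 w5
    have h1 : (0 : ℝ) < 5 ^ j.natAbs := by positivity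
    have h2 : (0 : ℝ) ≤ j.natAbs := Nat.cast_nonneg _
    nlinarith [mul_nonneg h1.le h2]

end Pool.Agent.N742.DR
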