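import Pool.Agent.N742.DR.FinDef
import Pool.Agent.N229.SC.A1
import Pool.Agent.N229.SC.A2
import Pool.Agent.N229.SC.A3
import Pool.Agent.N229.SC.AB
import Pool.Agent.N229.SC.B1
import Pool.Agent.N229.SC.B2
import Pool.Agent.N229.SC.B3
import Pool.Agent.N229.SC.SELF
import Pool.Agent.N229.SC.CTR
import Pool.Agent.N229.SC.LX
import Pool.Agent.N229.SC.FIX
import Pool.Agent.N229.SC.HG
import Pool.Agent.N229.SC.VG
import Pool.Agent.N229.SC.YG
import Pool.Agent.N229.SC.RV
import Pool.Agent.N229.SC.GG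
import Pool.Agent.N229.SC.SGN
import Pool.Agent.N229.SC.N1
import Pool.Agent.N229.SC.N2
import Pool.Agent.N229.SC.N3
import Pool.Agent.N229.SC.NUM
import Pool.Agent.N229.SC.EH
import Pool.Agent.N229.SC.EV
import Pool.Agent.N229.SC.FN3
import Pool.Agent.N229.SC.FN4
import Pool.Agent.N229.SC.PSM
import Pool.Agent.N229.SC.INJ
import Pool.Agent.N742.DR.WG
import Pool.Agent.N742.DR.BD1
import Pool.Agent.N742.DR.BD2
import Pool.Agent.N742.DR.BD3
import Pool.Agent.N742.DR.SB1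
import Pool.Agent.N742.DR.SB2
import Pool.Agent.N742.DR.SVV
import Pool.Agent.N742.DR.SYY
import Pool.Agent.N742.DR.SHH
import Pool.Agent.N742.DR.ITR
import Pool.Agent.N742.DR.EXI5
import Pool.Agent.N742.DR.EV5
import Pool.Agent.N742.DR.CF5
import Pool.Agent.N742.DR.QF5
import Pool.Agent.N742.DR.IMG
import Pool.Agent.N742.DR.TPH
import Pool.Agent.N742.DR.PHE
import Pool.Agent.N742.DR.PDE2
import Pool.Agent.N742.DR.BES
import Pool.Agent.N742.DR.G0
import Pool.Agent.N742.DR.GN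
import Pool.Agent.N742.DR.DEC
import Pool.Agent.N742.DR.REM
import Pool.Agent.N742.DR.MON
import Pool.Agent.N742.DR.CUR
import Pool.Agent.N742.DR.NCI
import Pool.Agent.N742.DR.NC
import Pool.Agent.N742.DR.CC
import Pool.Agent.N742.DR.FIN

/-!
Project DR (helper742), problem MP_d92c84_an: assembly.
-/

set_option autoImplicit false

namespace Pool.Agent.N742.DR

open Pool.Agent.N229.SC

theorem answer : Answer := by
  have A1 := proof_A1
  have A2 := proof_A2 A1
  have A3 := proof_A3 A1 A2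
  have AB := proof_AB
  have B1 := proof_B1 A1 A2 A3
  have B2 := proof_B2 A1 A2 A3 AB B1
  have B3 := proof_B3 A1 A2 A3 AB B1 B2
  have SELF := proof_SELF A1 A2 A3 AB B1 B2
  have CTR := proof_CTR A1 A2 A3 AB B1 B2 B3
  have LX := proof_LX A1 A2 A3 AB B1 B2
  have FIX := proof_FIX A1 A2 SELF CTR LX
  have HG := proof_HG A1 A2 A3 AB B1 B2
  have VG := proof_VG A1 A2 A3 AB B1 B2
  have YG := proof_YG A1 A2 A3 AB B1 B2
  have RV := proof_RV A1 A2 A3 AB B1 B2
  have GG := proof_GG A1 A2 A3 AB B1 B2 RV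
  have SGN := proof_SGN A1 A2 AB HG VG YG RV GG
  have NUM := proof_NUM proof_N1 proof_N2 proof_N3
  have EH := proof_EH A1 A2
  have EV := proof_EV A1 A2 A3
  have FN3 := proof_FN3 A1 A2 A3 AB B1 B2 EH
  have FN4 := proof_FN4 A1 A2 A3 AB B1 B2 EH EV
  have PSM := proof_PSM
  have INJ := proof_INJ
  have WG := proof_WG
  have BD1 := proof_BD1 A1
  have BD2 := proof_BD2 A1 A2
  have BD3 := proof_BD3 A1 A3 WG BD1
  have SB1 := proof_SB1 A1 WG BD1 BD2 BD3
  have SB2 := proof_SB2 A1 A2 AB WG BD1 BD2 SB1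
  have SVV := proof_SVV A1 A2 WG BD1 BD2 BD3 SB1 SB2
  have SYY := proof_SYY A1 A2 AB WG BD1 BD2 SB1 SB2
  have SHH := proof_SHH A1 A2 AB B1 WG BD1 BD2 BD3 SB1 SB2 SVV
  have ITR := proof_ITR A1 A2 SELF CTR WG BD1 SVV SYY SHH
  have EXI5 := proof_EXI5 A1 A2 FIX HG SGN
  have EV5 := proof_EV5 A1 A2
  have CF5 := proof_CF5 A1 A2 AB WG SB1 EV5
  have QF5 := proof_QF5 A1 A2 AB B2 FN3 WG BD1 BD2 SB1 EV5 CF5
  have IMG := proof_IMG INJ
  have TPH := proof_TPH CF5 QF5 IMG INJ FN4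
  have PHE := proof_PHE NUM EXI5 ITR TPH
  have PDE2 := proof_PDE2 PSM
  have BES := proof_BES
  have G0 := proof_G0 BES
  have GN := proof_GN BES
  have DEC := proof_DEC
  have REM := proof_REM PSM
  have MON := proof_MON BES G0 GN DEC REM
  have CUR := proof_CUR
  have NCI := proof_NCI GN DEC
  have NC := proof_NC
  have CC := proof_CC PHE PDE2 MON CUR NCI NC
  exact proof_FIN CC

end Pool.Agent.N742.DR
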