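import Pool.Agent.N742.DR.Stm

/-!
Project DR (helper742), problem MP_d92c84_an: the functions of `h` in the larger weight (DR-SB1).
-/

set_option autoImplicit false

open Set Filter Topology MeasureTheory

namespace Pool.Agent.N742.DR

open Pool.Agent.N229.SC

private theorem sb1_exp1 {x : ℝ} (h0 : 0 ≤ x) (h1 : x ≤ 1) : Real.exp x - 1 ≤ x * (1 + x) := by
  have h := Real.abs_exp_sub_one_sub_id_le (x := x) (by rw [abs_of_nonneg h0]; exact h1)
  have h2 := (abs_le.1 h).2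
  nlinarith

private theorem sb1_exp2 {x : ℝ} (h0 : 0 ≤ x) (h1 : x ≤ 1) : Real.exp x - 1 - x ≤ x ^ 2 := by
  have h := Real.abs_exp_sub_one_sub_id_le (x := x) (by rw [abs_of_nonneg h0]; exact h1)
  exact (abs_le.1 h).2

private theorem sb1_w51 : w5 1 = 45 / 8 := by
  norm_num [w5]

private theorem sb1_xi_eq {P : Par} (hP : Good P) (h : W) : xi P h - h =
    (P.ρ / 2) • (ex ((2 / P.ρ) • h) - 1 - (2 / P.ρ) • h) := by
  have h0 : P.ρ ≠ 0 := (lt_of_lt_of_le (by norm_num) hP.rho).ne'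
  unfold xi YY
  rw [smul_sub _ (ex ((2 / P.ρ) • h) - 1), smul_smul]
  have e : P.ρ / 2 * (2 / P.ρ) = 1 := by
    field_simp
  rw [e, one_smul]

/-- DR-SB1 -/
theorem proof_SB1 (hA1 : S_A1) (hWG : S_WG) (hBD1 : S_BD1) (hBD2 : S_BD2) (hBD3 : S_BD3) :
    S_SB1 := by
  have _ := hA1
  intro P X h hP hX hX' hb
  have hrho : 0 < P.ρ := lt_of_lt_of_le (by norm_num) hP.rho
  have hnu : 0 < P.nu := lt_of_lt_of_le (by norm_num) hP.nu1
  obtain ⟨hw5, hu5, -⟩ := hWG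
  obtain ⟨c1, c2, c3, c4, -⟩ := hBD1 wW w5 hw5
  obtain ⟨-, -, d3, -⟩ := hBD1 wA u5 hu5
  obtain ⟨e1, -⟩ := hBD2
  obtain ⟨f1, -⟩ := hBD3
  have hPhi : Bd w5 (Phi P h) (287 / 50 * X) := by
    obtain ⟨-, -, h3, -⟩ := e1 h (7 * X) hb
    have h4 := (c2 (hol h) (7 * X) P.nu h3).2.2
    refine c3 _ _ _ h4 ?_
    rw [abs_of_pos hnu]
    have := mul_le_mul_of_nonneg_right hP.nu2 hX.le
    linarith
  have hx : 2 / P.ρ ≤ 2 / 10000 :=
    div_le_div_of_nonneg_left (by norm_num) (by norm_num) hP.rho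
  have hx0 : 0 < 2 / P.ρ := by positivity
  set x := 2 / P.ρ * (7 * X) with hxd
  have hb2 : Bd w5 ((2 / P.ρ) • h) x := by
    have h4 := (c2 h (7 * X) (2 / P.ρ) hb).2.2
    rwa [abs_of_pos hx0] at h4
  have hxp : 0 ≤ x := by positivity
  have hxX : x ≤ 14 / 10 ^ 4 * X := by
    have := mul_le_mul_of_nonneg_right hx (show 0 ≤ 7 * X by positivity)
    linarith
  have hxs : x ≤ 42 / 10 ^ 8 := by
    norm_num at hX' ⊢
    linarith
  obtain ⟨-, g2, g3⟩ := f1 _ _ hb2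
  have hxi : Bd w5 (xi P h - h) (X ^ 2 / 100) := by
    rw [sb1_xi_eq hP]
    have h4 := (c2 _ _ (P.ρ / 2) g3).2.2
    refine c3 _ _ _ h4 ?_
    rw [abs_of_pos (by positivity)]
    have k1 := sb1_exp2 hxp (by linarith)
    have k2 : P.ρ / 2 * x = 7 * X := by
      rw [hxd]
      field_simp
    calc P.ρ / 2 * (Real.exp x - 1 - x) ≤ P.ρ / 2 * x ^ 2 :=
        mul_le_mul_of_nonneg_left k1 (by positivity)
      _ = 7 * X * x := by rw [← k2]; ring
      _ ≤ 7 * X * (14 / 10 ^ 4 * X) := mul_le_mul_of_nonneg_left hxX (by positivity)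
      _ ≤ X ^ 2 / 100 := by nlinarith [sq_nonneg X]
  refine ⟨hPhi, ?_, ?_, ?_, ?_, hxi⟩
  · obtain ⟨-, -, -, -, -, h6, -⟩ := e1 _ _ hPhi
    exact d3 _ _ _ h6 (by linarith)
  · have h1 := (f1 _ _ hPhi).1
    have h2 := (c1 _ _ _ _ (c4 1) h1).2.2
    refine c3 _ _ _ h2 ?_
    rw [sb1_w51]
    have k0 : 287 / 50 * X ≤ 1722 / 10 ^ 6 := by
      norm_num at hX' ⊢
      linarith
    have k1 : Real.exp (287 / 50 * X) ≤ Real.exp (1722 / 10 ^ 6) := Real.exp_le_exp.2 k0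
    have k2 := sb1_exp1 (x := 1722 / 10 ^ 6) (by norm_num) (by norm_num)
    have k3 : Real.exp (287 / 50 * X) ≤ 1 + 1722 / 10 ^ 6 * (1 + 1722 / 10 ^ 6) := by linarith
    refine (mul_le_mul_of_nonneg_left k3 (by norm_num)).trans ?_
    norm_num
  · have k1 := sb1_exp1 hxp (by linarith)
    refine c3 _ _ _ g2 (k1.trans ?_)
    calc x * (1 + x) ≤ 14 / 10 ^ 4 * X * (1 + 42 / 10 ^ 8) :=
        mul_le_mul hxX (by linarith) (by positivity) (by positivity)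
      _ ≤ 141 / 10 ^ 5 * X := by
        norm_num
        linarith
  · have h1 := (c1 _ _ _ _ hb hxi).1
    rw [add_sub_cancel] at h1
    refine c3 _ _ _ h1 ?_
    have : X ^ 2 ≤ 3 / 10 ^ 4 * X := by
      rw [pow_two]
      exact mul_le_mul_of_nonneg_right hX' hX.le
    norm_num at this ⊢
    linarith

end Pool.Agent.N742.DR
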