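import Pool.Agent.N229.SC.Stm

/-!
Project DR (helper742), problem MP_d92c84_an (inverse drum problem): statements of the parts.
The solution of project SC (helper229) is extended analytically to the weight `5 ^ |j|`, hence beyond
the next nodal line of `u`.
-/

set_option autoImplicit false

open Set Filter Topology MeasureTheory

namespace Pool.Agent.N742.DR

open Pool.Agent.N229.SC

/-! ### The larger weights -/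

/-- The weight `(1 + |j| / 8) 5 ^ |j|`. -/
noncomputable def w5 (j : ℤ) : ℝ := (1 + (j.natAbs : ℝ) / 8) * 5 ^ j.natAbs

/-- The weight `5 ^ |j|`. -/
noncomputable def u5 (j : ℤ) : ℝ := 5 ^ j.natAbs

/-- `∑ |a_j| ω_j ≤ M`, for an element `a` of an algebra with a smaller weight. -/
def Bd {w : ℤ → ℝ} (ω : ℤ → ℝ) (a : Al w) (M : ℝ) : Prop :=
  ∀ F : Finset ℤ, ∑ j ∈ F, |cf a j| * ω j ≤ M

/-- The condition on the big weight. -/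
structure Wg (ω : ℤ → ℝ) : Prop where
  one_le : ∀ j, 1 ≤ ω j
  zero : ω 0 = 1
  neg : ∀ j, ω (-j) = ω j
  mul : ∀ i j, ω (i + j) ≤ ω i * ω j

/-- DR-WG: the two weights. -/
def S_WG : Prop :=
  Wg w5 ∧ Wg u5 ∧ (∀ j, wW j ≤ w5 j) ∧ (∀ j, wA j ≤ u5 j) ∧ (∀ j, u5 j ≤ w5 j)

/-- DR-BD1: calculus of `Bd`. -/
def S_BD1 : Prop :=
  ∀ (w ω : ℤ → ℝ) [Wt w], Wg ω →
    (∀ (a b : Al w) (M N : ℝ), Bd ω a M → Bd ω b N →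
      Bd ω (a + b) (M + N) ∧ Bd ω (a - b) (M + N) ∧ Bd ω (a * b) (M * N)) ∧
    (∀ (a : Al w) (M r : ℝ), Bd ω a M → 0 ≤ M ∧ Bd ω (-a) M ∧ Bd ω (r • a) (|r| * M)) ∧
    (∀ (a : Al w) (M N : ℝ), Bd ω a M → M ≤ N → Bd ω a N) ∧
    (∀ i : ℤ, Bd ω (mon w i) (ω i)) ∧ Bd ω (1 : Al w) 1 ∧ Bd ω (0 : Al w) 0 ∧
    (∀ (a : Al w) (M : ℝ) (k : ℕ), Bd ω a M → Bd ω (a ^ k) (M ^ k)) ∧
    (∀ (x : ℕ → Al w) (a : Al w) (M : ℕ → ℝ) (B : ℝ), HasSum x a → (∀ k, Bd ω (x k) (M k)) →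
      HasSum M B → Bd ω a B) ∧
    (∀ (x : ℕ → Al w) (a : Al w) (M : ℝ), Tendsto x atTop (𝓝 a) → (∀ k, Bd ω (x k) M) →
      Bd ω a M) ∧
    (∀ (a : Al w) (M : ℝ), Bd ω a M → (∀ j, w j ≤ ω j) → ‖a‖ ≤ M)

/-- DR-BD2: the operators. -/
def S_BD2 : Prop :=
  (∀ (a : W) (M : ℝ), Bd w5 a M →
    Bd u5 (inc a) M ∧ Bd w5 (conj a) M ∧ Bd w5 (hol a) M ∧ Bd w5 (Pi2 a) M ∧
    Bd w5 (Pi2 (a - conj a)) M ∧ Bd u5 (der a) (8 * M) ∧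
    ((∀ j < 2, cf a j = 0) → Bd u5 (inc a) (4 / 5 * M))) ∧
  (∀ (n i : ℕ) (a : A) (M : ℝ), Bd u5 a M →
    Bd w5 (res n i a) (5 / 8 * M) ∧ Bd u5 (inc (res n i a)) (1 / 2 * M) ∧
    Bd u5 (((i : ℝ) / n) • inc (res n i a)) M)

/-- DR-BD3: the exponential and the series `TT`. -/
def S_BD3 : Prop :=
  (∀ (x : W) (M : ℝ), Bd w5 x M → Bd w5 (ex x) (Real.exp M) ∧
    Bd w5 (ex x - 1) (Real.exp M - 1) ∧ Bd w5 (ex x - 1 - x) (Real.exp M - 1 - M)) ∧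
  (∀ (ξ : W) (c : ℕ → W) (M δ : ℝ), (∀ i, Bd w5 (c i) (M * (3 ^ i * i.factorial))) →
    Bd w5 ξ δ → δ ≤ 1 / 30 → ∀ m : ℕ,
    Bd w5 (TT ξ c - ∑ i ∈ Finset.range m, ((-1) ^ i * (i.factorial : ℝ)⁻¹) • (ξ ^ i * c i))
      (10 / 9 * M * (3 * δ) ^ m))

/-! ### The self map in the larger weights -/

/-- The larger domain. -/
structure D5 (X : ℝ) (h v : W) (y : ℕ → A) : Prop where
  bh : Bd w5 h (7 * X)
  bv : Bd w5 v (44 * X ^ 2)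
  by_ : ∀ i, Bd u5 (y i) (18 * X ^ 2)

/-- DR-SB1: the functions of `h`. -/
def S_SB1 : Prop :=
  ∀ (P : Par) (X : ℝ) (h : W), Good P → 0 < X → X ≤ 3 / 10 ^ 4 → Bd w5 h (7 * X) →
    Bd w5 (Phi P h) (287 / 50 * X) ∧ Bd u5 (beta P h) (46 * X) ∧ Bd w5 (tau P h) (141 / 25) ∧
    Bd w5 (YY P h - 1) (141 / 10 ^ 5 * X) ∧ Bd w5 (xi P h) (7001 / 1000 * X) ∧
    Bd w5 (xi P h - h) (X ^ 2 / 100)

/-- DR-SB2: the functions `q_i`, `v_i`, `V_i`, `Q_i`. -/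
def S_SB2 : Prop :=
  ∀ (P : Par) (X : ℝ) (h v : W) (y : ℕ → A), Good P → 0 < X → Real.sqrt (P.a 0) ≤ X →
    X ≤ 3 / 10 ^ 4 → Dom X h v y → D5 X h v y →
    Bd w5 (qq P h v y 0) (223 / 10 * X ^ 2 + X ^ 2 / 50) ∧
    Bd u5 (inc (qq P h v y 0)) (179 / 10 * X ^ 2) ∧
    (∀ i, Bd w5 (qq P h v y (i + 1)) (45 / 4 * X ^ 2)) ∧
    (∀ i, Bd u5 (inc (qq P h v y (i + 1))) (9 * X ^ 2)) ∧
    Bd w5 (vv P h v y 1) (21 * X ^ 2) ∧ Bd w5 (Vh P X h v y 0) (441 / 10 * X ^ 2) ∧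
    (∀ i, Bd w5 (Vh P X h v y i) (2 * X * (3 ^ i * i.factorial))) ∧
    (∀ i, Bd w5 (Qh P X h v y i) (101 / 100 * (3 ^ i * i.factorial)))

/-- DR-SVV: the new `v`. -/
def S_SVV : Prop :=
  ∀ (P : Par) (X : ℝ) (h v : W) (y : ℕ → A), Good P → 0 < X → Real.sqrt (P.a 0) ≤ X →
    X ≤ 3 / 10 ^ 4 → Dom X h v y → D5 X h v y →
    Bd w5 (TT (xi P h) (Vh P X h v y) - Vh P X h v y 0) (40 * X ^ 2) ∧
    Bd w5 (v - Pi2 (OO P X h v y)) (44 * X ^ 2)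

/-- DR-SYY: the new `y`. -/
def S_SYY : Prop :=
  ∀ (P : Par) (X : ℝ) (h v : W) (y : ℕ → A), Good P → 0 < X → Real.sqrt (P.a 0) ≤ X →
    X ≤ 3 / 10 ^ 4 → Dom X h v y → D5 X h v y → ∀ i, Bd u5 (RH P h v y i) (18 * X ^ 2)

/-- DR-SHH: the new `h`. -/
def S_SHH : Prop :=
  ∀ (P : Par) (X : ℝ) (h v : W) (y : ℕ → A), Good P → 0 < X → Real.sqrt (P.a 0) ≤ X →
    X ≤ 3 / 10 ^ 4 → Dom X h v y → D5 X h v y → Bd w5 (h + EE P X h v y) (7 * X)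

/-- DR-ITR: the solution lies in the larger domain. -/
def S_ITR : Prop :=
  ∀ (P : Par) (X : ℝ) (h v : W) (y : ℕ → A), Good P → 0 < X → Real.sqrt (P.a 0) ≤ X →
    X ≤ 3 / 10 ^ 4 → IsSol P X h v y → D5 X h v y

/-- DR-EXI: the solution, with the lower bound of `X`. -/
def S_EXI5 : Prop :=
  ∀ P : Par, Good P → ∃ (X : ℝ) (h v : W) (y : ℕ → A), 0 < X ∧ Real.sqrt (P.a 0) ≤ X ∧
    X ≤ 3 / 10 ^ 4 ∧ IsSol P X h v y ∧ OO P X h v y = 0 ∧ ‖h - X • cc‖ ≤ 15 * X ^ 2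

/-! ### From coefficients to functions -/

/-- The large radius in the plane of `z`. -/
noncomputable def r5 (P : Par) : ℝ := (5 : ℝ) ^ ((P.n : ℝ)⁻¹)

/-- A solution of all equations, in the larger domain. -/
structure Big (P : Par) (X : ℝ) (h v : W) (y : ℕ → A) : Prop where
  full : Full P X h v y
  d5 : D5 X h v y

/-- DR-EV5: evaluation of `∑ c_k t ^ k` in the disc of radius `5`. -/
def S_EV5 : Prop :=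
  (∀ (w ω : ℤ → ℝ) [Wt w] (c : Al w) (M : ℝ), (∀ j, u5 j ≤ ω j) → Bd ω c M →
    DifferentiableOn ℂ (evh c) (Metric.ball 0 5) ∧ ∀ t ∈ Metric.ball (0 : ℂ) 5, ‖evh c t‖ ≤ M) ∧
  (∀ (a : W) (M : ℝ), Bd w5 a M → ∀ t ∈ Metric.ball (0 : ℂ) 5,
    evh (der a) t = t * deriv (evh a) t) ∧
  (∀ (a : W) (M : ℝ) (m : ℕ), Bd w5 a M → (∀ j < (m : ℤ), cf a j = 0) →
    ∃ s : ℂ → ℂ, DifferentiableOn ℂ s (Metric.ball 0 5) ∧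
      ∀ t ∈ Metric.ball (0 : ℂ) 5, evh a t = t ^ m * s t)

/-- DR-CF5: the conformal map on the large disc. -/
def S_CF5 : Prop :=
  ∀ (P : Par) (X : ℝ) (h v : W) (y : ℕ → A), Big P X h v y →
    Conf P.ρ (r5 P) (fF P h) ∧
    (∀ z ∈ Metric.ball (0 : ℂ) (r5 P), z ^ P.n ∈ Metric.ball (0 : ℂ) 5 ∧
      P.ρ * ‖z‖ * (1 - 2 / (1000 * P.n)) ≤ ‖fF P h z‖ ∧
      ‖fF P h z‖ ≤ P.ρ * ‖z‖ * (1 + 2 / (1000 * P.n))) ∧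
    ∀ z ∈ Metric.ball (0 : ℂ) (r5 P), ∀ ω : ℂ, ω ^ P.n = 1 → fF P h (ω * z) = ω * fF P h z

/-- DR-QF5: the functions `Q_i` on the large disc. -/
def S_QF5 : Prop :=
  ∀ (P : Par) (X : ℝ) (h v : W) (y : ℕ → A), Big P X h v y →
    (∀ i, DifferentiableOn ℂ (fun z : ℂ => evh (qq P h v y i) (z ^ P.n)) (Metric.ball 0 (r5 P))) ∧
    (∀ i, ∀ z ∈ Metric.ball (0 : ℂ) (r5 P), ‖evh (qq P h v y i) (z ^ P.n)‖ ≤ 23 * X ^ 2) ∧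
    (∀ i, ∃ s : ℂ → ℂ, DifferentiableOn ℂ s (Metric.ball 0 (r5 P)) ∧
      ∀ z ∈ Metric.ball (0 : ℂ) (r5 P), evh (qq P h v y i) (z ^ P.n) = z ^ (P.n + 1) * s z) ∧
    ∀ i : ℕ, ∀ z ∈ Metric.ball (0 : ℂ) (r5 P), fF P h z * deriv (QF P X h v y (i + 1)) z +
      (i + 1) * (deriv (fF P h) z * QF P X h v y (i + 1) z) =
      P.ρ / 2 * (deriv (fF P h) z * (QF P X h v y i z + QF P X h v y (i + 2) z))

/-- DR-IMG: the image of the large disc. -/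
def S_IMG : Prop :=
  ∀ (ρ r s : ℝ) (f : ℂ → ℂ), Conf ρ r f → 0 < s →
    (∃ r₀, 0 < r₀ ∧ r₀ < r ∧ ∀ z : ℂ, ‖z‖ = r₀ → s ≤ ‖f z‖) →
    ∃ g : ℂ → ℂ, DifferentiableOn ℂ g (Metric.ball 0 s) ∧
      (∀ x ∈ Metric.ball (0 : ℂ) s, g x ∈ Metric.ball (0 : ℂ) r ∧ f (g x) = x) ∧
      (∀ z ∈ Metric.ball (0 : ℂ) r, f z ∈ Metric.ball (0 : ℂ) s → g (f z) = z) ∧
      ∃ q : ℂ → ℂ, DifferentiableOn ℂ q (Metric.ball 0 s) ∧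
        ∀ x ∈ Metric.ball (0 : ℂ) s, g x = x * q x

/-! ### The physical plane -/

/-- The constants `B_i`. -/
noncomputable def BB (P : Par) : ℕ → ℝ
  | 0 => 2 / P.ρ * P.b 0 - P.b 1
  | i + 1 => P.b i

/-- The functions `P_i` of the physical variable. -/
noncomputable def PF (P : Par) (X : ℝ) (p : ℕ → ℂ → ℂ) (i : ℕ) (x : ℂ) : ℂ :=
  (BB P i : ℝ) + (X * P.a i : ℝ) * (x / P.ρ) ^ P.n + p i x

/-- The radius in the physical plane. -/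
noncomputable def RP (P : Par) : ℝ := P.ρ + 19 / 10

/-- The data in the physical plane: the functions `p_i` and the critical curve `K`. -/
structure PH (P : Par) (X : ℝ) (p : ℕ → ℂ → ℂ) (K : Set ℂ) : Prop where
  good : Good P
  bd : ∃ C, ∀ i, |P.a i| ≤ C ∧ |P.b i| ≤ C
  X_pos : 0 < X
  X_le : X ≤ 3 / 10 ^ 4
  p_diff : ∀ i, DifferentiableOn ℂ (p i) (Metric.ball 0 (RP P))
  p_bd : ∀ i, ∀ x ∈ Metric.ball (0 : ℂ) (RP P), ‖p i x‖ ≤ 23 * X ^ 2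
  p_ord : ∀ i, ∃ s : ℂ → ℂ, DifferentiableOn ℂ s (Metric.ball 0 (RP P)) ∧
    ∀ x ∈ Metric.ball (0 : ℂ) (RP P), p i x = x ^ (P.n + 1) * s x
  p_sym : ∀ i, ∀ x ∈ Metric.ball (0 : ℂ) (RP P), ∀ ω : ℂ, ω ^ P.n = 1 → p i (ω * x) = p i x
  rel : ∀ i : ℕ, ∀ x ∈ Metric.ball (0 : ℂ) (RP P), x * deriv (PF P X p (i + 1)) x +
    (i + 1) * PF P X p (i + 1) x = P.ρ / 2 * (PF P X p i x + PF P X p (i + 2) x)
  K_curve : ∃ k : Circle → ℂ, Continuous k ∧ Function.Injective k ∧ range k = K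
  K_sub : K ⊆ Metric.ball 0 (P.ρ + 1)
  crit : ∀ x ∈ K, SS P.ρ id (PF P X p) x = 0

/-- DR-TPH: transfer to the physical plane. -/
def S_TPH : Prop :=
  ∀ (P : Par) (X : ℝ) (h v : W) (y : ℕ → A), Big P X h v y →
    ∃ (p : ℕ → ℂ → ℂ) (K : Set ℂ), PH P X p K

/-- DR-PHE: existence. -/
def S_PHE : Prop := ∃ (P : Par) (X : ℝ) (p : ℕ → ℂ → ℂ) (K : Set ℂ), PH P X p K

/-- DR-PDE: the Helmholtz equation in a disc of the physical plane. -/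
def S_PDE2 : Prop :=
  ∀ (ρ r : ℝ) (Q : ℕ → ℂ → ℂ), 0 < ρ → 0 < r → (∀ i, DifferentiableOn ℂ (Q i) (Metric.ball 0 r)) →
    (∃ C, ∀ i, ∀ x ∈ Metric.ball (0 : ℂ) r, ‖Q i x‖ ≤ C) →
    (∀ i : ℕ, ∀ x ∈ Metric.ball (0 : ℂ) r, x * deriv (Q (i + 1)) x + (i + 1) * Q (i + 1) x =
      ρ / 2 * (Q i x + Q (i + 2) x)) →
    ContDiffOn ℝ 2 (UU ρ id Q) (Metric.ball 0 r) ∧
    ContDiffOn ℝ 1 (SS ρ id Q) (Metric.ball 0 r) ∧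
    ∀ x ∈ Metric.ball (0 : ℂ) r,
      HasFDerivAt (UU ρ id Q) (Complex.reCLM.comp (ContinuousLinearMap.mul ℝ ℂ (SS ρ id Q x))) x ∧
      (fderiv ℝ (SS ρ id Q) x 1).re - (fderiv ℝ (SS ρ id Q) x Complex.I).im = -(UU ρ id Q x)

/-- `g_0 (r) = ∑ e ^ i / i! B_i`, `e = (ρ ^ 2 - r ^ 2) / (2 ρ)`. -/
noncomputable def g0 (P : Par) (r : ℝ) : ℝ :=
  ∑' i : ℕ, ((P.ρ ^ 2 - r ^ 2) / (2 * P.ρ)) ^ i / (i.factorial : ℝ) * BB P i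

/-- `g_n (r) = (r / ρ) ^ n ∑ e ^ i / i! a_i`. -/
noncomputable def gn (P : Par) (r : ℝ) : ℝ :=
  (r / P.ρ) ^ P.n *
    ∑' i : ℕ, ((P.ρ ^ 2 - r ^ 2) / (2 * P.ρ)) ^ i / (i.factorial : ℝ) * P.a i

/-- The remainder. -/
noncomputable def rem (P : Par) (p : ℕ → ℂ → ℂ) (x : ℂ) : ℝ := UU P.ρ id p x

/-- DR-BES: the two radial functions satisfy Bessel equations. -/
def S_BES : Prop :=
  ∀ P : Par, Good P → (∃ C, ∀ i, |P.a i| ≤ C ∧ |P.b i| ≤ C) →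
    (∀ r : ℝ, 0 < r →
      DifferentiableAt ℝ (g0 P) r ∧ DifferentiableAt ℝ (deriv (g0 P)) r ∧
      deriv (deriv (g0 P)) r = -(g0 P r) - deriv (g0 P) r / r ∧
      DifferentiableAt ℝ (gn P) r ∧ DifferentiableAt ℝ (deriv (gn P)) r ∧
      deriv (deriv (gn P)) r = -((1 - (P.n : ℝ) ^ 2 / r ^ 2) * gn P r) - deriv (gn P) r / r) ∧
    g0 P P.ρ = BB P 0 ∧ deriv (g0 P) P.ρ = -P.b 0 ∧
    gn P P.ρ = P.a 0 ∧ deriv (gn P) P.ρ = P.nu * P.a 0 + 1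

/-- DR-G0: estimates of `g_0`. -/
def S_G0 : Prop :=
  ∀ P : Par, Good P → (∃ C, ∀ i, |P.a i| ≤ C ∧ |P.b i| ≤ C) → ∀ s : ℝ, 0 ≤ s → s ≤ 19 / 10 →
    |g0 P (P.ρ + s) - Real.cos s| ≤ 1 / 1000 ∧ |deriv (g0 P) (P.ρ + s) + Real.sin s| ≤ 1 / 1000

/-- DR-GN: estimates of `g_n`. -/
def S_GN : Prop :=
  ∀ P : Par, Good P → (∃ C, ∀ i, |P.a i| ≤ C ∧ |P.b i| ≤ C) → ∀ s : ℝ, 0 ≤ s → s ≤ 19 / 10 →
    0 < gn P (P.ρ + s) ∧ gn P (P.ρ + s) ≤ 2 ∧ |deriv (gn P) (P.ρ + s)| ≤ 2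

/-- DR-DEC: decomposition of `u`. -/
def S_DEC : Prop :=
  ∀ (P : Par) (X : ℝ) (p : ℕ → ℂ → ℂ) (K : Set ℂ), PH P X p K →
    ∀ (r : ℝ) (w : ℂ), 0 < r → r < RP P → ‖w‖ = 1 →
      UU P.ρ id (PF P X p) (r * w) = g0 P r + X * gn P r * (w ^ P.n).re + rem P p (r * w)

/-- DR-REM: estimates of the remainder. -/
def S_REM : Prop :=
  ∀ (P : Par) (X : ℝ) (p : ℕ → ℂ → ℂ) (K : Set ℂ), PH P X p K →
    ∀ (r : ℝ) (w : ℂ), P.ρ ≤ r → r ≤ P.ρ + 17 / 10 → ‖w‖ = 1 →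
      |rem P p (r * w)| ≤ 1 / 1000 ∧
      DifferentiableAt ℝ (fun t : ℝ => rem P p (t * w)) r ∧
      |deriv (fun t : ℝ => rem P p (t * w)) r| ≤ 1 / 100

/-- DR-MON: sign change and monotonicity of `u` between the circles of radii `ρ + 3/2`, `ρ + 13/8`. -/
def S_MON : Prop :=
  ∀ (P : Par) (X : ℝ) (p : ℕ → ℂ → ℂ) (K : Set ℂ), PH P X p K → ∀ w : ℂ, ‖w‖ = 1 →
    StrictAntiOn (fun t : ℝ => UU P.ρ id (PF P X p) (t * w)) (Icc (P.ρ + 3 / 2) (P.ρ + 13 / 8)) ∧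
    0 < UU P.ρ id (PF P X p) (((P.ρ + 3 / 2 : ℝ) : ℂ) * w) ∧
    UU P.ρ id (PF P X p) (((P.ρ + 13 / 8 : ℝ) : ℂ) * w) < 0

/-- DR-CUR: the nodal curve. -/
def S_CUR : Prop :=
  ∀ (u : ℂ → ℝ) (r₁ r₂ : ℝ), 0 < r₁ → r₁ < r₂ → ContinuousOn u (Metric.closedBall 0 r₂) →
    (∀ w : ℂ, ‖w‖ = 1 → StrictAntiOn (fun t : ℝ => u (t * w)) (Icc r₁ r₂) ∧
      0 < u (r₁ * w) ∧ u (r₂ * w) < 0) →
    ∃ R : Circle → ℝ, Continuous R ∧ (∀ w, r₁ < R w ∧ R w < r₂ ∧ u (R w * (w : ℂ)) = 0) ∧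
      (∀ (w : Circle) (t : ℝ), r₁ ≤ t → t ≤ r₂ → u (t * (w : ℂ)) = 0 → t = R w) ∧
      ∃ D : Set ℂ, IsOpen D ∧ IsConnected D ∧ Metric.ball 0 r₁ ⊆ D ∧ D ⊆ Metric.ball 0 r₂ ∧
        frontier D = range (fun w : Circle => (R w : ℂ) * (w : ℂ)) ∧
        Continuous (fun w : Circle => (R w : ℂ) * (w : ℂ)) ∧
        Function.Injective (fun w : Circle => (R w : ℂ) * (w : ℂ))

/-- DR-NCI: `u` does not vanish on a circle about `0`. -/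
def S_NCI : Prop :=
  ∀ (P : Par) (X : ℝ) (p : ℕ → ℂ → ℂ) (K : Set ℂ), PH P X p K →
    ∀ r : ℝ, P.ρ + 3 / 2 ≤ r → r ≤ P.ρ + 13 / 8 →
      ∃ w : ℂ, ‖w‖ = 1 ∧ UU P.ρ id (PF P X p) (r * w) ≠ 0

/-- DR-NC: the nodal curve is not a circle. -/
def S_NC : Prop :=
  ∀ (u : ℂ → ℝ) (r₁ r₂ : ℝ) (R : Circle → ℝ) (ω : Circle), 0 < r₁ → ω ≠ 1 →
    (∀ x ∈ Metric.closedBall (0 : ℂ) r₂, u ((ω : ℂ) * x) = u x) →
    (∀ w, r₁ < R w ∧ R w < r₂ ∧ u (R w * (w : ℂ)) = 0) →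
    (∀ (w : Circle) (t : ℝ), r₁ ≤ t → t ≤ r₂ → u (t * (w : ℂ)) = 0 → t = R w) →
    (∀ r : ℝ, r₁ ≤ r → r ≤ r₂ → ∃ w : ℂ, ‖w‖ = 1 ∧ u (r * w) ≠ 0) →
    ∀ (a : ℂ) (s : ℝ), range (fun w : Circle => (R w : ℂ) * (w : ℂ)) ≠ Metric.sphere a s

/-- DR-CC: the solution in the plane `ℂ`. -/
def S_CC : Prop :=
  ∃ (O D K : Set ℂ) (u : ℂ → ℝ) (S : ℂ → ℂ) (κ k : Circle → ℂ),
    IsOpen O ∧ ContDiffOn ℝ 2 u O ∧ ContDiffOn ℝ 1 S O ∧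
    (∀ x ∈ O, HasFDerivAt u (Complex.reCLM.comp (ContinuousLinearMap.mul ℝ ℂ (S x))) x ∧
      (fderiv ℝ S x 1).re - (fderiv ℝ S x Complex.I).im = -(u x)) ∧
    IsOpen D ∧ IsConnected D ∧ Bornology.IsBounded D ∧ closure D ⊆ O ∧
    Continuous κ ∧ Function.Injective κ ∧ frontier D = range κ ∧
    (∀ (a : ℂ) (s : ℝ), range κ ≠ Metric.sphere a s) ∧ (∀ x ∈ range κ, u x = 0) ∧
    Continuous k ∧ Function.Injective k ∧ K = range k ∧ K ⊆ D ∧ (∀ x ∈ K, S x = 0) ∧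
    ∃ x ∈ D, u x ≠ 0

end Pool.Agent.N742.DR
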